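import Pool.Agent.MP_d23910_co.S7.Spec

/-!
Every unit vector lies in a piece.
-/

set_option autoImplicit false

namespace Pool.Agent.MP_d23910_co.S7

open scoped RealInnerProductSpace

namespace AllAux

theorem sum_es (φ : ℕ → ℕ → ℤ) (ps : List Pc) :
    (((ps.filter fun p => decide (¬ (p.k = 3 ∨ p.k = 2))).map fun p => p.L.map Vx.i).map
      (esum φ)).sum = (ps.map (Pc.es φ)).sum := by
  induction ps with
  | nil => rfl
  | cons p t ih =>
    rw [List.filter_cons]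
    by_cases h : p.k = 3 ∨ p.k = 2
    · rw [if_neg (by simpa using h.resolve_left), ih, List.map_cons, List.sum_cons, Pc.es,
        if_pos h, zero_add]
    · rw [if_pos (by simpa using h), List.map_cons, List.map_cons, List.sum_cons, ih,
        List.map_cons, List.sum_cons, Pc.es, if_neg h]

theorem mem_all {d : Dat} {ls : List (List (ℕ × List (List ℕ)))} {p : Pc} (h : p ∈ allPs d ls) :
    ∃ a, p ∈ (cl d a).ps := by
  obtain ⟨l, -, h⟩ := List.mem_flatMap.1 h
  obtain ⟨a, -, h⟩ := List.mem_flatMap.1 h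
  exact ⟨a, h⟩

end AllAux

open AllAux in
theorem allc (h1 : CoverS) (h2 : CombS) (h3 : ClS) : AllS := by
  intro d s V ls hW hA hF hE x hx
  obtain ⟨c1, c2⟩ := h3 d s V hW hA
  have hG : ∀ p ∈ allPs d ls, PcG d V p := fun p hp => by
    obtain ⟨a, ha⟩ := mem_all hp
    exact (c1 a).1 p ha
  obtain ⟨e1, ⟨p1, hp1, k1⟩, e3, e4⟩ := h2 d ls
    (fun p hp v hv => lt_of_lt_of_le ((hG p hp).1 v hv).1 hW.2.2.1.2.2.1) hE
  by_cases hz : ∃ i < d.nZ, x = V i
  · obtain ⟨i, hi, rfl⟩ := hz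
    obtain ⟨p, hp, k3, hd⟩ := e4 i hi
    obtain ⟨z, hz⟩ := (hG p hp).2.2.1 k3
    have e : p.hd = z := by rw [Pc.hd, hz]
    refine ⟨p, hp, hx, ⟨{V i}, fun _ => 1, fun a ha => ⟨z, by simp [hz], ?_⟩,
      fun _ => zero_le_one, by simp⟩, fun h => absurd k3 h, fun h => by omega, fun h => by omega⟩
    rw [Finset.mem_singleton.1 ha, ← hd, e]
  · have hz' : ∀ i < d.nZ, x ≠ V i := fun i hi h => hz ⟨i, hi, h⟩
    obtain ⟨L, hL, hc⟩ := h1 V
      (((allPs d ls).filter fun p : Pc => decide (¬ (p.k = 3 ∨ p.k = 2))).map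
        fun p : Pc => p.L.map Vx.i)
      (fun L hL => by
        obtain ⟨p, hp, rfl⟩ := List.mem_map.1 hL
        obtain ⟨hp, hk⟩ := List.mem_filter.1 hp
        have hk' := of_decide_eq_true hk
        have h3' := (hG p hp).2.1
        by_cases h0 : p.k = 0
        · exact hF p hp h0
        · obtain ⟨-, m, a, b, e, -, -, hd, -⟩ := (hG p hp).2.2.2 (by omega)
          rw [e]
          exact ⟨hd, trivial⟩)
      (fun φ hφ => (sum_es φ _).trans (e1 φ hφ))
      ⟨_, List.mem_map.2 ⟨p1, List.mem_filter.2 ⟨hp1, decide_eq_true (by omega)⟩, rfl⟩, by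
        obtain ⟨-, m, a, b, e, -⟩ := (hG p1 hp1).2.2.2 (Or.inl k1)
        simp [e]⟩ x
    obtain ⟨p, hp, rfl⟩ := List.mem_map.1 hL
    obtain ⟨hp, hk⟩ := List.mem_filter.1 hp
    have hk' := of_decide_eq_true hk
    have hc' : Cone (p.pts V) x := by
      obtain ⟨F, α, f1, f2, f3⟩ := hc
      refine ⟨F, α, fun a ha => ?_, f2, f3⟩
      obtain ⟨i, hi, e⟩ := f1 a ha
      obtain ⟨v, hv, rfl⟩ := List.mem_map.1 hi
      exact ⟨v, hv, e⟩
    by_cases ht : p.k = 1 → ⟪x, V p.q.i⟫ ≤ d.cc s ∧ (p.st = true → ⟪x, V p.q.i⟫ < d.cc s)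
    · exact ⟨p, hp, hx, hc', fun _ => hz', ht, fun h => by omega⟩
    · obtain ⟨k1', ht⟩ := Classical.not_imp.1 ht
      obtain ⟨p', hp', k2, et⟩ := e3 p hp k1'
      obtain ⟨a, ha⟩ := mem_all hp
      obtain ⟨a', ha'⟩ := mem_all hp'
      obtain ⟨eL, eq, es⟩ := c2 a a' p ha p' ha' k1' k2 et
      refine ⟨p', hp', hx, by rw [Pc.pts, eL]; exact hc', fun _ => hz', fun h => by omega,
        fun _ => ?_⟩
      rw [eq, es]
      constructor
      · by_contra h
        exact ht ⟨(not_le.1 h).le, fun _ => not_le.1 h⟩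
      · intro hs
        by_contra h
        exact ht ⟨not_lt.1 h, fun h' => by rw [hs] at h'; cases h'⟩

end Pool.Agent.MP_d23910_co.S7
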