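import Pool.Agent.MP_d23910_co.S7.Spec

/-! Soundness of the band rule. -/

set_option autoImplicit false

namespace Pool.Agent.MP_d23910_co.S7

open scoped RealInnerProductSpace

theorem cone_one {A : Set E} {u y : E} (hA : ∀ a ∈ A, a = u) (hu : ‖u‖ = 1) (hy : ‖y‖ = 1)
    (h : Cone A y) : y = u := by
  obtain ⟨F, α, h1, h2, h3⟩ := h
  have h4 : y = (∑ a ∈ F, α a) • u := by
    rw [h3, Finset.sum_smul]
    exact Finset.sum_congr rfl fun a ha => by rw [← hA a (h1 a ha)]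
  have h5 : 0 ≤ ∑ a ∈ F, α a := Finset.sum_nonneg fun a _ => h2 a
  rw [h4, norm_smul, hu, mul_one, Real.norm_of_nonneg h5] at hy
  rw [h4, hy, one_smul]

theorem bandr (h1 : LinS) (h2 : NearVS) (h3 : DotVS) (h4 : ParS) (h5 : BandS) : Sound band := by
  intro d s V A B mA mB w hW hA hB h i j P P' hi hj hmA hmB x y hx hy hxy
  obtain ⟨s0, s1, hpar, hap, hrel⟩ := hW
  obtain ⟨-, -, p3, -, -, -, -, p8, p9, p10⟩ := h4 d s s0 s1 hpar
  simp only [band, getV_eq, force_eq, an_eq, Bool.and_eq_true, ble_iff] at h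
  obtain ⟨⟨r1, r2⟩, r3, r4⟩ := h
  have gp := hap _ (p9 (fld w 0 65535))
  have gq := hap _ (p9 (fld w 16 65535))
  generalize vx d (fld w 0 65535) = p at r1 r3 r4 gp
  generalize vx d (fld w 16 65535) = q at r1 r3 r4 gq
  have hl : Nat.mul (fld w 32 65535) 256 ≤ 2 ^ 24 := by
    have := fld_le w 32 65535
    show fld w 32 65535 * 256 ≤ _
    omega
  generalize Nat.mul (fld w 32 65535) 256 = l at r2 r3 r4 hl
  obtain ⟨-, qz, hc⟩ := hrel _ _ r1
  obtain ⟨v1, v2⟩ := h1.2.2.2.2.1 s l (by rw [BB_eq]; omega)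
  have v3 : Lin (Nat.mul l H1) (2 ^ 30) := le_trans v2 (by omega)
  have d1 : 4194304 * ‖V p.i - V q.i‖ ≤ l := by
    rw [(p10 _ _ gp.1 gq.1).2.2.1 hc]
    exact p3.trans (by exact_mod_cast r2)
  have d2 : 4194304 * ‖V q.i - V p.i‖ ≤ l := by rwa [norm_sub_rev]
  have gA := (hA P (List.mem_of_getElem? hi)).1
  obtain ⟨gB, -, gB3, -⟩ := hB P' (List.mem_of_getElem? hj)
  have tA := (allL_iff _ _).1 (allSel_spec _ _ _ r3 i P hi hmA)
  have tB := (allL_iff _ _).1 (allSel_spec _ _ _ r4 j P' hj hmB)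
  simp only [orr_eq, nt_eq, Bool.or_eq_true, Bool.and_eq_true, beq_iff, Bool.not_eq_true',
    ← Bool.not_eq_true] at tA tB
  have key : ∀ (a p q : Vx), Ap s (V a.i) a → Ap s (V p.i) p → Ap s (V q.i) q →
      4194304 * ‖V q.i - V p.i‖ ≤ l → nearV a p (Nat.mul l H1) = true → dotV a p q p l = true →
      ⟪V a.i - V p.i, V q.i - V p.i⟫ < 0 := fun a p q ga gp gq e n1 n2 =>
    h3 s _ _ _ _ a p q p l s0 s1 ga gp gq gp (by omega)
      (v1 ▸ (h2 s _ _ a p _ s0 s1 ga gp v3 n1).le) e n2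
  have hyq : y = V q.i := by
    refine h5 (P.pts V) (P'.pts V) (V p.i) (V q.i) x y (d.cc s) ?_ ?_ gp.1 gq.1 hc p8 ?_ ?_
      hx.1 hy.1 hx.2.1 hy.2.1 hxy
    · rintro _ ⟨a, ha, rfl⟩
      exact (hap a (gA a ha)).1
    · rintro _ ⟨a, ha, rfl⟩
      exact (hap a (gB a ha)).1
    · rintro _ ⟨a, ha, rfl⟩
      exact (tA a ha).imp (fun e => by rw [e]) fun e => key a p q (hap a (gA a ha)) gp gq d2 e.1 e.2
    · rintro _ ⟨a, ha, rfl⟩
      exact (tB a ha).imp (fun e => by rw [e.1]) fun e =>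
        key a q p (hap a (gB a ha)) gq gp d1 e.1 e.2
  by_cases hk : P'.k = 3
  · obtain ⟨u, hu⟩ := gB3 hk
    have hu' : u ∈ P'.L := by rw [hu]; exact List.mem_singleton_self u
    have gu := hap u (gB u hu')
    have e : y = V u.i := cone_one (A := P'.pts V) (by
      rintro _ ⟨a, ha, rfl⟩
      rw [hu, List.mem_singleton] at ha
      rw [ha]) gu.1 hy.1 hy.2.1
    rcases tB u hu' with t | t
    · exact t.2 hk
    · have := key u q p gu gq gp d1 t.1 t.2
      rw [← e, hyq, sub_self, inner_zero_left] at this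
      exact lt_irrefl _ this
  · exact hy.2.2.1 hk _ qz hyq

end Pool.Agent.MP_d23910_co.S7
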