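import Mathlib.Data.Nat.Bitwise

/-!
A checker for seven-colourings of a sphere by tiles with circular arcs, for a whole interval of
forbidden distances.  Numbers `x0 + x1 * 2 ^ 96` stand for linear functions of the parameter.
-/

set_option autoImplicit false

namespace Pool.Agent.MP_d23910_co.S7

/-- Binary trees with numbers at the leaves. -/
inductive Tr : Type
  | lf : ℕ → Tr
  | nd : Tr → Tr → Tr

/-- Conditional. -/
noncomputable def cnd {β : Type} (b : Bool) (x y : β) : β := Bool.rec y x b
/-- Conjunction. -/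
noncomputable def an (a b : Bool) : Bool := Bool.rec false b a
/-- Disjunction. -/
noncomputable def orr (a b : Bool) : Bool := Bool.rec b true a
/-- Negation. -/
noncomputable def nt (a : Bool) : Bool := Bool.rec true false a

/-- Lookup by the binary digits of the key. -/
noncomputable def Tr.get (t : Tr) : ℕ → ℕ :=
  Tr.rec (fun v _ => v)
    (fun _ _ gl gr k => cnd (Nat.beq (Nat.land k 1) 0) (gl (Nat.shiftRight k 1))
      (gr (Nat.shiftRight k 1))) t

/-- Evaluate a number before passing it on. -/
noncomputable def force {β : Type} (x : ℕ) (k : ℕ → β) : β :=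
  Nat.rec (k 0) (fun m _ => k (Nat.succ m)) x

/-- Evaluate first only if the flag is set. -/
noncomputable def fz {β : Type} (b : Bool) (x : ℕ) (k : ℕ → β) : β := Bool.rec (k x) (force x k) b

/-- All elements pass the test. -/
noncomputable def allL {α : Type} (f : α → Bool) (l : List α) : Bool :=
  List.rec true (fun a _ r => an (f a) r) l

/-- All pairs at different positions pass the test. -/
noncomputable def allP {α : Type} (f : α → α → Bool) (l : List α) : Bool :=
  List.rec true (fun a t r => an (allL (f a) t) r) l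

/-- All numbers below the bound pass the test. -/
noncomputable def allN (f : ℕ → Bool) (n : ℕ) : Bool :=
  Nat.rec true (fun i r => an (f i) r) n

/-- All elements selected by the mask pass the test. -/
noncomputable def allSel {α : Type} (f : α → Bool) (l : List α) : ℕ → Bool :=
  List.rec (fun _ => true)
    (fun a _ r m => force (Nat.shiftRight m 1) fun m' =>
      an (orr (Nat.beq (Nat.land m 1) 0) (f a)) (r m')) l

/-- The field of width given by the mask at a bit position. -/
def fld (w p m : ℕ) : ℕ := Nat.land (Nat.shiftRight w p) m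

/-- Entry `i` of a table with records of `w` bits in chunks of `m + 1 = 2 ^ c`. -/
noncomputable def ent (t : Tr) (c m w i : ℕ) : ℕ :=
  Nat.shiftRight (t.get (Nat.shiftRight i c)) (Nat.mul w (Nat.land i m))

/-- The base `2 ^ 96`. -/
def BB : ℕ := 79228162514264337593543950336
/-- `1 + BB`. -/
def H1 : ℕ := 79228162514264337593543950337
/-- `H1 ^ 2`. -/
def H2 : ℕ := 6277101735386680763835789423366122741130884119651122413569
/-- `H1 ^ 3`. -/
def H3 : ℕ :=
  497323236409786642155382248165652145306616193088855085710324660629009356358706110922753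
/-- `2 ^ 95 * (1 + BB + BB ^ 2 + BB ^ 3)`. -/
def HH : ℕ :=
  19701003098197239606139520050320468520744762956310414458050695673040782301529197059139008563178345878800609472151552
/-- Digitwise comparison `R ≤ L` of four digits. -/
def geK (L R : ℕ) : Bool := Nat.beq (Nat.land (Nat.sub (Nat.add L HH) R) HH) HH

/-- A moving point with offset coordinates and the sum of their squares. -/
structure P3 : Type where
  X : ℕ
  Y : ℕ
  Z : ℕ
  N : ℕ

/-- Scalar product. -/
def dt (a b : P3) : ℕ := Nat.add (Nat.add (Nat.mul a.X b.X) (Nat.mul a.Y b.Y)) (Nat.mul a.Z b.Z)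
/-- The point with given coordinates. -/
def mk3 (X Y Z : ℕ) : P3 :=
  ⟨X, Y, Z, Nat.add (Nat.add (Nat.mul X X) (Nat.mul Y Y)) (Nat.mul Z Z)⟩
/-- Sum of the coordinates. -/
def sm (a : P3) : ℕ := Nat.add (Nat.add a.X a.Y) a.Z
/-- Sum of two points. -/
def ad3 (a b : P3) : P3 := mk3 (Nat.add a.X b.X) (Nat.add a.Y b.Y) (Nat.add a.Z b.Z)
/-- The origin: all offset coordinates are `2 ^ 23`. -/
def org : P3 := mk3 (Nat.mul 8388608 H1) (Nat.mul 8388608 H1) (Nat.mul 8388608 H1)

/-- `‖a - b‖ + E < T`. -/
def nearP (a b : P3) (E T : ℕ) : Bool :=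
  geK (Nat.add (Nat.mul 2 (dt a b)) (Nat.mul T T))
    (Nat.add (Nat.add (Nat.add a.N b.N) (Nat.mul (Nat.mul (Nat.mul 2 E) H1) T)) H2)
/-- `T - m ≤ ‖a - b‖`. -/
def farP (a b : P3) (m T : ℕ) : Bool :=
  geK (Nat.add (Nat.add a.N b.N) (Nat.mul (Nat.mul (Nat.mul 2 m) H1) T))
    (Nat.add (Nat.add (Nat.mul 2 (dt a b)) (Nat.mul T T)) (Nat.mul (Nat.mul m m) H2))
/-- `(a - p) · (u - q) + t < 0`. -/
def dotP (a p u q : P3) (t : ℕ) : Bool :=
  geK (Nat.add (dt a q) (dt p u))
    (Nat.add (Nat.add (dt a u) (dt p q)) (Nat.mul (Nat.succ t) H2))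
/-- Cyclic sum of products. -/
def cy (a b c a' b' c' : ℕ) : ℕ := Nat.add (Nat.add (Nat.mul a b') (Nat.mul b c')) (Nat.mul c a')
/-- `t < det (a - org, b - org, c - org)`. -/
noncomputable def detP (a b c : P3) (t : ℕ) : Bool :=
  force (cy a.Y b.Y c.Y a.Z b.Z c.Z) fun px => force (cy a.Z b.Z c.Z a.Y b.Y c.Y) fun nx =>
  force (cy a.Z b.Z c.Z a.X b.X c.X) fun py => force (cy a.X b.X c.X a.Z b.Z c.Z) fun ny =>
  force (cy a.X b.X c.X a.Y b.Y c.Y) fun pz => force (cy a.Y b.Y c.Y a.X b.X c.X) fun nz =>
  geK (Nat.add (Nat.add (Nat.add (Nat.mul a.X px) (Nat.mul a.Y py)) (Nat.mul a.Z pz))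
      (Nat.mul org.X (Nat.add (Nat.add nx ny) nz)))
    (Nat.add (Nat.add (Nat.add (Nat.add (Nat.mul a.X nx) (Nat.mul a.Y ny)) (Nat.mul a.Z nz))
      (Nat.mul org.X (Nat.add (Nat.add px py) pz))) (Nat.mul (Nat.succ t) H3))

/-- A vertex: index, moving approximation, error bound. -/
structure Vx : Type where
  i : ℕ
  p : P3
  e : ℕ

/-- The tables of one certificate. -/
structure Dat : Type where
  VT : Tr
  nV : ℕ
  ZT : Tr
  nZ : ℕ
  AT : Tr
  nA : ℕ
  ET : Tr
  D0 : ℕ
  D1 : ℕ
  RM : ℕ

/-- The linear function stored in 48 bits. -/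
def lin (w p : ℕ) : ℕ :=
  Nat.add (fld w p 16777215) (Nat.mul (fld w (Nat.add p 24) 16777215) BB)

/-- Fetch a vertex. -/
noncomputable def getV {β : Type} (d : Dat) (j : ℕ) (k : Vx → β) : β :=
  force (Nat.mod j d.nV) fun i =>
  force (Nat.mod (ent d.VT 5 31 160 i) 1461501637330902918203684832716283019655932542976) fun w =>
  force (lin w 0) fun X => force (lin w 48) fun Y => force (lin w 96) fun Z =>
  force (fld w 144 65535) fun e => k ⟨i, mk3 X Y Z, e⟩

/-- The vertex with a given number. -/
noncomputable def vx (d : Dat) (j : ℕ) : Vx := getV d j id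

/-- Fetch a vertex, or only its index if the flag is not set. -/
noncomputable def getW {β : Type} (f : Bool) (d : Dat) (j : ℕ) (k : Vx → β) : β :=
  Bool.rec (force (Nat.mod j d.nV) fun i => k ⟨i, (vx d i).p, (vx d i).e⟩) (getV d j k) f

/-- The scaled forbidden distance. -/
def Dat.D (d : Dat) : ℕ := Nat.add d.D0 (Nat.mul d.D1 BB)
/-- Its maximum. -/
noncomputable def Dat.Dm (d : Dat) : ℕ := cnd (Nat.ble d.D0 d.D1) d.D1 d.D0

/-- `j` is a parent of `i`. -/
noncomputable def hp (d : Dat) (i j : ℕ) : Bool :=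
  an (an (Nat.blt i d.nZ) (Nat.blt j i))
    (force (ent d.ZT 6 63 64 i) fun w => orr (Nat.beq (fld w 0 65535) j) (Nat.beq (fld w 16 65535) j))
/-- The two vertices are at the forbidden distance by construction. -/
noncomputable def rel (d : Dat) (i j : ℕ) : Bool := orr (hp d i j) (hp d j i)

/-- True distance below `T`. -/
def nearV (a b : Vx) (T : ℕ) : Bool := nearP a.p b.p (Nat.add a.e b.e) T
/-- True scalar product of differences is negative, lengths at most `l`. -/
noncomputable def dotV (a p u q : Vx) (l : ℕ) : Bool :=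
  force (Nat.add (Nat.add a.e p.e) (Nat.add u.e q.e)) fun E =>
    dotP a.p p.p u.p q.p (Nat.mul E (Nat.add l E))
/-- True determinant above `t`, side lengths at most `l`. -/
noncomputable def detV (a b c : Vx) (l t : ℕ) : Bool :=
  force (Nat.add (Nat.add a.e b.e) c.e) fun E =>
    detP a.p b.p c.p (Nat.add (Nat.mul (Nat.mul (Nat.add 4194304 E) E) (Nat.add l E)) t)
/-- The approximation has length within `e` of `2 ^ 22`. -/
def radial (p : P3) (e : ℕ) : Bool :=
  Bool.and (nearP p org 0 (Nat.mul (Nat.add 4194304 e) H1)) (farP p org e (Nat.mul 4194304 H1))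
/-- The approximations are at distance within `m` of `D`. -/
def about (d : Dat) (a b : Vx) (m : ℕ) : Bool :=
  Bool.and (nearP a.p b.p 0 (Nat.add d.D (Nat.mul m H1))) (farP a.p b.p m d.D)

/-- Check of an exact vertex. -/
noncomputable def chkZ (d : Dat) (v : Vx) : Bool :=
  force (ent d.ZT 6 63 64 v.i) fun w => force (fld w 0 65535) fun p1 => force (fld w 16 65535) fun p2 =>
  force (fld w 32 65535) fun ep => force (fld w 48 65535) fun mu =>
  an (an (radial v.p ep) (Nat.ble ep v.e))
    (cnd (Nat.blt p1 v.i)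
      (getV d p1 fun p => an (about d v p mu)
        (cnd (Nat.blt p2 v.i)
          (getV d p2 fun q => an (about d v q mu)
            (force (Nat.add (Nat.add mu ep) (cnd (Nat.ble p.e q.e) q.e p.e)) fun eta =>
             force (Nat.sub v.e ep) fun e => force (Nat.add d.Dm eta) fun l =>
              an (Nat.blt 0 e) (detV ⟨v.i, v.p, ep⟩ p q (Nat.mul 2 l)
                (Nat.succ (Nat.div (Nat.mul (Nat.mul 4194304
                  (Nat.add (Nat.mul (Nat.mul 2 eta) l) (Nat.mul e e))) l) e)))))
          (Nat.ble (Nat.add (Nat.mul 4 ep) (Nat.mul 5 (Nat.add (Nat.add mu ep) p.e)))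
            (Nat.mul 4 v.e))))
      (Nat.ble v.i p2))

/-- Check of a vertex. -/
noncomputable def chkV1 (d : Dat) (i : ℕ) : Bool :=
  getV d i fun v => cnd (Nat.blt v.i d.nZ) (chkZ d v) (radial v.p v.e)

/-- A piece: kind (cell, outside, inside, point), vertices, centre, strictness flag, number of
the arc, relative edge numbers. -/
structure Pc : Type where
  k : ℕ
  L : List Vx
  q : Vx
  st : Bool
  t : ℕ
  sl : List ℕ

/-- Fetch an arc as a piece of kind `k`. -/
noncomputable def getA {β : Type} (f : Bool) (d : Dat) (k j : ℕ) (sl : List ℕ) (c : Pc → β) : β :=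
  force (Nat.mod j d.nA) fun t =>
  force (Nat.mod (ent d.AT 6 63 80 t) 1208925819614629174706176) fun w =>
  getW f d (fld w 0 65535) fun m => getW f d (fld w 16 65535) fun a =>
  getW f d (fld w 32 65535) fun b => getW f d (fld w 48 65535) fun q =>
    c ⟨k, [m, a, b], q, Nat.beq (fld w 64 1) 1, t, sl⟩

/-- Check of an arc. -/
noncomputable def chkA1 (d : Dat) (t : ℕ) : Bool :=
  force (Nat.mod (ent d.AT 6 63 80 t) 1208925819614629174706176) fun w =>
  getV d (fld w 0 65535) fun m => getV d (fld w 16 65535) fun a =>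
  getV d (fld w 32 65535) fun b => getV d (fld w 48 65535) fun q =>
  force (Nat.mul (fld w 65 32767) 256) fun l =>
    an (an (an (rel d q.i a.i) (rel d q.i b.i))
      (an (an (nearV m a (Nat.mul l H1)) (nearV m b (Nat.mul l H1))) (nearV a b (Nat.mul l H1))))
      (an (detV m a b l 0) (detV q b a (Nat.mul 2 d.Dm) 0))

/-- Check of the parameters, the vertices and the arcs. -/
noncomputable def chkV (d : Dat) : Bool :=
  an (an (an (an (Nat.blt 0 d.nZ) (Nat.ble d.nZ d.nV)) (an (Nat.ble d.nV 65536) (Nat.blt 0 d.nA)))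
      (an (an (an (Nat.ble 262144 d.D0) (Nat.ble d.D0 4900000))
        (an (Nat.ble 262144 d.D1) (Nat.ble d.D1 4900000))) (Nat.ble d.RM 4194304)))
    (an (allN (chkV1 d) d.nV) (allN (chkA1 d) d.nA))

/-- Read the vertices and edge numbers of a cell. -/
noncomputable def getL {β : Type} (f : Bool) (d : Dat) (n : ℕ) : ℕ → (List Vx → List ℕ → β) → β :=
  Nat.rec (fun _ k => k [] [])
    (fun _ r g k => getW f d (Nat.land g 65535) fun v => force (fld g 16 4095) fun s =>
      force (Nat.shiftRight g 28) fun g' => r g' fun L sl => k (v :: L) (s :: sl)) n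

/-- The vertex used where no centre is needed. -/
def v0 : Vx := ⟨0, org, 0⟩

/-- Read the pieces of a cluster. -/
noncomputable def getP {β : Type} (f : Bool) (d : Dat) (n : ℕ) : ℕ → (List Pc → β) → β :=
  Nat.rec (fun _ k => k [])
    (fun _ r g k => force (Nat.land g 3) fun kd =>
      cnd (Nat.beq kd 0)
        (force (fld g 2 63) fun m => getL f d m (Nat.shiftRight g 8) fun L sl =>
          force (Nat.shiftRight g (Nat.add 8 (Nat.mul 28 m))) fun g' =>
            r g' fun ps => k (⟨0, L, v0, false, 0, sl⟩ :: ps))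
        (cnd (Nat.beq kd 1)
          (force (fld g 20 4095) fun s1 => force (fld g 32 4095) fun s2 =>
            force (fld g 44 4095) fun s3 => getA f d 1 (fld g 4 65535) [s1, s2, s3] fun p =>
            force (Nat.shiftRight g 56) fun g' => r g' fun ps => k (p :: ps))
          (cnd (Nat.beq kd 2)
            (getA f d 2 (fld g 4 65535) [] fun p =>
              force (Nat.shiftRight g 20) fun g' => r g' fun ps => k (p :: ps))
            (getW f d (fld g 4 65535) fun z =>
              force (Nat.shiftRight g 20) fun g' =>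
                r g' fun ps => k (⟨3, [z], v0, false, 0, []⟩ :: ps))))) n

/-- A cluster: number of pieces, pieces, doubled centre, radius, base of the edge numbers,
box of the doubled centre, groups of rules. -/
structure Cl : Type where
  np : ℕ
  ps : List Pc
  c : P3
  rho : ℕ
  base : ℕ
  xl : ℕ
  xh : ℕ
  yl : ℕ
  yh : ℕ
  zl : ℕ
  zh : ℕ
  rs : List (List ℕ)

/-- Smaller digit. -/
noncomputable def lo2 (X : ℕ) : ℕ :=
  cnd (Nat.ble (Nat.mod X BB) (Nat.div X BB)) (Nat.mod X BB) (Nat.div X BB)
/-- Larger digit. -/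
noncomputable def hi2 (X : ℕ) : ℕ :=
  cnd (Nat.ble (Nat.mod X BB) (Nat.div X BB)) (Nat.div X BB) (Nat.mod X BB)

/-- Read a cluster. -/
noncomputable def getC {β : Type} (f : Bool) (d : Dat) (g : ℕ) (rs : List (List ℕ))
    (k : Cl → β) : β :=
  force (Nat.land g 255) fun np =>
  getW f d (fld g 8 65535) fun a => getW f d (fld g 24 65535) fun b =>
  force (Nat.mul (fld g 40 65535) 256) fun rho => force (fld g 56 65535) fun base =>
  fz f (Nat.add a.p.X b.p.X) fun X => fz f (Nat.add a.p.Y b.p.Y) fun Y =>
  fz f (Nat.add a.p.Z b.p.Z) fun Z =>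
  fz f (lo2 X) fun xl => fz f (hi2 X) fun xh => fz f (lo2 Y) fun yl => fz f (hi2 Y) fun yh =>
  fz f (lo2 Z) fun zl => fz f (hi2 Z) fun zh =>
  getP f d np (Nat.shiftRight g 72) fun ps =>
    k ⟨np, ps, mk3 X Y Z, rho, base, xl, xh, yl, yh, zl, zh, rs⟩

/-- Read a list of clusters. -/
noncomputable def getCs {β : Type} (d : Dat) (l : List (ℕ × List (List ℕ))) :
    (List Cl → β) → β :=
  List.rec (fun k => k []) (fun a _ r k => getC true d a.1 a.2 fun c => r fun t => k (c :: t)) l

/-- Some element has the index. -/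
noncomputable def hasI (i : ℕ) (l : List Vx) : Bool :=
  List.rec false (fun a _ r => orr (Nat.beq a.i i) r) l
/-- Insert vertices with new indices. -/
noncomputable def insL {β : Type} (l : List Vx) : List Vx → (List Vx → β) → β :=
  List.rec (fun acc k => k acc)
    (fun a _ r acc k => cnd (hasI a.i acc) (r acc k) (r (a :: acc) k)) l
/-- The vertices that bound a piece in the test for short distances. -/
noncomputable def Pc.nv (p : Pc) : List Vx :=
  cnd (Nat.beq p.k 2) (List.rec [] (fun _ t _ => t) p.L) p.L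
/-- All those vertices of a cluster, without repetition. -/
noncomputable def getNV {β : Type} (ps : List Pc) : List Vx → (List Vx → β) → β :=
  List.rec (fun acc k => k acc) (fun p _ r acc k => insL p.nv acc fun acc' => r acc' k) ps

/-- The true vertex is within the radius of the centre. -/
def inB (c : Cl) (v : Vx) : Bool :=
  nearP (ad3 v.p v.p) c.c (Nat.mul 2 v.e) (Nat.mul (Nat.mul 2 c.rho) H1)

/-- All triangles of the fan from `a` are positively oriented. -/
noncomputable def fan (a : Vx) (l : ℕ) (L : List Vx) : Vx → Bool :=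
  List.rec (fun _ => true) (fun c _ r b => an (detV a b c l 0) (r c)) L
/-- The same for a cell. -/
noncomputable def fanL (l : ℕ) (L : List Vx) : Bool :=
  List.rec true (fun a t _ => List.rec true (fun b u _ => fan a l u b) t) L

/-- First vertex of a piece. -/
noncomputable def Pc.hd (p : Pc) : Vx := List.rec v0 (fun a _ _ => a) p.L

/-- Two pieces of a cluster are compatible: a point `p` is not related to a point `p'` nor to
both ends of a closed inner piece `p'`. -/
noncomputable def cmp (d : Dat) (p p' : Pc) : Bool :=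
  cnd (Nat.beq p.k 3)
    (cnd (Nat.beq p'.k 3) (nt (rel d p.hd.i p'.hd.i))
      (cnd (an (Nat.beq p'.k 2) p'.st) (nt (allL (fun e => rel d p.hd.i e.i) p'.nv)) true))
    true

/-- Check of one cluster. -/
noncomputable def chkCl (d : Dat) (c : Cl) : Bool :=
  getNV c.ps [] fun nv =>
    an (an (an (Nat.ble c.rho d.RM) (allL (inB c) nv))
        (allL (fun p => cnd (Nat.beq p.k 0) (fanL (Nat.mul 2 c.rho) p.L)
          (cnd (Nat.beq p.k 2) (inB c p.hd) true)) c.ps))
      (an (orr (an (Nat.blt (Nat.mul 2 c.rho) d.D0) (Nat.blt (Nat.mul 2 c.rho) d.D1))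
          (allP (fun a b => orr (nearV a b d.D) (rel d a.i b.i)) nv))
        (allL (fun p => allL (cmp d p) c.ps) c.ps))

/-- The linear function with two sixteen bit values. -/
def lin16 (w p : ℕ) : ℕ := Nat.add (fld w p 65535) (Nat.mul (fld w (Nat.add p 16) 65535) BB)

/-- Separation by a slab. -/
noncomputable def slab (d : Dat) (A B : List Pc) (mA mB w : ℕ) : Bool :=
  force (lin16 w 0) fun X => force (lin16 w 32) fun Y => force (lin16 w 64) fun Z =>
  force (fld w 96 65535) fun gA => force (fld w 112 65535) fun gB =>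
  force (Nat.mul 32768 H1) fun h =>
  force (Nat.mul org.X (Nat.add (Nat.add X Y) Z)) fun K1 =>
  force (Nat.mul 824633720832 H2) fun K2 =>
  force (Nat.add K1 (Nat.mul (Nat.mul (Nat.mul 2 gA) d.D) H1)) fun KA =>
  force (Nat.add K2 (Nat.mul (Nat.mul (Nat.mul 2 gB) d.D) H1)) fun KB =>
  an (an (nearP (mk3 X Y Z) (mk3 h h h) 0 h)
      (geK (Nat.add (Nat.mul (Nat.mul (Nat.mul (Nat.add gA gB) (Nat.add gA gB)) 70368744177664) H2)
          (Nat.mul 268435456 (Nat.mul d.D d.D)))
        (Nat.add (Nat.mul 18889465931478580854785 H2)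
          (Nat.mul (Nat.mul (Nat.mul 4 gA) gB) (Nat.mul d.D d.D)))))
    (an (allSel (fun p => allL (fun a => geK (Nat.add (dt a.p (mk3 X Y Z)) K2)
          (Nat.add KA (Nat.mul h (Nat.add (sm a.p) (Nat.mul a.e H1))))) p.L) A mA)
      (allSel (fun p => allL (fun u => geK (Nat.add K1 (Nat.mul h (sm u.p)))
          (Nat.add (Nat.add (dt u.p (mk3 X Y Z)) KB) (Nat.mul h (Nat.mul u.e H1)))) p.L) B mB))

/-- Separation by the band between two related points. -/
noncomputable def band (d : Dat) (A B : List Pc) (mA mB w : ℕ) : Bool :=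
  getV d (fld w 0 65535) fun p => getV d (fld w 16 65535) fun q =>
  force (Nat.mul (fld w 32 65535) 256) fun l => force (Nat.mul l H1) fun T =>
  an (an (rel d p.i q.i) (Nat.ble d.Dm l))
    (an (allSel (fun P => allL (fun a => orr (Nat.beq a.i p.i)
          (an (nearV a p T) (dotV a p q p l))) P.L) A mA)
      (allSel (fun P => allL (fun u => orr (an (Nat.beq u.i q.i) (nt (Nat.beq P.k 3)))
          (an (nearV u q T) (dotV u q p q l))) P.L) B mB))

/-- Separation of outer pieces with centre `q` from pieces in the opposite wedge at `q`. -/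
noncomputable def wedge (d : Dat) (A B : List Pc) (mA mB w : ℕ) : Bool :=
  getV d (fld w 16 65535) fun q =>
  force (Nat.mul (fld w 32 65535) 256) fun l => force (Nat.mul l H1) fun T =>
  an (allSel (fun P' => allL (fun u => nearV u q T) P'.L) B mB)
    (allSel (fun P => an (an (an (Nat.beq P.k 1) (Nat.beq P.q.i q.i))
        (allL (fun a => nearV a q T) P.L))
      (allSel (fun P' => allL (fun u =>
        orr (an (Nat.beq u.i q.i) (orr P.st (nt (Nat.beq P'.k 3))))
          (allL (fun a => dotV a q u q l) P.L)) P'.L) B mB)) A mA)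

/-- Separation of outer pieces about two related centres. -/
noncomputable def dbl (d : Dat) (A B : List Pc) (mA mB w : ℕ) : Bool :=
  getV d (fld w 0 65535) fun p => getV d (fld w 16 65535) fun q =>
  force (Nat.mul (fld w 32 65535) 256) fun l => force (Nat.mul l H1) fun T =>
  an (an (rel d p.i q.i)
      (allSel (fun P' => an (an (Nat.beq P'.k 1) (Nat.beq P'.q.i p.i))
        (allL (fun u => nearV u q T) P'.L)) B mB))
    (allSel (fun P => an (an (an (Nat.beq P.k 1) (Nat.beq P.q.i q.i))
        (allL (fun a => nearV a p T) P.L))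
      (allSel (fun P' => allL (fun u => orr (Nat.beq u.i q.i)
          (allL (fun a => orr (Nat.beq a.i p.i) (dotV a p u q l)) P.L)) P'.L) B mB)) A mA)

/-- The rule with number `k`. -/
noncomputable def rule1 (d : Dat) (k : ℕ) (A B : List Pc) (mA mB w : ℕ) : Bool :=
  cnd (Nat.beq k 0) (slab d A B mA mB w)
    (cnd (Nat.beq k 1) (band d A B mA mB w)
      (cnd (Nat.beq k 2) (wedge d A B mA mB w) (dbl d A B mA mB w)))

/-- All ones. -/
def ones (n : ℕ) : ℕ := Nat.sub (Nat.shiftLeft 1 n) 1
/-- First mask of a rule. -/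
def mskA (a : Cl) (x : ℕ) : ℕ := fld x 4 (ones a.np)
/-- Second mask of a rule. -/
def mskB (a b : Cl) (x : ℕ) : ℕ := fld x (Nat.add 4 a.np) (ones b.np)

/-- Check of a rule. -/
noncomputable def rule (d : Dat) (a b : Cl) (x : ℕ) : Bool :=
  force (mskA a x) fun mA => force (mskB a b x) fun mB =>
  force (Nat.shiftRight x (Nat.add (Nat.add 4 a.np) b.np)) fun w =>
    cnd (Nat.beq (fld x 2 1) 0) (rule1 d (Nat.land x 3) a.ps b.ps mA mB w)
      (rule1 d (Nat.land x 3) b.ps a.ps mB mA w)

/-- Union of the second masks of the rules that contain piece `i`. -/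
noncomputable def row (a b : Cl) (i : ℕ) (g : List ℕ) : ℕ :=
  List.rec 0 (fun x _ r => cnd (Nat.beq (fld x (Nat.add 4 i) 1) 0) r (Nat.lor (mskB a b x) r)) g

/-- Check of a group of rules. -/
noncomputable def grp (d : Dat) (a b : Cl) (g : List ℕ) : Bool :=
  an (allL (rule d a b) g) (allN (fun i => Nat.beq (row a b i g) (ones b.np)) a.np)

/-- The balls of the clusters are far apart. -/
def ball (d : Dat) (a b : Cl) : Bool :=
  farP a.c b.c 0 (Nat.add (Nat.mul 2 d.D)
    (Nat.mul (Nat.succ (Nat.mul 2 (Nat.add a.rho b.rho))) H1))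

/-- Compare a cluster with the later ones; `T` is the doubled safe distance. -/
noncomputable def scan (d : Dat) (a : Cl) (T xh yh zh : ℕ) (l : List Cl) :
    List (List ℕ) → Bool :=
  List.rec (fun _ => true)
    (fun b _ r rs => cnd (Nat.ble zh b.zl) true
      (cnd (orr (orr (orr (Nat.ble xh b.xl) (Nat.ble (Nat.add b.xh T) a.xl))
          (orr (Nat.ble yh b.yl) (Nat.ble (Nat.add b.yh T) a.yl))) (ball d a b)) (r rs)
        (List.rec false (fun g rs' _ => an (grp d a b g) (r rs')) rs))) l

/-- The next cluster is not lower. -/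
noncomputable def srt (a : Cl) (l : List Cl) : Bool :=
  List.rec true (fun b _ _ => Nat.ble a.zl b.zl) l

/-- Check of all clusters of one colour. -/
noncomputable def chkL (d : Dat) (l : List Cl) : Bool :=
  List.rec true
    (fun a t r => force (Nat.succ (Nat.mul 2 (Nat.add (Nat.add a.rho d.RM) d.Dm))) fun T =>
      force (Nat.add a.xh T) fun xh => force (Nat.add a.yh T) fun yh =>
      force (Nat.add a.zh T) fun zh =>
        an (an (an (chkCl d a) (srt a t)) (scan d a T xh yh zh t a.rs)) r) l

/-- The same from the raw data. -/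
noncomputable def chkC (d : Dat) (l : List (ℕ × List (List ℕ))) : Bool := getCs d l (chkL d)

/-- Sets of numbers are stored above the lowest 64 bits: insert `t`, change the low bits. -/
def setb (x t r : ℕ) : ℕ := Nat.xor (Nat.lor x (Nat.shiftLeft 1 (Nat.add t 64))) r
/-- `t` is not in the set. -/
def notb (x t : ℕ) : Bool := Nat.beq (Nat.land x (Nat.shiftLeft 1 (Nat.add t 64))) 0
/-- The set shifted by `b`. -/
def shb (x b : ℕ) : ℕ := Nat.shiftLeft (Nat.shiftRight x 64) (Nat.add b 64)
/-- Union with a shifted set. -/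
def unb (g x b : ℕ) : ℕ := Nat.xor (Nat.lor g (shb x b)) (Nat.land x 18446744073709551615)

/-- Record the edge from `a` to `b` with relative number `s`. -/
noncomputable def edge (d : Dat) (base a b s l0 l1 : ℕ) (k : ℕ → ℕ → Bool) : Bool :=
  force (Nat.land (ent d.ET 7 127 32 (Nat.add base s)) 4294967295) fun w =>
    cnd (Nat.beq w (Nat.add a (Nat.mul 65536 b)))
      (an (notb l0 s) (force (setb l0 s w) fun l0' => k l0' l1))
      (an (an (Nat.beq w (Nat.add b (Nat.mul 65536 a))) (notb l1 s))
        (force (setb l1 s w) fun l1' => k l0 l1'))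

/-- Record the edges of the path `a :: L ++ [f]`. -/
noncomputable def edges (d : Dat) (base f : ℕ) (k : ℕ → ℕ → Bool) (L : List Vx) :
    ℕ → List ℕ → ℕ → ℕ → Bool :=
  List.rec (fun a sl l0 l1 => List.rec false (fun s _ _ => edge d base a f s l0 l1 k) sl)
    (fun b _ r a sl l0 l1 =>
      List.rec false (fun s sl' _ => edge d base a b.i s l0 l1 fun l0' l1' => r b.i sl' l0' l1') sl)
    L

/-- Record the pieces of a cluster. -/
noncomputable def combP (d : Dat) (base : ℕ) (k : ℕ → ℕ → ℕ → ℕ → ℕ → Bool) (ps : List Pc) :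
    ℕ → ℕ → ℕ → ℕ → ℕ → Bool :=
  List.rec k
    (fun p _ r l0 l1 ao ai pz =>
      cnd (Nat.beq p.k 3)
        (force (setb pz p.hd.i (Nat.land p.hd.i 65535)) fun pz' => r l0 l1 ao ai pz')
        (cnd (Nat.beq p.k 2)
          (force (setb ai p.t (Nat.land p.t 65535)) fun ai' => r l0 l1 ao ai' pz)
          (force (cnd (Nat.beq p.k 1) (setb ao p.t (Nat.land p.t 65535)) ao) fun ao' =>
            List.rec false (fun a t _ =>
              edges d base a.i (fun l0' l1' => r l0' l1' ao' ai pz) t a.i p.sl l0 l1) p.L))) ps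

/-- Record a list of clusters. -/
noncomputable def combC (d : Dat) (k : ℕ → ℕ → ℕ → ℕ → ℕ → Bool)
    (l : List (ℕ × List (List ℕ))) : ℕ → ℕ → ℕ → ℕ → ℕ → Bool :=
  List.rec k
    (fun a _ r g0 g1 ao ai pz => getC false d a.1 a.2 fun c =>
      combP d c.base (fun l0 l1 ao' ai' pz' =>
        an (an (Nat.beq (Nat.land g0 (shb l0 c.base)) 0) (Nat.beq (Nat.land g1 (shb l1 c.base)) 0))
          (force (unb g0 l0 c.base) fun g0' => force (unb g1 l1 c.base) fun g1' =>
            r g0' g1' ao' ai' pz')) c.ps 0 0 ao ai pz) l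

/-- The combinatorial check of all clusters. -/
noncomputable def chkE (d : Dat) (l : List (List (ℕ × List (List ℕ)))) : Bool :=
  List.rec (motive := fun _ => ℕ → ℕ → ℕ → ℕ → ℕ → Bool)
    (fun g0 g1 ao ai pz =>
      an (an (Nat.beq (Nat.shiftRight g0 64) (Nat.shiftRight g1 64))
          (Nat.blt 0 (Nat.shiftRight ao 64)))
        (an (Nat.beq (Nat.land (Nat.shiftRight ao 64) (Nat.shiftRight ai 64)) (Nat.shiftRight ao 64))
          (Nat.beq (Nat.land (Nat.shiftRight pz 64) (ones d.nZ)) (ones d.nZ))))
    (fun a _ r => combC d r a) l 0 0 0 0 0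

end Pool.Agent.MP_d23910_co.S7
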