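import Mathlib
import Pool.Agent.MP_d23910_co.S7.Defs

/-!
Elementary facts on the control structures of the checker and the pure form of the readers.
-/

set_option autoImplicit false

namespace Pool.Agent.MP_d23910_co.S7

@[simp] theorem cnd_true {β : Type} (x y : β) : cnd true x y = x := rfl
@[simp] theorem cnd_false {β : Type} (x y : β) : cnd false x y = y := rfl
theorem cnd_eq {β : Type} (b : Bool) (x y : β) : cnd b x y = if b = true then x else y := by
  cases b <;> rfl
@[simp] theorem an_eq (a b : Bool) : an a b = (a && b) := by cases a <;> rfl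
@[simp] theorem orr_eq (a b : Bool) : orr a b = (a || b) := by cases a <;> cases b <;> rfl
@[simp] theorem nt_eq (a : Bool) : nt a = !a := by cases a <;> rfl
@[simp] theorem force_eq {β : Type} (x : ℕ) (k : ℕ → β) : force x k = k x := by
  cases x <;> rfl
@[simp] theorem fz_eq {β : Type} (b : Bool) (x : ℕ) (k : ℕ → β) : fz b x k = k x := by
  cases b
  · rfl
  · exact force_eq x k

theorem beq_iff (a b : ℕ) : Nat.beq a b = true ↔ a = b := Nat.beq_eq ▸ Iff.rfl
theorem ble_iff (a b : ℕ) : Nat.ble a b = true ↔ a ≤ b := Nat.ble_eq ▸ Iff.rfl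
theorem blt_iff (a b : ℕ) : Nat.blt a b = true ↔ a < b := Nat.blt_eq ▸ Iff.rfl
theorem cnd_beq {β : Type} (a b : ℕ) (x y : β) :
    cnd (Nat.beq a b) x y = if a = b then x else y := by
  rw [cnd_eq]; simp only [beq_iff]
theorem cnd_ble {β : Type} (a b : ℕ) (x y : β) :
    cnd (Nat.ble a b) x y = if a ≤ b then x else y := by
  rw [cnd_eq]; simp only [ble_iff]
theorem cnd_blt {β : Type} (a b : ℕ) (x y : β) :
    cnd (Nat.blt a b) x y = if a < b then x else y := by
  rw [cnd_eq]; simp only [blt_iff]

theorem allL_iff {α : Type} (f : α → Bool) (l : List α) :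
    allL f l = true ↔ ∀ a ∈ l, f a = true := by
  induction l with
  | nil => simp [allL]
  | cons a t ih =>
    have : allL f (a :: t) = an (f a) (allL f t) := rfl
    rw [this]; simp [ih]

theorem allP_iff {α : Type} (f : α → α → Bool) (l : List α) :
    allP f l = true ↔ l.Pairwise (fun a b => f a b = true) := by
  induction l with
  | nil => simp [allP]
  | cons a t ih =>
    have : allP f (a :: t) = an (allL (f a) t) (allP f t) := rfl
    rw [this]; simp [ih, allL_iff]

theorem allN_iff (f : ℕ → Bool) (n : ℕ) : allN f n = true ↔ ∀ i < n, f i = true := by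
  induction n with
  | zero => simp [allN]
  | succ n ih =>
    have : allN f (n + 1) = an (f n) (allN f n) := rfl
    rw [this, an_eq, Bool.and_eq_true, ih]
    constructor
    · rintro ⟨h1, h2⟩ i hi
      rcases Nat.lt_succ_iff_lt_or_eq.1 hi with h | h
      · exact h2 i h
      · exact h ▸ h1
    · exact fun h => ⟨h n (Nat.lt_succ_self n), fun i hi => h i (Nat.lt_succ_of_lt hi)⟩

theorem allSel_spec {α : Type} (f : α → Bool) (l : List α) :
    ∀ m : ℕ, allSel f l m = true → ∀ (i : ℕ) (a : α), l[i]? = some a → m.testBit i = true →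
      f a = true := by
  induction l with
  | nil => intro m _ i a h; simp at h
  | cons b t ih =>
    intro m h i a ha hm
    have e : allSel f (b :: t) m = force (Nat.shiftRight m 1) fun m' =>
      an (orr (Nat.beq (Nat.land m 1) 0) (f b)) (allSel f t m') := rfl
    rw [e, force_eq, an_eq, orr_eq, Bool.and_eq_true, Bool.or_eq_true, beq_iff] at h
    cases i with
    | zero =>
      obtain rfl : b = a := by simpa using ha
      rcases h.1 with h1 | h1
      · have h2 : m &&& 1 = 0 := h1
        rw [Nat.and_one_is_mod] at h2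
        simp [Nat.testBit_zero, h2] at hm
      · exact h1
    | succ i =>
      refine ih _ h.2 i a (by simpa using ha) ?_
      have : Nat.shiftRight m 1 = m >>> 1 := rfl
      rw [this, Nat.testBit_shiftRight, Nat.add_comm]; exact hm

theorem fld_le (w p m : ℕ) : fld w p m ≤ m := Nat.and_le_right

theorem BB_eq : BB = 2 ^ 96 := by norm_num [BB]
theorem H1_eq : H1 = 1 + BB := by norm_num [H1, BB]
theorem H2_eq : H2 = H1 * H1 := by norm_num [H1, H2]
theorem H3_eq : H3 = H1 * H1 * H1 := by norm_num [H1, H3]
theorem HH_eq : HH = 2 ^ 95 * (1 + BB + BB ^ 2 + BB ^ 3) := by norm_num [HH, BB]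

theorem getV_eq {β : Type} (d : Dat) (j : ℕ) (k : Vx → β) : getV d j k = k (vx d j) := by
  simp only [vx, getV, force_eq, id]

theorem vx_i (d : Dat) (j : ℕ) : (vx d j).i = j % d.nV := by
  simp only [vx, getV, force_eq, id]; rfl

theorem vx_mod (d : Dat) (j : ℕ) : vx d (j % d.nV) = vx d j := by
  have : Nat.mod (j % d.nV) d.nV = Nat.mod j d.nV := Nat.mod_mod j d.nV
  simp only [vx, getV, force_eq, id, this]

theorem vx_e_le (d : Dat) (j : ℕ) : (vx d j).e ≤ 65535 := by
  simp only [vx, getV, force_eq, id]; exact fld_le _ _ _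

theorem getW_eq {β : Type} (f : Bool) (d : Dat) (j : ℕ) (k : Vx → β) :
    getW f d j k = k (vx d j) := by
  cases f
  · have e : getW false d j k = force (Nat.mod j d.nV) fun i => k ⟨i, (vx d i).p, (vx d i).e⟩ := rfl
    have e2 : Nat.mod j d.nV = j % d.nV := rfl
    rw [e, force_eq, e2, vx_mod, ← vx_i]
  · exact getV_eq d j k

/-- The piece of kind `k` of an arc. -/
noncomputable def arc (d : Dat) (k j : ℕ) (sl : List ℕ) : Pc := getA true d k j sl id

theorem getA_eq {β : Type} (f : Bool) (d : Dat) (k j : ℕ) (sl : List ℕ) (c : Pc → β) :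
    getA f d k j sl c = c (arc d k j sl) := by
  simp only [arc, getA, force_eq, getW_eq, id]

/-- Vertices and edge numbers of a cell. -/
noncomputable def cel (d : Dat) (n g : ℕ) : List Vx × List ℕ := getL true d n g Prod.mk

theorem getL_eq (d : Dat) (n : ℕ) : ∀ {β : Type} (f : Bool) (g : ℕ) (k : List Vx → List ℕ → β),
    getL f d n g k = k (cel d n g).1 (cel d n g).2 := by
  induction n with
  | zero => intro β f g k; rfl
  | succ n ih =>
    have e : ∀ {β : Type} (f : Bool) (g : ℕ) (k : List Vx → List ℕ → β), getL f d (n + 1) g k =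
        k (vx d (Nat.land g 65535) :: (cel d n (Nat.shiftRight g 28)).1)
          (fld g 16 4095 :: (cel d n (Nat.shiftRight g 28)).2) := by
      intro β f g k
      have e1 : getL f d (n + 1) g k = getW f d (Nat.land g 65535) fun v =>
        force (fld g 16 4095) fun s => force (Nat.shiftRight g 28) fun g' =>
          getL f d n g' fun L sl => k (v :: L) (s :: sl) := rfl
      rw [e1, getW_eq, force_eq, force_eq, ih]
    intro β f g k
    have e2 : cel d (n + 1) g = _ := e true g Prod.mk
    rw [e, e2]

theorem cel_succ (d : Dat) (n g : ℕ) : cel d (n + 1) g =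
    (vx d (Nat.land g 65535) :: (cel d n (Nat.shiftRight g 28)).1,
      fld g 16 4095 :: (cel d n (Nat.shiftRight g 28)).2) := by
  have e1 : cel d (n + 1) g = getW true d (Nat.land g 65535) fun v =>
    force (fld g 16 4095) fun s => force (Nat.shiftRight g 28) fun g' =>
      getL true d n g' fun L sl => (v :: L, s :: sl) := rfl
  rw [e1, getW_eq, force_eq, force_eq, getL_eq]

/-- The first piece of a record. -/
noncomputable def pc1 (d : Dat) (g : ℕ) : Pc :=
  if Nat.land g 3 = 0 then
    ⟨0, (cel d (fld g 2 63) (Nat.shiftRight g 8)).1, v0, false, 0,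
      (cel d (fld g 2 63) (Nat.shiftRight g 8)).2⟩
  else if Nat.land g 3 = 1 then
    arc d 1 (fld g 4 65535) [fld g 20 4095, fld g 32 4095, fld g 44 4095]
  else if Nat.land g 3 = 2 then arc d 2 (fld g 4 65535) []
  else ⟨3, [vx d (fld g 4 65535)], v0, false, 0, []⟩

/-- The rest of the record. -/
def nxt (g : ℕ) : ℕ :=
  if Nat.land g 3 = 0 then Nat.shiftRight g (Nat.add 8 (Nat.mul 28 (fld g 2 63)))
  else if Nat.land g 3 = 1 then Nat.shiftRight g 56 else Nat.shiftRight g 20

/-- The pieces of a record. -/
noncomputable def pcs (d : Dat) : ℕ → ℕ → List Pc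
  | 0, _ => []
  | n + 1, g => pc1 d g :: pcs d n (nxt g)

theorem getP_eq (d : Dat) (n : ℕ) : ∀ {β : Type} (f : Bool) (g : ℕ) (k : List Pc → β),
    getP f d n g k = k (pcs d n g) := by
  induction n with
  | zero => intro β f g k; rfl
  | succ n ih =>
    intro β f g k
    have e1 : getP f d (n + 1) g k = force (Nat.land g 3) fun kd =>
      cnd (Nat.beq kd 0)
        (force (fld g 2 63) fun m => getL f d m (Nat.shiftRight g 8) fun L sl =>
          force (Nat.shiftRight g (Nat.add 8 (Nat.mul 28 m))) fun g' =>
            getP f d n g' fun ps => k (⟨0, L, v0, false, 0, sl⟩ :: ps))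
        (cnd (Nat.beq kd 1)
          (force (fld g 20 4095) fun s1 => force (fld g 32 4095) fun s2 =>
            force (fld g 44 4095) fun s3 => getA f d 1 (fld g 4 65535) [s1, s2, s3] fun p =>
            force (Nat.shiftRight g 56) fun g' => getP f d n g' fun ps => k (p :: ps))
          (cnd (Nat.beq kd 2)
            (getA f d 2 (fld g 4 65535) [] fun p =>
              force (Nat.shiftRight g 20) fun g' => getP f d n g' fun ps => k (p :: ps))
            (getW f d (fld g 4 65535) fun z =>
              force (Nat.shiftRight g 20) fun g' =>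
                getP f d n g' fun ps => k (⟨3, [z], v0, false, 0, []⟩ :: ps)))) := rfl
    rw [e1]
    simp only [force_eq, cnd_beq, getL_eq, getA_eq, getW_eq, ih, pcs, pc1, nxt]
    split_ifs <;> rfl

/-- The cluster of a record. -/
noncomputable def cl (d : Dat) (a : ℕ × List (List ℕ)) : Cl := getC true d a.1 a.2 id

theorem getC_eq {β : Type} (f : Bool) (d : Dat) (a : ℕ × List (List ℕ)) (k : Cl → β) :
    getC f d a.1 a.2 k = k (cl d a) := by
  simp only [cl, getC, force_eq, fz_eq, getW_eq, getP_eq, id]

theorem getCs_eq (d : Dat) (l : List (ℕ × List (List ℕ))) :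
    ∀ {β : Type} (k : List Cl → β), getCs d l k = k (l.map (cl d)) := by
  induction l with
  | nil => intro β k; rfl
  | cons a t ih =>
    intro β k
    have e : getCs d (a :: t) k = getC true d a.1 a.2 fun c => getCs d t fun u => k (c :: u) := rfl
    rw [e, getC_eq, ih]; rfl

end Pool.Agent.MP_d23910_co.S7
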