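import Pool.Agent.MP_d23910_co.S7.Spec

/-! Sets of numbers stored in the bits of a number. -/

set_option autoImplicit false

namespace Pool.Agent.MP_d23910_co.S7

namespace Bit

/-- The set stored in `x`. -/
def S (x : ℕ) : Finset ℕ := (x >>> 64).bitIndices.toFinset

theorem mem_S {x i : ℕ} : i ∈ S x ↔ x.testBit (64 + i) = true := by
  rw [S, List.mem_toFinset, Nat.mem_bitIndices, Nat.testBit_shiftRight]

theorem bsum_eq (ψ : ℕ → ℤ) (b x : ℕ) : bsum ψ b x = ∑ t ∈ S x, ψ (b + t) :=
  (List.sum_toFinset _ Nat.bitIndices_nodup).symm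

theorem low {r : ℕ} (h : r < 2 ^ 64) (i : ℕ) : r.testBit (64 + i) = false :=
  Nat.testBit_lt_two_pow (h.trans_le (Nat.pow_le_pow_right two_pos (Nat.le_add_right _ _)))

theorem one_bit (t i : ℕ) : (1 <<< (t + 64)).testBit (64 + i) = decide (i = t) := by
  rw [Nat.one_shiftLeft, Nat.testBit_two_pow, decide_eq_decide]
  omega

theorem setb_bit (x t i : ℕ) {r : ℕ} (h : r < 2 ^ 64) :
    (setb x t r).testBit (64 + i) = (x.testBit (64 + i) || decide (i = t)) := by
  change ((x ||| 1 <<< (t + 64)) ^^^ r).testBit (64 + i) = _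
  rw [Nat.testBit_xor, Nat.testBit_or, low h, one_bit, Bool.xor_false]

theorem shb_bit (x b i : ℕ) :
    (shb x b).testBit (64 + i) = true ↔ i ∈ (S x).image fun t => b + t := by
  change ((x >>> 64) <<< (b + 64)).testBit (64 + i) = true ↔ _
  rw [Nat.testBit_shiftLeft, Nat.testBit_shiftRight, Bool.and_eq_true, decide_eq_true_eq,
    Finset.mem_image]
  refine ⟨fun h => ⟨_, mem_S.2 h.2, by omega⟩, ?_⟩
  rintro ⟨t, ht, rfl⟩
  exact ⟨by omega, by rw [show 64 + (b + t) - (b + 64) = t by omega]; exact mem_S.1 ht⟩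

theorem unb_bit (g x b i : ℕ) :
    (unb g x b).testBit (64 + i) = (g.testBit (64 + i) || (shb x b).testBit (64 + i)) := by
  change ((g ||| shb x b) ^^^ (x &&& 18446744073709551615)).testBit (64 + i) = _
  rw [Nat.testBit_xor, Nat.testBit_or, low (Nat.and_le_right.trans_lt (by norm_num)),
    Bool.xor_false]

theorem not_both {x y : ℕ} (h : Nat.land x y = 0) (i : ℕ) (a : x.testBit i = true)
    (b : y.testBit i = true) : False := by
  have : (x &&& y).testBit i = true := by rw [Nat.testBit_and, a, b]; rfl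
  rw [show x &&& y = 0 from h, Nat.zero_testBit] at this
  exact Bool.false_ne_true this

end Bit

open Bit in
theorem bits : BitS := by
  refine ⟨fun x t r i h => ?_, fun ψ b x t r h hn => ?_, fun ψ g x b h => ?_, fun ψ b => ?_⟩
  · rw [Nat.testBit_shiftRight, Nat.testBit_shiftRight, setb_bit x t i h]
  · have e : S (setb x t r) = insert t (S x) := Finset.ext fun i => by
      rw [Finset.mem_insert, mem_S, mem_S, setb_bit x t i h, Bool.or_eq_true, decide_eq_true_eq,
        or_comm]
    have n : t ∉ S x := fun a => not_both ((beq_iff _ _).1 hn) (64 + t) (mem_S.1 a)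
      ((one_bit t t).trans (decide_eq_true rfl))
    rw [bsum_eq, bsum_eq, e, Finset.sum_insert n, add_comm]
  · have e : S (unb g x b) = S g ∪ (S x).image fun t => b + t := Finset.ext fun i => by
      rw [Finset.mem_union, mem_S, mem_S, unb_bit, Bool.or_eq_true, shb_bit]
    have n : Disjoint (S g) ((S x).image fun t => b + t) := Finset.disjoint_left.2 fun i a c =>
      not_both h (64 + i) (mem_S.1 a) ((shb_bit x b i).2 c)
    rw [bsum_eq, bsum_eq, bsum_eq, e, Finset.sum_union n,
      Finset.sum_image fun _ _ _ _ u => Nat.add_left_cancel u]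
    simp only [Nat.zero_add]
  · simp [bsum]

end Pool.Agent.MP_d23910_co.S7
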