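import Pool.Agent.MP_d23910_co.S7.Spec

/-! Clusters with far centres are separated. -/

set_option autoImplicit false

namespace Pool.Agent.MP_d23910_co.S7

open scoped RealInnerProductSpace

namespace CenA

theorem scale (x C : E) : ‖(8388608 : ℝ) • x - C‖ = 8388608 * ‖x - (8388608 : ℝ)⁻¹ • C‖ := by
  have e : (8388608 : ℝ) • x - C = (8388608 : ℝ) • (x - (8388608 : ℝ)⁻¹ • C) := by
    rw [smul_sub, smul_inv_smul₀ (by norm_num)]
  rw [e, norm_smul, Real.norm_of_nonneg (by norm_num)]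

theorem inb (h4 : BallS) {d : Dat} {s : ℝ} {V : ℕ → E} {c : Cl} (hW : Wd d s V) (hc : ClG d V c)
    (hi : InB s V c) (hr : c.rho ≤ d.RM) {p : Pc} (hp : p ∈ c.ps) {x : E} (hx : p.mem d s V x) :
    ‖(8388608 : ℝ) • x - (c.c.v s - (2 : ℝ) • org.v s)‖ ≤ 2 * c.rho := by
  have r1 : (c.rho : ℝ) ≤ 4194304 := by exact_mod_cast hr.trans hW.2.2.1.2.2.2.2.2.2.2.2
  have := h4 (p.pts V) ((8388608 : ℝ)⁻¹ • (c.c.v s - (2 : ℝ) • org.v s)) x (c.rho / 4194304)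
    (by
      rintro _ ⟨v, hv, rfl⟩
      exact (hW.2.2.2.1 v ((hc.1 p hp).1 v hv)).1)
    (by
      rintro _ ⟨v, hv, rfl⟩
      have := hi p hp v hv
      rw [scale] at this
      linarith) (by linarith) hx.1 hx.2.1
  rw [scale]
  linarith

theorem coord (a b : E) (i : Fin 3) : |a i - b i| ≤ ‖a - b‖ := by
  simpa using PiLp.norm_apply_le (a - b) i

end CenA

open CenA in
theorem cen (h1 : LinS) (h2 : FarS) (h3 : ParS) (h4 : BallS) : CenS := by
  intro d s V a b hW ha hb ia ib ra rb h p hp p' hp' x y hx hy hc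
  have s0 := hW.1
  have s1 := hW.2.1
  obtain ⟨d1, d2, d3, -, -, -, -, -, -, d4⟩ := h3 d s s0 s1 hW.2.2.1
  have e0 := (d4 x y hx.1 hy.1).2.2.1 hc
  have e1 := inb h4 hW ha ia ra hp hx
  have e2 := inb h4 hW hb ib rb hp' hy
  have e3 : ‖a.c.v s - b.c.v s‖ ≤ 2 * a.rho + 2 * b.rho + 8388608 * d.dd s := by
    have e : a.c.v s - b.c.v s = ((8388608 : ℝ) • y - (b.c.v s - (2 : ℝ) • org.v s)) -
        ((8388608 : ℝ) • x - (a.c.v s - (2 : ℝ) • org.v s)) + (8388608 : ℝ) • (x - y) := by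
      rw [smul_sub]
      abel
    rw [e]
    refine (norm_add_le _ _).trans ?_
    have := norm_sub_le ((8388608 : ℝ) • y - (b.c.v s - (2 : ℝ) • org.v s))
      ((8388608 : ℝ) • x - (a.c.v s - (2 : ℝ) • org.v s))
    rw [norm_smul, Real.norm_of_nonneg (by norm_num), e0]
    linarith
  obtain ⟨-, -, oa, ta, a1, a2, a3, a4, -, a6⟩ := ha
  obtain ⟨-, -, ob, tb, b1, b2, b3, b4, b5, -⟩ := hb
  have hl := fun X => h1.2.2.2.2.2.1 s X s0 s1.le
  have r1 : (b.rho : ℝ) ≤ d.RM := by exact_mod_cast rb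
  have c0 : |val s a.c.X - val s b.c.X| ≤ _ := coord (a.c.v s) (b.c.v s) 0
  have c1 : |val s a.c.Y - val s b.c.Y| ≤ _ := coord (a.c.v s) (b.c.v s) 1
  have c2 : |val s a.c.Z - val s b.c.Z| ≤ _ := coord (a.c.v s) (b.c.v s) 2
  have key : ∀ X Y : ℕ, hi2 X + (2 * (a.rho + d.RM + d.Dm) + 1) ≤ lo2 Y →
      ¬ val s Y - val s X ≤ ‖a.c.v s - b.c.v s‖ := fun X Y hh h' => by
    have h5 : (hi2 X : ℝ) + (2 * (a.rho + d.RM + d.Dm) + 1) ≤ lo2 Y := by exact_mod_cast hh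
    linarith [(hl X).2, (hl Y).1]
  rw [abs_sub_le_iff] at c0 c1 c2
  rcases h with h | h | h | h | h | h
  · have m : ∀ {c : P3}, c.Ok (2 ^ 26) → c.Ok (2 ^ 27) := fun h =>
      ⟨h.1, le_trans h.2.1 (by norm_num), le_trans h.2.2.1 (by norm_num),
        le_trans h.2.2.2 (by norm_num)⟩
    obtain ⟨u1, u2⟩ := h1.2.2.2.1 s 2 _ _ d2 (by unfold BB; omega)
    obtain ⟨v1, v2⟩ := h1.2.2.2.2.1 s (2 * (a.rho + b.rho) + 1) (by unfold BB; omega)
    obtain ⟨w1, w2⟩ := h1.2.2.1 s _ _ _ _ u2 v2 (by unfold BB; omega)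
    have := h2 s a.c b.c 0 _ s0 s1 (m oa) (m ob) (by norm_num) (le_trans w2 (by omega)) h
    rw [w1, u1, v1, d1] at this
    push_cast at this
    linarith
  · exact key _ _ (by rwa [← a2, ← b1]) c0.2
  · exact key _ _ (by rwa [← b2, ← a1]) c0.1
  · exact key _ _ (by rwa [← a4, ← b3]) c1.2
  · exact key _ _ (by rwa [← b4, ← a3]) c1.1
  · exact key _ _ (by rwa [← a6, ← b5]) c2.2

end Pool.Agent.MP_d23910_co.S7
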