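import Pool.Agent.MP_d23910_co.S7.Sound
import Pool.Agent.MP_d23910_co.S7.D.M00
import Pool.Agent.MP_d23910_co.S7.D.M01
import Pool.Agent.MP_d23910_co.S7.D.M02
import Pool.Agent.MP_d23910_co.S7.D.M03
import Pool.Agent.MP_d23910_co.S7.D.M04
import Pool.Agent.MP_d23910_co.S7.D.M05
import Pool.Agent.MP_d23910_co.S7.D.M06
import Pool.Agent.MP_d23910_co.S7.D.M07
import Pool.Agent.MP_d23910_co.S7.D.M08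
import Pool.Agent.MP_d23910_co.S7.D.M09
import Pool.Agent.MP_d23910_co.S7.D.M10
import Pool.Agent.MP_d23910_co.S7.D.M11
import Pool.Agent.MP_d23910_co.S7.D.M12
import Pool.Agent.MP_d23910_co.S7.D.M13
import Pool.Agent.MP_d23910_co.S7.D.M14
import Pool.Agent.MP_d23910_co.S7.D.M15
import Pool.Agent.MP_d23910_co.S7.D.M16
import Pool.Agent.MP_d23910_co.S7.D.M17
import Pool.Agent.MP_d23910_co.S7.D.M18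
import Pool.Agent.MP_d23910_co.S7.D.M19
import Pool.Agent.MP_d23910_co.S7.D.M20
import Pool.Agent.MP_d23910_co.S7.D.M21
import Pool.Agent.MP_d23910_co.S7.D.M22
import Pool.Agent.MP_d23910_co.S7.D.M23
import Pool.Agent.MP_d23910_co.S7.D.M24
import Pool.Agent.MP_d23910_co.S7.D.M25
import Pool.Agent.MP_d23910_co.S7.D.M26
import Pool.Agent.MP_d23910_co.S7.D.Vx0
import Pool.Agent.MP_d23910_co.S7.D.Vx0a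
import Pool.Agent.MP_d23910_co.S7.D.Vx1
import Pool.Agent.MP_d23910_co.S7.D.Vx1a
import Pool.Agent.MP_d23910_co.S7.D.Wx0
import Pool.Agent.MP_d23910_co.S7.D.Wx0a
import Pool.Agent.MP_d23910_co.S7.D.Wx1
import Pool.Agent.MP_d23910_co.S7.D.Wx1a
import Pool.Agent.MP_d23910_co.S7.D.Wx2
import Pool.Agent.MP_d23910_co.S7.D.Wx2a
import Pool.Agent.MP_d23910_co.S7.D.Xx0
import Pool.Agent.MP_d23910_co.S7.D.Xx0a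
import Pool.Agent.MP_d23910_co.S7.D.Xx0b
import Pool.Agent.MP_d23910_co.S7.D.Xx1
import Pool.Agent.MP_d23910_co.S7.D.Xx1a
import Pool.Agent.MP_d23910_co.S7.D.Xx1b
import Pool.Agent.MP_d23910_co.S7.D.Xx2
import Pool.Agent.MP_d23910_co.S7.D.Xx2a
import Pool.Agent.MP_d23910_co.S7.D.Xx2b
import Pool.Agent.MP_d23910_co.S7.D.Yx0
import Pool.Agent.MP_d23910_co.S7.D.Yx0a
import Pool.Agent.MP_d23910_co.S7.D.Yx0b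
import Pool.Agent.MP_d23910_co.S7.D.Yx0c

/-! The chain of certificates. -/

set_option autoImplicit false

namespace Pool.Agent.MP_d23910_co.S7

theorem rAx0 : Rng 4848907 4685000 :=
  rng Ax0.dat _ _ _ _ _ _ _ Ax0.hv Ax0.h0 Ax0.h1 Ax0.h2 Ax0.h3 Ax0.h4 Ax0.h5 Ax0.h6 Ax0.he
theorem rAx1 : Rng 4685001 4526634 :=
  rng Ax1.dat _ _ _ _ _ _ _ Ax1.hv Ax1.h0 Ax1.h1 Ax1.h2 Ax1.h3 Ax1.h4 Ax1.h5 Ax1.h6 Ax1.he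
theorem rAx2 : Rng 4526635 4373622 :=
  rng Ax2.dat _ _ _ _ _ _ _ Ax2.hv Ax2.h0 Ax2.h1 Ax2.h2 Ax2.h3 Ax2.h4 Ax2.h5 Ax2.h6 Ax2.he
theorem rABx0 : Rng 4373623 4301850 :=
  rng ABx0.dat _ _ _ _ _ _ _ ABx0.hv ABx0.h0 ABx0.h1 ABx0.h2 ABx0.h3 ABx0.h4 ABx0.h5 ABx0.h6 ABx0.he
theorem rCx0 : Rng 4301851 4201796 :=
  rng Cx0.dat _ _ _ _ _ _ _ Cx0.hv Cx0.h0 Cx0.h1 Cx0.h2 Cx0.h3 Cx0.h4 Cx0.h5 Cx0.h6 Cx0.he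
theorem rCx1 : Rng 4201797 4072002 :=
  rng Cx1.dat _ _ _ _ _ _ _ Cx1.hv Cx1.h0 Cx1.h1 Cx1.h2 Cx1.h3 Cx1.h4 Cx1.h5 Cx1.h6 Cx1.he
theorem rCx2 : Rng 4072003 3915382 :=
  rng Cx2.dat _ _ _ _ _ _ _ Cx2.hv Cx2.h0 Cx2.h1 Cx2.h2 Cx2.h3 Cx2.h4 Cx2.h5 Cx2.h6 Cx2.he
theorem rCx3 : Rng 3915383 3691675 :=
  rng Cx3.dat _ _ _ _ _ _ _ Cx3.hv Cx3.h0 Cx3.h1 Cx3.h2 Cx3.h3 Cx3.h4 Cx3.h5 Cx3.h6 Cx3.he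
theorem rCx4 : Rng 3691676 3480750 :=
  rng Cx4.dat _ _ _ _ _ _ _ Cx4.hv Cx4.h0 Cx4.h1 Cx4.h2 Cx4.h3 Cx4.h4 Cx4.h5 Cx4.h6 Cx4.he
theorem rDx0 : Rng 3480751 3423921 :=
  rng Dx0.dat _ _ _ _ _ _ _ Dx0.hv Dx0.h0 Dx0.h1 Dx0.h2 Dx0.h3 Dx0.h4 Dx0.h5 Dx0.h6 Dx0.he
theorem rEx0 : Rng 3423922 3251398 :=
  rng Ex0.dat _ _ _ _ _ _ _ Ex0.hv Ex0.h0 Ex0.h1 Ex0.h2 Ex0.h3 Ex0.h4 Ex0.h5 Ex0.h6 Ex0.he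
theorem rFx0 : Rng 3251399 2974683 :=
  rng Fx0.dat _ _ _ _ _ _ _ Fx0.hv Fx0.h0 Fx0.h1 Fx0.h2 Fx0.h3 Fx0.h4 Fx0.h5 Fx0.h6 Fx0.he
theorem rGx0 : Rng 2974684 2792481 :=
  rng Gx0.dat _ _ _ _ _ _ _ Gx0.hv Gx0.h0 Gx0.h1 Gx0.h2 Gx0.h3 Gx0.h4 Gx0.h5 Gx0.h6 Gx0.he
theorem rGx1 : Rng 2792482 2621440 :=
  rng Gx1.dat _ _ _ _ _ _ _ Gx1.hv Gx1.h0 Gx1.h1 Gx1.h2 Gx1.h3 Gx1.h4 Gx1.h5 Gx1.h6 Gx1.he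
theorem rHx0 : Rng 2621440 2529918 :=
  rng Hx0.dat _ _ _ _ _ _ _ Hx0.hv Hx0.h0 Hx0.h1 Hx0.h2 Hx0.h3 Hx0.h4 Hx0.h5 Hx0.h6 Hx0.he
theorem rHx1 : Rng 2529919 2441592 :=
  rng Hx1.dat _ _ _ _ _ _ _ Hx1.hv Hx1.h0 Hx1.h1 Hx1.h2 Hx1.h3 Hx1.h4 Hx1.h5 Hx1.h6 Hx1.he
theorem rHx2 : Rng 2441593 2356350 :=
  rng Hx2.dat _ _ _ _ _ _ _ Hx2.hv Hx2.h0 Hx2.h1 Hx2.h2 Hx2.h3 Hx2.h4 Hx2.h5 Hx2.h6 Hx2.he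
theorem rIx0 : Rng 2356351 2329494 :=
  rng Ix0.dat _ _ _ _ _ _ _ Ix0.hv Ix0.h0 Ix0.h1 Ix0.h2 Ix0.h3 Ix0.h4 Ix0.h5 Ix0.h6 Ix0.he
theorem rIx1 : Rng 2329495 2308229 :=
  rng Ix1.dat _ _ _ _ _ _ _ Ix1.hv Ix1.h0 Ix1.h1 Ix1.h2 Ix1.h3 Ix1.h4 Ix1.h5 Ix1.h6 Ix1.he
theorem rIx2 : Rng 2308230 2280178 :=
  rng Ix2.dat _ _ _ _ _ _ _ Ix2.hv Ix2.h0 Ix2.h1 Ix2.h2 Ix2.h3 Ix2.h4 Ix2.h5 Ix2.h6 Ix2.he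
theorem rIx3 : Rng 2280179 2252468 :=
  rng Ix3.dat _ _ _ _ _ _ _ Ix3.hv Ix3.h0 Ix3.h1 Ix3.h2 Ix3.h3 Ix3.h4 Ix3.h5 Ix3.h6 Ix3.he
theorem rIx4 : Rng 2252469 2238739 :=
  rng Ix4.dat _ _ _ _ _ _ _ Ix4.hv Ix4.h0 Ix4.h1 Ix4.h2 Ix4.h3 Ix4.h4 Ix4.h5 Ix4.h6 Ix4.he
theorem rIx5 : Rng 2238740 2225094 :=
  rng Ix5.dat _ _ _ _ _ _ _ Ix5.hv Ix5.h0 Ix5.h1 Ix5.h2 Ix5.h3 Ix5.h4 Ix5.h5 Ix5.h6 Ix5.he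
theorem rJx0 : Rng 2225095 2184896 :=
  rng Jx0.dat _ _ _ _ _ _ _ Jx0.hv Jx0.h0 Jx0.h1 Jx0.h2 Jx0.h3 Jx0.h4 Jx0.h5 Jx0.h6 Jx0.he
theorem rJx1 : Rng 2184897 2145424 :=
  rng Jx1.dat _ _ _ _ _ _ _ Jx1.hv Jx1.h0 Jx1.h1 Jx1.h2 Jx1.h3 Jx1.h4 Jx1.h5 Jx1.h6 Jx1.he
theorem rKx0 : Rng 2145425 2075283 :=
  rng Kx0.dat _ _ _ _ _ _ _ Kx0.hv Kx0.h0 Kx0.h1 Kx0.h2 Kx0.h3 Kx0.h4 Kx0.h5 Kx0.h6 Kx0.he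
theorem rKx1 : Rng 2075284 2007436 :=
  rng Kx1.dat _ _ _ _ _ _ _ Kx1.hv Kx1.h0 Kx1.h1 Kx1.h2 Kx1.h3 Kx1.h4 Kx1.h5 Kx1.h6 Kx1.he
theorem rKx2 : Rng 2007437 1974349 :=
  rng Kx2.dat _ _ _ _ _ _ _ Kx2.hv Kx2.h0 Kx2.h1 Kx2.h2 Kx2.h3 Kx2.h4 Kx2.h5 Kx2.h6 Kx2.he
theorem rKx3 : Rng 1974350 1941807 :=
  rng Kx3.dat _ _ _ _ _ _ _ Kx3.hv Kx3.h0 Kx3.h1 Kx3.h2 Kx3.h3 Kx3.h4 Kx3.h5 Kx3.h6 Kx3.he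
theorem rLx0 : Rng 1941808 1901580 :=
  rng Lx0.dat _ _ _ _ _ _ _ Lx0.hv Lx0.h0 Lx0.h1 Lx0.h2 Lx0.h3 Lx0.h4 Lx0.h5 Lx0.h6 Lx0.he
theorem rLx1 : Rng 1901581 1862187 :=
  rng Lx1.dat _ _ _ _ _ _ _ Lx1.hv Lx1.h0 Lx1.h1 Lx1.h2 Lx1.h3 Lx1.h4 Lx1.h5 Lx1.h6 Lx1.he
theorem rLx2 : Rng 1862188 1823610 :=
  rng Lx2.dat _ _ _ _ _ _ _ Lx2.hv Lx2.h0 Lx2.h1 Lx2.h2 Lx2.h3 Lx2.h4 Lx2.h5 Lx2.h6 Lx2.he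
theorem rMx0 : Rng 1823611 1759735 :=
  rng Mx0.dat _ _ _ _ _ _ _ Mx0.hv Mx0.h0 Mx0.h1 Mx0.h2 Mx0.h3 Mx0.h4 Mx0.h5 Mx0.h6 Mx0.he
theorem rMx1 : Rng 1759736 1698098 :=
  rng Mx1.dat _ _ _ _ _ _ _ Mx1.hv Mx1.h0 Mx1.h1 Mx1.h2 Mx1.h3 Mx1.h4 Mx1.h5 Mx1.h6 Mx1.he
theorem rNx0 : Rng 1698099 1666895 :=
  rng Nx0.dat _ _ _ _ _ _ _ Nx0.hv Nx0.h0 Nx0.h1 Nx0.h2 Nx0.h3 Nx0.h4 Nx0.h5 Nx0.h6 Nx0.he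
theorem rNx1 : Rng 1666896 1626182 :=
  rng Nx1.dat _ _ _ _ _ _ _ Nx1.hv Nx1.h0 Nx1.h1 Nx1.h2 Nx1.h3 Nx1.h4 Nx1.h5 Nx1.h6 Nx1.he
theorem rNx2 : Rng 1626183 1586462 :=
  rng Nx2.dat _ _ _ _ _ _ _ Nx2.hv Nx2.h0 Nx2.h1 Nx2.h2 Nx2.h3 Nx2.h4 Nx2.h5 Nx2.h6 Nx2.he
theorem rNx3 : Rng 1586463 1547713 :=
  rng Nx3.dat _ _ _ _ _ _ _ Nx3.hv Nx3.h0 Nx3.h1 Nx3.h2 Nx3.h3 Nx3.h4 Nx3.h5 Nx3.h6 Nx3.he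
theorem rOx0 : Rng 1547714 1534659 :=
  rng Ox0.dat _ _ _ _ _ _ _ Ox0.hv Ox0.h0 Ox0.h1 Ox0.h2 Ox0.h3 Ox0.h4 Ox0.h5 Ox0.h6 Ox0.he
theorem rOx1 : Rng 1534660 1516568 :=
  rng Ox1.dat _ _ _ _ _ _ _ Ox1.hv Ox1.h0 Ox1.h1 Ox1.h2 Ox1.h3 Ox1.h4 Ox1.h5 Ox1.h6 Ox1.he
theorem rOx2 : Rng 1516569 1492778 :=
  rng Ox2.dat _ _ _ _ _ _ _ Ox2.hv Ox2.h0 Ox2.h1 Ox2.h2 Ox2.h3 Ox2.h4 Ox2.h5 Ox2.h6 Ox2.he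
theorem rOx3 : Rng 1492779 1469361 :=
  rng Ox3.dat _ _ _ _ _ _ _ Ox3.hv Ox3.h0 Ox3.h1 Ox3.h2 Ox3.h3 Ox3.h4 Ox3.h5 Ox3.h6 Ox3.he
theorem rOx4 : Rng 1469362 1446311 :=
  rng Ox4.dat _ _ _ _ _ _ _ Ox4.hv Ox4.h0 Ox4.h1 Ox4.h2 Ox4.h3 Ox4.h4 Ox4.h5 Ox4.h6 Ox4.he
theorem rBx0 : Rng 1446312 1405504 :=
  rng Bx0.dat _ _ _ _ _ _ _ Bx0.hv Bx0.h0 Bx0.h1 Bx0.h2 Bx0.h3 Bx0.h4 Bx0.h5 Bx0.h6 Bx0.he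
theorem rBx1 : Rng 1405505 1365848 :=
  rng Bx1.dat _ _ _ _ _ _ _ Bx1.hv Bx1.h0 Bx1.h1 Bx1.h2 Bx1.h3 Bx1.h4 Bx1.h5 Bx1.h6 Bx1.he
theorem rBx2 : Rng 1365849 1327311 :=
  rng Bx2.dat _ _ _ _ _ _ _ Bx2.hv Bx2.h0 Bx2.h1 Bx2.h2 Bx2.h3 Bx2.h4 Bx2.h5 Bx2.h6 Bx2.he
theorem rPx0 : Rng 1327312 1290084 :=
  rng Px0.dat _ _ _ _ _ _ _ Px0.hv Px0.h0 Px0.h1 Px0.h2 Px0.h3 Px0.h4 Px0.h5 Px0.h6 Px0.he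
theorem rPx1 : Rng 1290085 1253902 :=
  rng Px1.dat _ _ _ _ _ _ _ Px1.hv Px1.h0 Px1.h1 Px1.h2 Px1.h3 Px1.h4 Px1.h5 Px1.h6 Px1.he
theorem rZx0 : Rng 1253903 1238192 :=
  rng Zx0.dat _ _ _ _ _ _ _ Zx0.hv Zx0.h0 Zx0.h1 Zx0.h2 Zx0.h3 Zx0.h4 Zx0.h5 Zx0.h6 Zx0.he
theorem rZx1 : Rng 1238193 1216527 :=
  rng Zx1.dat _ _ _ _ _ _ _ Zx1.hv Zx1.h0 Zx1.h1 Zx1.h2 Zx1.h3 Zx1.h4 Zx1.h5 Zx1.h6 Zx1.he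
theorem rZx2 : Rng 1216528 1188230 :=
  rng Zx2.dat _ _ _ _ _ _ _ Zx2.hv Zx2.h0 Zx2.h1 Zx2.h2 Zx2.h3 Zx2.h4 Zx2.h5 Zx2.h6 Zx2.he
theorem rZx3 : Rng 1188231 1160591 :=
  rng Zx3.dat _ _ _ _ _ _ _ Zx3.hv Zx3.h0 Zx3.h1 Zx3.h2 Zx3.h3 Zx3.h4 Zx3.h5 Zx3.h6 Zx3.he
theorem rZx4 : Rng 1160592 1133595 :=
  rng Zx4.dat _ _ _ _ _ _ _ Zx4.hv Zx4.h0 Zx4.h1 Zx4.h2 Zx4.h3 Zx4.h4 Zx4.h5 Zx4.h6 Zx4.he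
theorem rQx0 : Rng 1133596 993910 :=
  rng Qx0.dat _ _ _ _ _ _ _ Qx0.hv Qx0.h0 Qx0.h1 Qx0.h2 Qx0.h3 Qx0.h4 Qx0.h5 Qx0.h6 Qx0.he
theorem rQAx0 : Rng 993911 983860 :=
  rng QAx0.dat _ _ _ _ _ _ _ QAx0.hv QAx0.h0 QAx0.h1 QAx0.h2 QAx0.h3 QAx0.h4 QAx0.h5 QAx0.h6 QAx0.he
theorem rQAx1 : Rng 983861 970616 :=
  rng QAx1.dat _ _ _ _ _ _ _ QAx1.hv QAx1.h0 QAx1.h1 QAx1.h2 QAx1.h3 QAx1.h4 QAx1.h5 QAx1.h6 QAx1.he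
theorem rQAx2 : Rng 970617 961887 :=
  rng QAx2.dat _ _ _ _ _ _ _ QAx2.hv QAx2.h0 QAx2.h1 QAx2.h2 QAx2.h3 QAx2.h4 QAx2.h5 QAx2.h6 QAx2.he
theorem rQAx3 : Rng 961888 953236 :=
  rng QAx3.dat _ _ _ _ _ _ _ QAx3.hv QAx3.h0 QAx3.h1 QAx3.h2 QAx3.h3 QAx3.h4 QAx3.h5 QAx3.h6 QAx3.he
theorem rQAx4 : Rng 953237 944663 :=
  rng QAx4.dat _ _ _ _ _ _ _ QAx4.hv QAx4.h0 QAx4.h1 QAx4.h2 QAx4.h3 QAx4.h4 QAx4.h5 QAx4.h6 QAx4.he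
theorem rRx0 : Rng 944664 879697 :=
  rng Rx0.dat _ _ _ _ _ _ _ Rx0.hv Rx0.h0 Rx0.h1 Rx0.h2 Rx0.h3 Rx0.h4 Rx0.h5 Rx0.h6 Rx0.he
theorem rRx1 : Rng 879698 819200 :=
  rng Rx1.dat _ _ _ _ _ _ _ Rx1.hv Rx1.h0 Rx1.h1 Rx1.h2 Rx1.h3 Rx1.h4 Rx1.h5 Rx1.h6 Rx1.he
theorem rSx0 : Rng 819200 785845 :=
  rng Sx0.dat _ _ _ _ _ _ _ Sx0.hv Sx0.h0 Sx0.h1 Sx0.h2 Sx0.h3 Sx0.h4 Sx0.h5 Sx0.h6 Sx0.he
theorem rSx1 : Rng 785846 753849 :=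
  rng Sx1.dat _ _ _ _ _ _ _ Sx1.hv Sx1.h0 Sx1.h1 Sx1.h2 Sx1.h3 Sx1.h4 Sx1.h5 Sx1.h6 Sx1.he
theorem rSx2 : Rng 753850 723155 :=
  rng Sx2.dat _ _ _ _ _ _ _ Sx2.hv Sx2.h0 Sx2.h1 Sx2.h2 Sx2.h3 Sx2.h4 Sx2.h5 Sx2.h6 Sx2.he
theorem rTx0 : Rng 723156 694428 :=
  rng Tx0.dat _ _ _ _ _ _ _ Tx0.hv Tx0.h0 Tx0.h1 Tx0.h2 Tx0.h3 Tx0.h4 Tx0.h5 Tx0.h6 Tx0.he
theorem rTx1 : Rng 694429 666842 :=
  rng Tx1.dat _ _ _ _ _ _ _ Tx1.hv Tx1.h0 Tx1.h1 Tx1.h2 Tx1.h3 Tx1.h4 Tx1.h5 Tx1.h6 Tx1.he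
theorem rTx2 : Rng 666843 640351 :=
  rng Tx2.dat _ _ _ _ _ _ _ Tx2.hv Tx2.h0 Tx2.h1 Tx2.h2 Tx2.h3 Tx2.h4 Tx2.h5 Tx2.h6 Tx2.he
theorem rUx0 : Rng 640352 584930 :=
  rng Ux0.dat _ _ _ _ _ _ _ Ux0.hv Ux0.h0 Ux0.h1 Ux0.h2 Ux0.h3 Ux0.h4 Ux0.h5 Ux0.h6 Ux0.he
theorem rUx1 : Rng 584931 534306 :=
  rng Ux1.dat _ _ _ _ _ _ _ Ux1.hv Ux1.h0 Ux1.h1 Ux1.h2 Ux1.h3 Ux1.h4 Ux1.h5 Ux1.h6 Ux1.he
theorem rVx0 : Rng 534307 522779 :=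
  rng Vx0.dat _ _ _ _ _ _ _ Vx0.hv Vx0.h0 Vx0.h1 Vx0.h2 Vx0.h3 Vx0.h4 Vx0.h5 Vx0.h6 Vx0.he
theorem rVx1 : Rng 522780 511500 :=
  rng Vx1.dat _ _ _ _ _ _ _ Vx1.hv Vx1.h0 Vx1.h1 Vx1.h2 Vx1.h3 Vx1.h4 Vx1.h5 Vx1.h6 Vx1.he
theorem rWx0 : Rng 511501 485318 :=
  rng Wx0.dat _ _ _ _ _ _ _ Wx0.hv Wx0.h0 Wx0.h1 Wx0.h2 Wx0.h3 Wx0.h4 Wx0.h5 Wx0.h6 Wx0.he
theorem rWx1 : Rng 485319 460476 :=
  rng Wx1.dat _ _ _ _ _ _ _ Wx1.hv Wx1.h0 Wx1.h1 Wx1.h2 Wx1.h3 Wx1.h4 Wx1.h5 Wx1.h6 Wx1.he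
theorem rWx2 : Rng 460477 436906 :=
  rng Wx2.dat _ _ _ _ _ _ _ Wx2.hv Wx2.h0 Wx2.h1 Wx2.h2 Wx2.h3 Wx2.h4 Wx2.h5 Wx2.h6 Wx2.he
theorem rXx0 : Rng 436907 409609 :=
  rng Xx0.dat _ _ _ _ _ _ _ Xx0.hv Xx0.h0 Xx0.h1 Xx0.h2 Xx0.h3 Xx0.h4 Xx0.h5 Xx0.h6 Xx0.he
theorem rXx1 : Rng 409610 384018 :=
  rng Xx1.dat _ _ _ _ _ _ _ Xx1.hv Xx1.h0 Xx1.h1 Xx1.h2 Xx1.h3 Xx1.h4 Xx1.h5 Xx1.h6 Xx1.he
theorem rXx2 : Rng 384019 360026 :=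
  rng Xx2.dat _ _ _ _ _ _ _ Xx2.hv Xx2.h0 Xx2.h1 Xx2.h2 Xx2.h3 Xx2.h4 Xx2.h5 Xx2.h6 Xx2.he
theorem rYx0 : Rng 360027 336891 :=
  rng Yx0.dat _ _ _ _ _ _ _ Yx0.hv Yx0.h0 Yx0.h1 Yx0.h2 Yx0.h3 Yx0.h4 Yx0.h5 Yx0.h6 Yx0.he

theorem j0 : Rng 4848907 4526634 := rAx0.join rAx1 (by norm_num)
theorem j1 : Rng 4848907 4373622 := j0.join rAx2 (by norm_num)
theorem j2 : Rng 4848907 4301850 := j1.join rABx0 (by norm_num)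
theorem j3 : Rng 4848907 4201796 := j2.join rCx0 (by norm_num)
theorem j4 : Rng 4848907 4072002 := j3.join rCx1 (by norm_num)
theorem j5 : Rng 4848907 3915382 := j4.join rCx2 (by norm_num)
theorem j6 : Rng 4848907 3691675 := j5.join rCx3 (by norm_num)
theorem j7 : Rng 4848907 3480750 := j6.join rCx4 (by norm_num)
theorem j8 : Rng 4848907 3423921 := j7.join rDx0 (by norm_num)
theorem j9 : Rng 4848907 3251398 := j8.join rEx0 (by norm_num)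
theorem j10 : Rng 4848907 2974683 := j9.join rFx0 (by norm_num)
theorem j11 : Rng 4848907 2792481 := j10.join rGx0 (by norm_num)
theorem j12 : Rng 4848907 2621440 := j11.join rGx1 (by norm_num)
theorem j13 : Rng 4848907 2529918 := j12.join rHx0 (by norm_num)
theorem j14 : Rng 4848907 2441592 := j13.join rHx1 (by norm_num)
theorem j15 : Rng 4848907 2356350 := j14.join rHx2 (by norm_num)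
theorem j16 : Rng 4848907 2329494 := j15.join rIx0 (by norm_num)
theorem j17 : Rng 4848907 2308229 := j16.join rIx1 (by norm_num)
theorem j18 : Rng 4848907 2280178 := j17.join rIx2 (by norm_num)
theorem j19 : Rng 4848907 2252468 := j18.join rIx3 (by norm_num)
theorem j20 : Rng 4848907 2238739 := j19.join rIx4 (by norm_num)
theorem j21 : Rng 4848907 2225094 := j20.join rIx5 (by norm_num)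
theorem j22 : Rng 4848907 2184896 := j21.join rJx0 (by norm_num)
theorem j23 : Rng 4848907 2145424 := j22.join rJx1 (by norm_num)
theorem j24 : Rng 4848907 2075283 := j23.join rKx0 (by norm_num)
theorem j25 : Rng 4848907 2007436 := j24.join rKx1 (by norm_num)
theorem j26 : Rng 4848907 1974349 := j25.join rKx2 (by norm_num)
theorem j27 : Rng 4848907 1941807 := j26.join rKx3 (by norm_num)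
theorem j28 : Rng 4848907 1901580 := j27.join rLx0 (by norm_num)
theorem j29 : Rng 4848907 1862187 := j28.join rLx1 (by norm_num)
theorem j30 : Rng 4848907 1823610 := j29.join rLx2 (by norm_num)
theorem j31 : Rng 4848907 1759735 := j30.join rMx0 (by norm_num)
theorem j32 : Rng 4848907 1698098 := j31.join rMx1 (by norm_num)
theorem j33 : Rng 4848907 1666895 := j32.join rNx0 (by norm_num)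
theorem j34 : Rng 4848907 1626182 := j33.join rNx1 (by norm_num)
theorem j35 : Rng 4848907 1586462 := j34.join rNx2 (by norm_num)
theorem j36 : Rng 4848907 1547713 := j35.join rNx3 (by norm_num)
theorem j37 : Rng 4848907 1534659 := j36.join rOx0 (by norm_num)
theorem j38 : Rng 4848907 1516568 := j37.join rOx1 (by norm_num)
theorem j39 : Rng 4848907 1492778 := j38.join rOx2 (by norm_num)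
theorem j40 : Rng 4848907 1469361 := j39.join rOx3 (by norm_num)
theorem j41 : Rng 4848907 1446311 := j40.join rOx4 (by norm_num)
theorem j42 : Rng 4848907 1405504 := j41.join rBx0 (by norm_num)
theorem j43 : Rng 4848907 1365848 := j42.join rBx1 (by norm_num)
theorem j44 : Rng 4848907 1327311 := j43.join rBx2 (by norm_num)
theorem j45 : Rng 4848907 1290084 := j44.join rPx0 (by norm_num)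
theorem j46 : Rng 4848907 1253902 := j45.join rPx1 (by norm_num)
theorem j47 : Rng 4848907 1238192 := j46.join rZx0 (by norm_num)
theorem j48 : Rng 4848907 1216527 := j47.join rZx1 (by norm_num)
theorem j49 : Rng 4848907 1188230 := j48.join rZx2 (by norm_num)
theorem j50 : Rng 4848907 1160591 := j49.join rZx3 (by norm_num)
theorem j51 : Rng 4848907 1133595 := j50.join rZx4 (by norm_num)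
theorem j52 : Rng 4848907 993910 := j51.join rQx0 (by norm_num)
theorem j53 : Rng 4848907 983860 := j52.join rQAx0 (by norm_num)
theorem j54 : Rng 4848907 970616 := j53.join rQAx1 (by norm_num)
theorem j55 : Rng 4848907 961887 := j54.join rQAx2 (by norm_num)
theorem j56 : Rng 4848907 953236 := j55.join rQAx3 (by norm_num)
theorem j57 : Rng 4848907 944663 := j56.join rQAx4 (by norm_num)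
theorem j58 : Rng 4848907 879697 := j57.join rRx0 (by norm_num)
theorem j59 : Rng 4848907 819200 := j58.join rRx1 (by norm_num)
theorem j60 : Rng 4848907 785845 := j59.join rSx0 (by norm_num)
theorem j61 : Rng 4848907 753849 := j60.join rSx1 (by norm_num)
theorem j62 : Rng 4848907 723155 := j61.join rSx2 (by norm_num)
theorem j63 : Rng 4848907 694428 := j62.join rTx0 (by norm_num)
theorem j64 : Rng 4848907 666842 := j63.join rTx1 (by norm_num)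
theorem j65 : Rng 4848907 640351 := j64.join rTx2 (by norm_num)
theorem j66 : Rng 4848907 584930 := j65.join rUx0 (by norm_num)
theorem j67 : Rng 4848907 534306 := j66.join rUx1 (by norm_num)
theorem j68 : Rng 4848907 522779 := j67.join rVx0 (by norm_num)
theorem j69 : Rng 4848907 511500 := j68.join rVx1 (by norm_num)
theorem j70 : Rng 4848907 485318 := j69.join rWx0 (by norm_num)
theorem j71 : Rng 4848907 460476 := j70.join rWx1 (by norm_num)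
theorem j72 : Rng 4848907 436906 := j71.join rWx2 (by norm_num)
theorem j73 : Rng 4848907 409609 := j72.join rXx0 (by norm_num)
theorem j74 : Rng 4848907 384018 := j73.join rXx1 (by norm_num)
theorem j75 : Rng 4848907 360026 := j74.join rXx2 (by norm_num)
theorem j76 : Rng 4848907 336891 := j75.join rYx0 (by norm_num)

theorem chain : Rng 4848907 336891 := j76

end Pool.Agent.MP_d23910_co.S7
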