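import Pool.Agent.MP_d23910_co.S7.Spec

/-! What is known about the clusters that are read from a certificate. -/

set_option autoImplicit false

namespace Pool.Agent.MP_d23910_co.S7

theorem arc_k (d : Dat) (k j : ℕ) (sl : List ℕ) : (arc d k j sl).k = k := by
  simp only [arc, getA, force_eq, getW_eq, id]

theorem arc_t (d : Dat) (k j k' j' : ℕ) (sl sl' : List ℕ)
    (h : (arc d k' j' sl').t = (arc d k j sl).t) : (arc d k' j' sl').L = (arc d k j sl).L ∧
      (arc d k' j' sl').q = (arc d k j sl).q ∧ (arc d k' j' sl').st = (arc d k j sl).st := by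
  simp only [arc, getA, force_eq, getW_eq, id] at h ⊢
  rw [h]
  exact ⟨rfl, rfl, rfl⟩

theorem mem_cel (d : Dat) (n : ℕ) : ∀ g, ∀ v ∈ (cel d n g).1, ∃ j, v = vx d j := by
  induction n with
  | zero => intro g v hv; cases hv
  | succ n ih =>
    intro g v hv
    rw [cel_succ] at hv
    exact (List.mem_cons.1 hv).elim (fun h => ⟨_, h⟩) (ih _ v)

theorem mem_pcs (d : Dat) (n : ℕ) : ∀ g, ∀ p ∈ pcs d n g, ∃ g', p = pc1 d g' := by
  induction n with
  | zero => intro g v hv; cases hv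
  | succ n ih => exact fun g p hp => (List.mem_cons.1 hp).elim (fun h => ⟨_, h⟩) (ih _ p)

theorem length_pcs (d : Dat) (n : ℕ) : ∀ g, (pcs d n g).length = n := by
  induction n with
  | zero => exact fun _ => rfl
  | succ n ih => exact fun g => congrArg Nat.succ (ih _)

theorem mem_cl (d : Dat) (a : ℕ × List (List ℕ)) : ∀ p ∈ (cl d a).ps, ∃ g, p = pc1 d g := by
  simp only [cl, getC, force_eq, fz_eq, getW_eq, getP_eq, id]
  exact mem_pcs d _ _

theorem pc1_arc (d : Dat) (g k : ℕ) (hk : k = 1 ∨ k = 2) (h : (pc1 d g).k = k) :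
    ∃ j sl, pc1 d g = arc d k j sl := by
  rw [pc1] at h ⊢
  split_ifs at h ⊢
  · simp only at h; omega
  · exact ⟨_, _, by rw [← h, arc_k]⟩
  · exact ⟨_, _, by rw [← h, arc_k]⟩
  · simp only at h; omega

theorem cls (h1 : LinS) (h2 : ParS) : ClS := by
  intro d s V hW hA
  have hg := (h2 d s hW.1 hW.2.1 hW.2.2.1).2.2.2.2.2.2.2.2.1
  refine ⟨fun a => ⟨fun p hp => ?_, ?_⟩, fun a a' p hp p' hp' e e' ht => ?_⟩
  · obtain ⟨g, rfl⟩ := mem_cl d a p hp
    rw [pc1]
    split_ifs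
    · refine ⟨fun v hv => ?_, Nat.zero_le _, fun h => ?_, fun h => ?_⟩
      · obtain ⟨j, rfl⟩ := mem_cel d _ _ v hv
        exact hg j
      · cases h
      · rcases h with h | h <;> cases h
    · exact hA _ _ _ (Or.inl rfl)
    · exact hA _ _ _ (Or.inr rfl)
    · refine ⟨fun v hv => ?_, le_rfl, fun _ => ⟨_, rfl⟩, fun h => ?_⟩
      · rw [List.mem_singleton.1 hv]
        exact hg _
      · rcases h with h | h <;> cases h
  · simp only [cl, getC, force_eq, fz_eq, getW_eq, getP_eq, id]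
    obtain ⟨-, -, -, -, -, -, -, l8, -, -, l11⟩ := h1
    refine ⟨length_pcs d _ _, (l8 s _ _ _ (l11 d _) (l11 d _) (by norm_num [BB])).1, ?_,
      rfl, rfl, rfl, rfl, rfl, rfl⟩
    exact (Nat.mul_le_mul_right 256 (fld_le a.1 40 65535)).trans (by norm_num)
  · obtain ⟨g, rfl⟩ := mem_cl d a p hp
    obtain ⟨g', rfl⟩ := mem_cl d a' p' hp'
    obtain ⟨j, sl, q⟩ := pc1_arc d g 1 (Or.inl rfl) e
    obtain ⟨j', sl', q'⟩ := pc1_arc d g' 2 (Or.inr rfl) e'
    rw [q, q'] at ht ⊢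
    exact arc_t d _ _ _ _ _ _ ht

theorem hasI_iff (i : ℕ) (l : List Vx) : hasI i l = true ↔ ∃ w ∈ l, w.i = i := by
  induction l with
  | nil => simp [hasI]
  | cons a t ih =>
    have : hasI i (a :: t) = orr (Nat.beq a.i i) (hasI i t) := rfl
    rw [this, orr_eq, Bool.or_eq_true, beq_iff, ih, List.exists_mem_cons_iff]

theorem insL_spec (l : List Vx) : ∀ acc : List Vx, ∃ r : List Vx,
    (∀ k : List Vx → Bool, insL l acc k = k r) ∧ (∀ w ∈ acc, w ∈ r) ∧
      (∀ w ∈ r, w ∈ l ∨ w ∈ acc) ∧ ∀ v ∈ l, ∃ w ∈ r, w.i = v.i := by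
  induction l with
  | nil => exact fun acc => ⟨acc, fun _ => rfl, fun _ h => h, fun _ h => Or.inr h, by simp⟩
  | cons a t ih =>
    intro acc
    have e : ∀ k : List Vx → Bool, insL (a :: t) acc k =
      cnd (hasI a.i acc) (insL t acc k) (insL t (a :: acc) k) := fun _ => rfl
    cases h : hasI a.i acc
    · obtain ⟨r, r1, r2, r3, r4⟩ := ih (a :: acc)
      refine ⟨r, fun k => by rw [e, h, cnd_false, r1], fun w hw => r2 w (List.mem_cons_of_mem _ hw),
        fun w hw => ?_, List.forall_mem_cons.2 ⟨⟨a, r2 a List.mem_cons_self, rfl⟩, r4⟩⟩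
      have := r3 w hw
      simp only [List.mem_cons] at this ⊢
      tauto
    · obtain ⟨r, r1, r2, r3, r4⟩ := ih acc
      obtain ⟨w, hw, e'⟩ := (hasI_iff _ _).1 h
      exact ⟨r, fun k => by rw [e, h, cnd_true, r1], r2,
        fun w hw => (r3 w hw).imp_left (List.mem_cons_of_mem _),
        List.forall_mem_cons.2 ⟨⟨w, r2 w hw, e'⟩, r4⟩⟩

theorem getNV_spec (ps : List Pc) : ∀ acc : List Vx, ∃ r : List Vx,
    (∀ k : List Vx → Bool, getNV ps acc k = k r) ∧ (∀ w ∈ acc, w ∈ r) ∧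
      (∀ w ∈ r, (∃ p ∈ ps, w ∈ p.nv) ∨ w ∈ acc) ∧ ∀ p ∈ ps, ∀ v ∈ p.nv, ∃ w ∈ r, w.i = v.i := by
  induction ps with
  | nil => exact fun acc => ⟨acc, fun _ => rfl, fun _ h => h, fun _ h => Or.inr h, by simp⟩
  | cons p t ih =>
    intro acc
    have e : ∀ k : List Vx → Bool, getNV (p :: t) acc k =
      insL p.nv acc fun acc' => getNV t acc' k := fun _ => rfl
    obtain ⟨u, u1, u2, u3, u4⟩ := insL_spec p.nv acc
    obtain ⟨r, r1, r2, r3, r4⟩ := ih u
    refine ⟨r, fun k => by rw [e, u1, r1], fun w hw => r2 w (u2 w hw), fun w hw => ?_,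
      List.forall_mem_cons.2 ⟨fun v hv => ?_, r4⟩⟩
    · rcases r3 w hw with ⟨q, hq, h⟩ | h
      · exact Or.inl ⟨q, List.mem_cons_of_mem _ hq, h⟩
      · exact (u3 w h).imp_left fun h => ⟨p, List.mem_cons_self, h⟩
    · obtain ⟨w, hw, e'⟩ := u4 v hv
      exact ⟨w, r2 w hw, e'⟩

theorem nvs : NvS := fun ps =>
  let ⟨r, r1, _, r3, r4⟩ := getNV_spec ps []
  ⟨r, r1, fun w hw => (r3 w hw).resolve_right List.not_mem_nil, r4⟩

end Pool.Agent.MP_d23910_co.S7
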