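import Pool.Agent.MP_d23910_co.S7.Spec

/-!
The sign identity for a triangle seen from two generic points.
-/

set_option autoImplicit false

namespace Pool.Agent.MP_d23910_co.S7

open scoped RealInnerProductSpace

namespace CocAux

/-- the three products do not all have the same sign -/
def ex (p q r s t u : Bool) : Bool := !((p == q) == (r == s) && (r == s) == (t == u))

/-- the value on an edge -/
def f (x y w u : Bool) : ℤ :=
  if x = true ∧ ¬ y = true ∧ w = true ∧ ¬ u = true then 1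
  else if ¬ x = true ∧ y = true ∧ ¬ w = true ∧ u = true then -1 else 0

theorem key : ∀ x1 x2 x3 y1 y2 y3 pa pb pc : Bool, ex pa x2 pb x3 pc x1 = true →
    ex pa y2 pb y3 pc y1 = true → ex pa true x1 y3 x3 (!y1) = true →
    ex pb true x2 y1 x1 (!y2) = true → ex pc true x3 y2 x2 (!y3) = true →
    (if x1 = true ∧ x2 = true ∧ x3 = true then (1 : ℤ) else 0) -
      (if y1 = true ∧ y2 = true ∧ y3 = true then (1 : ℤ) else 0) =
      f x1 y1 pb pa + f x2 y2 pc pb + f x3 y3 pa pc := by
  decide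

theorem sg {p q : ℝ} (hp : p ≠ 0) (hq : q ≠ 0) :
    (decide (0 < p) == decide (0 < q)) = decide (0 < p * q) := by
  rcases lt_or_gt_of_ne hp with a | a <;> rcases lt_or_gt_of_ne hq with b | b
  · simp [a.not_gt, b.not_gt, mul_pos_of_neg_of_neg a b]
  · simp [a.not_gt, b, (mul_neg_of_neg_of_pos a b).not_gt]
  · simp [a, b.not_gt, (mul_neg_of_pos_of_neg a b).not_gt]
  · simp [a, b]

theorem exR {p q r s t u : ℝ} (hp : p ≠ 0) (hq : q ≠ 0) (hr : r ≠ 0) (hs : s ≠ 0) (ht : t ≠ 0)
    (hu : u ≠ 0) (h : p * q + r * s + t * u = 0) :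
    ex (decide (0 < p)) (decide (0 < q)) (decide (0 < r)) (decide (0 < s)) (decide (0 < t))
      (decide (0 < u)) = true := by
  rw [ex, sg hp hq, sg hr hs, sg ht hu]
  have a := mul_ne_zero hp hq
  have b := mul_ne_zero hr hs
  have c := mul_ne_zero ht hu
  generalize p * q = A at *
  generalize r * s = B at *
  generalize t * u = C at *
  rcases lt_or_gt_of_ne a with a | a <;> rcases lt_or_gt_of_ne b with b | b <;>
    rcases lt_or_gt_of_ne c with c | c <;>
    first
      | (exfalso; linarith)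
      | simp [a, b, c, a.not_gt, b.not_gt, c.not_gt]

theorem ng {p : ℝ} (hp : p ≠ 0) : decide (0 < -p) = !decide (0 < p) := by
  rcases lt_or_gt_of_ne hp with a | a
  · simp [a, a.not_gt]
  · simp [a, a.le]

theorem lt0 {p : ℝ} (hp : p ≠ 0) : p < 0 ↔ ¬ 0 < p :=
  ⟨fun h => h.not_gt, fun h => lt_of_le_of_ne (not_lt.1 h) hp⟩

end CocAux

open CocAux in
theorem coc : CocS := by
  intro a b c x y hD x1 x2 x3 y1 y2 y3 pa pb pc φ hφ
  have t : decide (0 < det3 a b c) = true := decide_eq_true hD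
  have e1 := exR pa x2 pb x3 pc x1 (by simp only [det3]; ring)
  have e2 := exR pa y2 pb y3 pc y1 (by simp only [det3]; ring)
  have e3 := exR pa hD.ne' x1 y3 x3 (neg_ne_zero.2 y1) (by simp only [det3]; ring)
  have e4 := exR pb hD.ne' x2 y1 x1 (neg_ne_zero.2 y2) (by simp only [det3]; ring)
  have e5 := exR pc hD.ne' x3 y2 x2 (neg_ne_zero.2 y3) (by simp only [det3]; ring)
  rw [t, ng y1] at e3
  rw [t, ng y2] at e4
  rw [t, ng y3] at e5
  have := key _ _ _ _ _ _ _ _ _ e1 e2 e3 e4 e5
  simp only [f, decide_eq_true_eq] at this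
  simp only [hφ, lt0 x1, lt0 x2, lt0 x3, lt0 y1, lt0 y2, lt0 y3, lt0 pa, lt0 pb, lt0 pc]
  exact this

end Pool.Agent.MP_d23910_co.S7
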