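import Pool.Agent.MP_d23910_co.S7.Spec

/-! The combinatorial check of all clusters. -/

set_option autoImplicit false

namespace Pool.Agent.MP_d23910_co.S7

namespace Comb

/-- How the five numbers change when the pieces `ps` are recorded. -/
def Rl (d : Dat) (φ : ℕ → ℕ → ℤ) (ps : List Pc) (g0 g1 ao ai pz g0' g1' ao' ai' pz' : ℕ) : Prop :=
  bsum (eval d φ) 0 g0' - bsum (eval d φ) 0 g1' =
      bsum (eval d φ) 0 g0 - bsum (eval d φ) 0 g1 + (ps.map (Pc.es φ)).sum ∧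
    (∀ i, (ao' >>> 64).testBit i = true ↔
      (ao >>> 64).testBit i = true ∨ ∃ p ∈ ps, p.k = 1 ∧ p.t = i) ∧
    (∀ i, (ai' >>> 64).testBit i = true ↔
      (ai >>> 64).testBit i = true ∨ ∃ p ∈ ps, p.k = 2 ∧ p.t = i) ∧
    (∀ i, (pz' >>> 64).testBit i = true ↔
      (pz >>> 64).testBit i = true ∨ ∃ p ∈ ps, p.k = 3 ∧ p.hd.i = i)

theorem rl_nil (d : Dat) (φ : ℕ → ℕ → ℤ) (g0 g1 ao ai pz : ℕ) :
    Rl d φ [] g0 g1 ao ai pz g0 g1 ao ai pz := by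
  simp [Rl]

theorem rl_app {d : Dat} {φ : ℕ → ℕ → ℤ} {ps qs : List Pc}
    {a0 a1 a2 a3 a4 b0 b1 b2 b3 b4 c0 c1 c2 c3 c4 : ℕ}
    (h : Rl d φ ps a0 a1 a2 a3 a4 b0 b1 b2 b3 b4) (h' : Rl d φ qs b0 b1 b2 b3 b4 c0 c1 c2 c3 c4) :
    Rl d φ (ps ++ qs) a0 a1 a2 a3 a4 c0 c1 c2 c3 c4 := by
  obtain ⟨h0, h1, h2, h3⟩ := h
  obtain ⟨k0, k1, k2, k3⟩ := h'
  refine ⟨?_, fun i => ?_, fun i => ?_, fun i => ?_⟩
  · rw [k0, h0, List.map_append, List.sum_append, add_assoc]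
  · rw [k1, h1, or_assoc]; simp only [List.mem_append, or_and_right, exists_or]
  · rw [k2, h2, or_assoc]; simp only [List.mem_append, or_and_right, exists_or]
  · rw [k3, h3, or_assoc]; simp only [List.mem_append, or_and_right, exists_or]

theorem one (h1 : BitS) (h2 : CombPS) (d : Dat) (φ : ℕ → ℕ → ℤ) (hφ : ∀ i j, φ j i = -φ i j)
    (k : ℕ → ℕ → ℕ → ℕ → ℕ → Bool) (l : List (ℕ × List (List ℕ))) :
    ∀ g0 g1 ao ai pz : ℕ, (∀ p ∈ l.flatMap fun a => (cl d a).ps, ∀ v ∈ p.L, v.i < 65536) →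
      combC d k l g0 g1 ao ai pz = true → ∃ g0' g1' ao' ai' pz', k g0' g1' ao' ai' pz' = true ∧
        Rl d φ (l.flatMap fun a => (cl d a).ps) g0 g1 ao ai pz g0' g1' ao' ai' pz' := by
  induction l with
  | nil => exact fun g0 g1 ao ai pz _ h => ⟨g0, g1, ao, ai, pz, h, rl_nil _ _ _ _ _ _ _⟩
  | cons a t ih =>
    intro g0 g1 ao ai pz hv h
    have e : combC d k (a :: t) g0 g1 ao ai pz = getC false d a.1 a.2 fun c =>
      combP d c.base (fun l0 l1 ao' ai' pz' =>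
        an (an (Nat.beq (Nat.land g0 (shb l0 c.base)) 0) (Nat.beq (Nat.land g1 (shb l1 c.base)) 0))
          (force (unb g0 l0 c.base) fun g0' => force (unb g1 l1 c.base) fun g1' =>
            combC d k t g0' g1' ao' ai' pz')) c.ps 0 0 ao ai pz := rfl
    rw [e, getC_eq] at h
    rw [List.flatMap_cons] at hv ⊢
    obtain ⟨l0, l1, ao', ai', pz', hk, s0, s1, s2, s3⟩ := h2 d φ _ _ _ _ _ _ _ _ hφ
      (fun p hp => hv p (List.mem_append_left _ hp)) h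
    simp only [an_eq, force_eq, Bool.and_eq_true, beq_iff] at hk
    obtain ⟨x0, x1, x2, x3, x4, hx, hr⟩ :=
      ih _ _ _ _ _ (fun p hp => hv p (List.mem_append_right _ hp)) hk.2
    refine ⟨x0, x1, x2, x3, x4, hx, rl_app ⟨?_, s1, s2, s3⟩ hr⟩
    rw [h1.2.2.2, sub_self, zero_add] at s0
    rw [h1.2.2.1 _ _ _ _ hk.1.1, h1.2.2.1 _ _ _ _ hk.1.2, ← s0]
    ring

/-- All lists of clusters. -/
noncomputable def ch (d : Dat) (k : ℕ → ℕ → ℕ → ℕ → ℕ → Bool)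
    (l : List (List (ℕ × List (List ℕ)))) : ℕ → ℕ → ℕ → ℕ → ℕ → Bool :=
  List.rec (motive := fun _ => ℕ → ℕ → ℕ → ℕ → ℕ → Bool) k (fun a _ r => combC d r a) l

theorem many (h1 : BitS) (h2 : CombPS) (d : Dat) (φ : ℕ → ℕ → ℤ) (hφ : ∀ i j, φ j i = -φ i j)
    (k : ℕ → ℕ → ℕ → ℕ → ℕ → Bool) (ls : List (List (ℕ × List (List ℕ)))) :
    ∀ g0 g1 ao ai pz : ℕ, (∀ p ∈ allPs d ls, ∀ v ∈ p.L, v.i < 65536) →
      ch d k ls g0 g1 ao ai pz = true → ∃ g0' g1' ao' ai' pz', k g0' g1' ao' ai' pz' = true ∧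
        Rl d φ (allPs d ls) g0 g1 ao ai pz g0' g1' ao' ai' pz' := by
  induction ls with
  | nil => exact fun g0 g1 ao ai pz _ h => ⟨g0, g1, ao, ai, pz, h, rl_nil _ _ _ _ _ _ _⟩
  | cons a t ih =>
    intro g0 g1 ao ai pz hv h
    have e : ch d k (a :: t) = combC d (ch d k t) a := rfl
    have e' : allPs d (a :: t) = (a.flatMap fun b => (cl d b).ps) ++ allPs d t := List.flatMap_cons
    rw [e] at h
    rw [e'] at hv ⊢
    obtain ⟨y0, y1, y2, y3, y4, hy, hs⟩ :=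
      one h1 h2 d φ hφ _ a _ _ _ _ _ (fun p hp => hv p (List.mem_append_left _ hp)) h
    obtain ⟨x0, x1, x2, x3, x4, hx, hr⟩ :=
      ih _ _ _ _ _ (fun p hp => hv p (List.mem_append_right _ hp)) hy
    exact ⟨x0, x1, x2, x3, x4, hx, rl_app hs hr⟩

theorem fin (h1 : BitS) (h2 : CombPS) (d : Dat) (φ : ℕ → ℕ → ℤ) (hφ : ∀ i j, φ j i = -φ i j)
    (ls : List (List (ℕ × List (List ℕ)))) (hv : ∀ p ∈ allPs d ls, ∀ v ∈ p.L, v.i < 65536)
    (h : chkE d ls = true) : ∃ g0 g1 ao ai pz : ℕ, g0 >>> 64 = g1 >>> 64 ∧ 0 < ao >>> 64 ∧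
      (ao >>> 64) &&& (ai >>> 64) = ao >>> 64 ∧ (pz >>> 64) &&& ones d.nZ = ones d.nZ ∧
      Rl d φ (allPs d ls) 0 0 0 0 0 g0 g1 ao ai pz := by
  obtain ⟨g0, g1, ao, ai, pz, hk, hr⟩ := many h1 h2 d φ hφ _ ls 0 0 0 0 0 hv h
  simp only [an_eq, Bool.and_eq_true, beq_iff, blt_iff] at hk
  exact ⟨g0, g1, ao, ai, pz, hk.1.1, hk.1.2, hk.2.1, hk.2.2, hr⟩

end Comb

theorem comb (h1 : BitS) (h2 : CombPS) : CombS := by
  intro d ls hv h
  refine ⟨fun φ hφ => ?_, ?_⟩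
  · obtain ⟨g0, g1, ao, ai, pz, e, -, -, -, s, -⟩ := Comb.fin h1 h2 d φ hφ ls hv h
    have : bsum (eval d φ) 0 g0 = bsum (eval d φ) 0 g1 := by rw [bsum, bsum, e]
    rw [this, sub_self, sub_self, zero_add] at s
    exact s.symm
  · obtain ⟨g0, g1, ao, ai, pz, -, e1, e2, e3, -, s1, s2, s3⟩ :=
      Comb.fin h1 h2 d (fun _ _ => 0) (fun _ _ => neg_zero.symm) ls hv h
    simp only [Nat.zero_shiftRight, Nat.zero_testBit, Bool.false_eq_true, false_or] at s1 s2 s3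
    refine ⟨?_, fun p hp hk => ?_, fun i hi => ?_⟩
    · obtain ⟨i, hi⟩ := Nat.exists_testBit_of_ne_zero e1.ne'
      obtain ⟨p, hp, hk, -⟩ := (s1 i).1 hi
      exact ⟨p, hp, hk⟩
    · have := (s1 p.t).2 ⟨p, hp, hk, rfl⟩
      rw [← e2, Nat.testBit_and, Bool.and_eq_true] at this
      exact (s2 p.t).1 this.2
    · have h3 : (ones d.nZ).testBit i = true := by
        have : ones d.nZ = 2 ^ d.nZ - 1 := by rw [← Nat.one_shiftLeft]; rfl
        rw [this, Nat.testBit_two_pow_sub_one]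
        exact decide_eq_true hi
      rw [← e3, Nat.testBit_and, Bool.and_eq_true] at h3
      exact (s3 i).1 h3.1

end Pool.Agent.MP_d23910_co.S7
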