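import Pool.Agent.MP_d23910_co.S7.Spec

/-! The record of the pieces of one cluster. -/

set_option autoImplicit false

namespace Pool.Agent.MP_d23910_co.S7

namespace CombPAux

theorem land_lt (x : ℕ) : Nat.land x 65535 < 2 ^ 64 :=
  lt_of_le_of_lt (Nat.and_le_right (n := x) (m := 65535)) (by norm_num)

theorem edge_spec (h : BitS) (d : Dat) (φ : ℕ → ℕ → ℤ) (hφ : ∀ i j, φ j i = -φ i j)
    (base a b s l0 l1 : ℕ) (k : ℕ → ℕ → Bool) (ha : a < 65536) (hb : b < 65536)
    (he : edge d base a b s l0 l1 k = true) :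
    ∃ l0' l1', k l0' l1' = true ∧ bsum (eval d φ) base l0' - bsum (eval d φ) base l1' =
      bsum (eval d φ) base l0 - bsum (eval d φ) base l1 + φ a b := by
  have hw : Nat.land (ent d.ET 7 127 32 (Nat.add base s)) 4294967295 < 2 ^ 64 :=
    lt_of_le_of_lt (Nat.and_le_right (n := ent d.ET 7 127 32 (Nat.add base s)) (m := 4294967295))
      (by norm_num)
  have hev : eval d φ (base + s) =
      φ (Nat.land (ent d.ET 7 127 32 (Nat.add base s)) 4294967295 % 65536)
        (Nat.land (ent d.ET 7 127 32 (Nat.add base s)) 4294967295 / 65536) := rfl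
  simp only [edge, force_eq, cnd_beq] at he
  generalize Nat.land (ent d.ET 7 127 32 (Nat.add base s)) 4294967295 = w at hw hev he
  split_ifs at he with h1
  · rw [an_eq, Bool.and_eq_true] at he
    have h2 : w = a + 65536 * b := h1
    refine ⟨_, _, he.2, ?_⟩
    rw [h.2.1 _ base l0 s w hw he.1, hev, show w % 65536 = a by omega,
      show w / 65536 = b by omega]
    ring
  · rw [an_eq, an_eq, Bool.and_eq_true, Bool.and_eq_true, beq_iff] at he
    have h2 : w = b + 65536 * a := he.1.1
    refine ⟨_, _, he.2, ?_⟩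
    rw [h.2.1 _ base l1 s w hw he.1.2, hev, show w % 65536 = b by omega,
      show w / 65536 = a by omega, hφ a b]
    ring

theorem edges_spec (h : BitS) (d : Dat) (φ : ℕ → ℕ → ℤ) (hφ : ∀ i j, φ j i = -φ i j)
    (base f : ℕ) (k : ℕ → ℕ → Bool) (hf : f < 65536) (L : List Vx) :
    ∀ (a : ℕ) (sl : List ℕ) (l0 l1 : ℕ), a < 65536 → (∀ v ∈ L, v.i < 65536) →
      edges d base f k L a sl l0 l1 = true →
      ∃ l0' l1', k l0' l1' = true ∧ bsum (eval d φ) base l0' - bsum (eval d φ) base l1' =
        bsum (eval d φ) base l0 - bsum (eval d φ) base l1 + psum φ f a (L.map Vx.i) := by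
  induction L with
  | nil =>
    intro a sl l0 l1 ha _ he
    cases sl with
    | nil => exact absurd he Bool.false_ne_true
    | cons s sl => exact edge_spec h d φ hφ base a f s l0 l1 k ha hf he
  | cons b t ih =>
    intro a sl l0 l1 ha hL he
    cases sl with
    | nil => exact absurd he Bool.false_ne_true
    | cons s sl =>
      have hb := hL b List.mem_cons_self
      have e : edges d base f k (b :: t) a (s :: sl) l0 l1
          = edge d base a b.i s l0 l1 fun l0' l1' => edges d base f k t b.i sl l0' l1' := rfl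
      rw [e] at he
      obtain ⟨m0, m1, h1, h2⟩ := edge_spec h d φ hφ base a b.i s l0 l1 _ ha hb he
      obtain ⟨n0, n1, h3, h4⟩ := ih b.i sl m0 m1 hb
        (fun v hv => hL v (List.mem_cons_of_mem _ hv)) h1
      refine ⟨n0, n1, h3, ?_⟩
      have e2 : psum φ f a ((b :: t).map Vx.i) = φ a b.i + psum φ f b.i (t.map Vx.i) := rfl
      rw [h4, h2, e2]; ring

theorem setb_iff (h : BitS) (x t i : ℕ) :
    ((setb x t (Nat.land t 65535)) >>> 64).testBit i = true ↔
      (x >>> 64).testBit i = true ∨ t = i := by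
  rw [h.1 x t _ i (land_lt t), Bool.or_eq_true, decide_eq_true_iff, eq_comm (a := i)]

end CombPAux

open CombPAux in
theorem combp (h : BitS) : CombPS := by
  intro d φ base k ps l0 l1 ao ai pz hφ
  induction ps generalizing l0 l1 ao ai pz with
  | nil =>
    intro _ hk
    exact ⟨l0, l1, ao, ai, pz, hk, by simp, by simp, by simp, by simp⟩
  | cons p t ih =>
    intro hL he
    have hL' : ∀ q ∈ t, ∀ v ∈ q.L, v.i < 65536 := fun q hq => hL q (List.mem_cons_of_mem _ hq)
    have e : combP d base k (p :: t) l0 l1 ao ai pz = cnd (Nat.beq p.k 3)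
        (force (setb pz p.hd.i (Nat.land p.hd.i 65535)) fun pz' =>
          combP d base k t l0 l1 ao ai pz')
        (cnd (Nat.beq p.k 2)
          (force (setb ai p.t (Nat.land p.t 65535)) fun ai' => combP d base k t l0 l1 ao ai' pz)
          (force (cnd (Nat.beq p.k 1) (setb ao p.t (Nat.land p.t 65535)) ao) fun ao' =>
            List.rec false (fun a u _ => edges d base a.i
              (fun l0' l1' => combP d base k t l0' l1' ao' ai pz) u a.i p.sl l0 l1) p.L)) := rfl
    rw [e] at he
    simp only [force_eq, cnd_beq] at he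
    by_cases h3 : p.k = 3
    · rw [if_pos h3] at he
      obtain ⟨a0, a1, a2, a3, a4, hk, hs, b1, b2, b3⟩ := ih _ _ _ _ _ hL' he
      refine ⟨a0, a1, a2, a3, a4, hk, ?_, fun i => ?_, fun i => ?_, fun i => ?_⟩
      · rw [hs]; simp [Pc.es, h3]
      · rw [b1]; simp [h3]
      · rw [b2]; simp [h3]
      · rw [b3, setb_iff h]; simp [h3, or_assoc]
    rw [if_neg h3] at he
    by_cases h2 : p.k = 2
    · rw [if_pos h2] at he
      obtain ⟨a0, a1, a2, a3, a4, hk, hs, b1, b2, b3⟩ := ih _ _ _ _ _ hL' he
      refine ⟨a0, a1, a2, a3, a4, hk, ?_, fun i => ?_, fun i => ?_, fun i => ?_⟩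
      · rw [hs]; simp [Pc.es, h2]
      · rw [b1]; simp [h2]
      · rw [b2, setb_iff h]; simp [h2, or_assoc]
      · rw [b3]; simp [h2]
    rw [if_neg h2] at he
    have hp := hL p List.mem_cons_self
    have hes : p.es φ = esum φ (p.L.map Vx.i) := by simp [Pc.es, h2, h3]
    generalize p.L = L at he hp hes
    cases L with
    | nil => exact absurd he Bool.false_ne_true
    | cons a u =>
      obtain ⟨m0, m1, h4, h5⟩ := edges_spec h d φ hφ base a.i _ (hp a List.mem_cons_self) u a.i
        p.sl l0 l1 (hp a List.mem_cons_self) (fun v hv => hp v (List.mem_cons_of_mem _ hv)) he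
      obtain ⟨a0, a1, a2, a3, a4, hk, hs, b1, b2, b3⟩ := ih _ _ _ _ _ hL' h4
      refine ⟨a0, a1, a2, a3, a4, hk, ?_, fun i => ?_, fun i => ?_, fun i => ?_⟩
      · have e2 : esum φ ((a :: u).map Vx.i) = psum φ a.i a.i (u.map Vx.i) := rfl
        rw [hs, h5, List.map_cons, List.sum_cons, hes, e2]; ring
      · rw [b1]
        by_cases h1 : p.k = 1
        · rw [if_pos h1, setb_iff h]; simp [h1, or_assoc]
        · rw [if_neg h1]; simp [h1]
      · rw [b2]; simp [h2]
      · rw [b3]; simp [h3]

end Pool.Agent.MP_d23910_co.S7
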