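import Pool.Agent.MP_d23910_co.S7.Spec

/-! A closed positively oriented complex covers the sphere. -/

set_option autoImplicit false

namespace Pool.Agent.MP_d23910_co.S7

namespace Cover

/-- The triangles of a fan. -/
def tris (a : ℕ) : ℕ → List ℕ → List (ℕ × ℕ × ℕ)
  | _, [] => []
  | b, c :: t => (a, b, c) :: tris a c t

/-- The triangles of a polygon. -/
def trisL : List ℕ → List (ℕ × ℕ × ℕ)
  | a :: b :: t => tris a b t
  | _ => []

/-- The sum along the boundary of a triangle. -/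
def bd (φ : ℕ → ℕ → ℤ) (t : ℕ × ℕ × ℕ) : ℤ := φ t.1 t.2.1 + φ t.2.1 t.2.2 + φ t.2.2 t.1

variable {φ : ℕ → ℕ → ℤ} {V : ℕ → E}

theorem sum_tris (h : ∀ i j, φ j i = -φ i j) (a b : ℕ) (t : List ℕ) :
    ((tris a b t).map (bd φ)).sum = φ a b + psum φ a b t := by
  induction t generalizing b with
  | nil => simp [tris, psum, h a b]
  | cons c t ih => simp only [tris, psum, List.map_cons, List.sum_cons, ih, bd, h a c]; ring

theorem sum_trisL (h : ∀ i j, φ j i = -φ i j) : ∀ L, ((trisL L).map (bd φ)).sum = esum φ L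
  | [] => rfl
  | [a] => by
    have := h a a
    simp only [trisL, esum, psum, List.map_nil, List.sum_nil]
    omega
  | a :: b :: t => sum_tris h a b t

theorem sum_all (h : ∀ i j, φ j i = -φ i j) (C : List (List ℕ)) :
    ((C.flatMap trisL).map (bd φ)).sum = (C.map (esum φ)).sum := by
  induction C with
  | nil => rfl
  | cons L C ih => simp only [List.flatMap_cons, List.map_append, List.sum_append, ih, sum_trisL h,
      List.map_cons, List.sum_cons]

theorem mem_tris {a b : ℕ} {l : List ℕ} (h : Fan V a b l) {t : ℕ × ℕ × ℕ} (ht : t ∈ tris a b l) :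
    0 < det3 (V t.1) (V t.2.1) (V t.2.2) ∧ t.1 = a ∧ t.2.1 ∈ b :: l ∧ t.2.2 ∈ b :: l := by
  induction l generalizing b with
  | nil => simp [tris] at ht
  | cons c l ih =>
    rcases List.mem_cons.1 ht with rfl | ht
    · exact ⟨h.1, rfl, by simp, by simp⟩
    · obtain ⟨h1, h2, h3, h4⟩ := ih h.2 ht
      exact ⟨h1, h2, List.mem_cons_of_mem _ h3, List.mem_cons_of_mem _ h4⟩

theorem mem_trisL {t : ℕ × ℕ × ℕ} : ∀ L, FanL V L → t ∈ trisL L →
    0 < det3 (V t.1) (V t.2.1) (V t.2.2) ∧ t.1 ∈ L ∧ t.2.1 ∈ L ∧ t.2.2 ∈ L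
  | [], _, h => by simp [trisL] at h
  | [_], _, h => by simp [trisL] at h
  | a :: b :: l, h, ht =>
    let ⟨h1, h2, h3, h4⟩ := mem_tris h ht
    ⟨h1, h2 ▸ List.mem_cons_self, List.mem_cons_of_mem _ h3, List.mem_cons_of_mem _ h4⟩

theorem cyc (a b c : E) : det3 b c a = det3 a b c := by simp only [det3]; ring

theorem swap (a b c : E) : det3 a c b = -det3 a b c := by simp only [det3]; ring

theorem cont (u w : E) : Continuous fun x => det3 x u w := by unfold det3; fun_prop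

/-- The determinant as a linear form. -/
def dl (u w : E) : E →ₗ[ℝ] ℝ where
  toFun x := det3 x u w
  map_add' x y := by simp only [det3, PiLp.add_apply]; ring
  map_smul' r x := by simp only [det3, PiLp.smul_apply, smul_eq_mul, RingHom.id_apply]; ring

theorem gen {A : Set E} (hA : A.Countable) :
    Dense {x | ∀ u ∈ A, ∀ w ∈ A, ∀ z, det3 z u w ≠ 0 → det3 x u w ≠ 0} := by
  have h := dense_biInter_of_isOpen (S := {p ∈ A ×ˢ A | ∃ z, det3 z p.1 p.2 ≠ 0})
    (f := fun p => {x | det3 x p.1 p.2 ≠ 0})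
    (fun p _ => isOpen_ne_fun (cont _ _) continuous_const)
    ((hA.prod hA).mono (Set.sep_subset _ _)) fun p ⟨_, z, hz⟩ =>
      interior_eq_empty_iff_dense_compl.1 (Set.not_nonempty_iff_eq_empty.1 fun e => hz
        (show z ∈ LinearMap.ker (dl p.1 p.2) from
          (Submodule.eq_top_of_nonempty_interior' (LinearMap.ker (dl p.1 p.2)) e).symm ▸ trivial))
  exact h.mono fun x hx u hu w hw z hz => Set.mem_iInter₂.1 hx (u, w) ⟨⟨hu, hw⟩, z, hz⟩

theorem cone3 {A : Set E} {a b c x : E} (ha : a ∈ A) (hb : b ∈ A) (hc : c ∈ A)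
    (h : 0 < det3 a b c) (h1 : 0 ≤ det3 x a b) (h2 : 0 ≤ det3 x b c) (h3 : 0 ≤ det3 x c a) :
    Cone A x := by
  classical
  refine ⟨{a, b, c}, fun u => (if u = a then det3 x b c / det3 a b c else 0) +
    (if u = b then det3 x c a / det3 a b c else 0) +
    (if u = c then det3 x a b / det3 a b c else 0), by simp [ha, hb, hc], fun u => by positivity, ?_⟩
  simp only [add_smul, ite_smul, zero_smul, Finset.sum_add_distrib, Finset.sum_ite_eq',
    Finset.mem_insert, Finset.mem_singleton, true_or, or_true, if_true]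
  ext i
  simp only [PiLp.add_apply, PiLp.smul_apply, smul_eq_mul]
  field_simp
  fin_cases i <;> simp only [det3, Fin.zero_eta, Fin.mk_one, Fin.reduceFinMk] <;> ring

open Classical in
/-- The indicator of an open triangle. -/
noncomputable def ind (V : ℕ → E) (x : E) (t : ℕ × ℕ × ℕ) : ℤ :=
  if 0 < det3 x (V t.1) (V t.2.1) ∧ 0 < det3 x (V t.2.1) (V t.2.2) ∧ 0 < det3 x (V t.2.2) (V t.1)
  then 1 else 0

open Classical in
/-- The crossing number of two segments. -/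
noncomputable def cr (x y u w : E) : ℤ :=
  if 0 < det3 x u w ∧ det3 y u w < 0 ∧ 0 < det3 x y w ∧ det3 x y u < 0 then 1
  else if det3 x u w < 0 ∧ 0 < det3 y u w ∧ det3 x y w < 0 ∧ 0 < det3 x y u then -1 else 0

theorem cr_swap (x y u w : E) : cr x y w u = -cr x y u w := by
  simp only [cr, swap x u w, swap y u w, neg_pos, neg_lt_zero]
  by_cases h1 : 0 < det3 x u w ∧ det3 y u w < 0 ∧ 0 < det3 x y w ∧ det3 x y u < 0
  · rw [if_neg fun h => h.1.not_gt h1.1, if_pos ⟨h1.1, h1.2.1, h1.2.2.2, h1.2.2.1⟩, if_pos h1]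
  · rw [if_neg h1, if_neg (c := 0 < det3 x u w ∧ _) fun h => h1 ⟨h.1, h.2.1, h.2.2.2, h.2.2.1⟩]
    by_cases h2 : det3 x u w < 0 ∧ 0 < det3 y u w ∧ det3 x y w < 0 ∧ 0 < det3 x y u
    · rw [if_pos h2, if_pos ⟨h2.1, h2.2.1, h2.2.2.2, h2.2.2.1⟩, neg_neg]
    · rw [if_neg h2, if_neg fun h => h2 ⟨h.1, h.2.1, h.2.2.2, h.2.2.1⟩, neg_zero]

end Cover

open Cover in
theorem cover (h : CocS) : CoverS := by
  intro V C hF hs ⟨L₀, hL₀, hl⟩ x₀
  have hT : ∀ t ∈ C.flatMap trisL, 0 < det3 (V t.1) (V t.2.1) (V t.2.2) ∧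
      ∃ L ∈ C, t.1 ∈ L ∧ t.2.1 ∈ L ∧ t.2.2 ∈ L := fun t ht =>
    let ⟨L, h1, h2⟩ := List.mem_flatMap.1 ht
    let ⟨h3, h4⟩ := mem_trisL L (hF L h1) h2
    ⟨h3, L, h1, h4⟩
  obtain ⟨t₀, ht₀⟩ : ∃ t, t ∈ C.flatMap trisL := by
    obtain _ | ⟨a, _ | ⟨b, _ | ⟨c, l⟩⟩⟩ := L₀
    all_goals first
      | exact ⟨(a, b, c), List.mem_flatMap.2 ⟨_, hL₀, List.mem_cons_self⟩⟩
      | simp at hl
  obtain ⟨y, ⟨y1, y2, y3⟩, hy⟩ := (gen (Set.countable_range V)).inter_open_nonempty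
    {y | 0 < det3 y (V t₀.1) (V t₀.2.1) ∧ 0 < det3 y (V t₀.2.1) (V t₀.2.2) ∧
      0 < det3 y (V t₀.2.2) (V t₀.1)}
    ((isOpen_lt continuous_const (cont _ _)).inter ((isOpen_lt continuous_const (cont _ _)).inter
      (isOpen_lt continuous_const (cont _ _)))) ⟨V t₀.1 + V t₀.2.1 + V t₀.2.2, by
        have := (hT t₀ ht₀).1
        simp only [det3, PiLp.add_apply, Set.mem_ofPred_eq] at this ⊢
        refine ⟨?_, ?_, ?_⟩ <;> linarith⟩
  have hK : IsClosed (⋃ t ∈ {t | t ∈ C.flatMap trisL}, {x | 0 ≤ det3 x (V t.1) (V t.2.1) ∧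
      0 ≤ det3 x (V t.2.1) (V t.2.2) ∧ 0 ≤ det3 x (V t.2.2) (V t.1)}) :=
    (List.finite_toSet _).isClosed_biUnion fun t _ =>
      (isClosed_le continuous_const (cont _ _)).inter
        ((isClosed_le continuous_const (cont _ _)).inter (isClosed_le continuous_const (cont _ _)))
  refine (Set.mem_iUnion₂.1 (hK.closure_subset_iff.2 (fun x hx => ?_)
    (gen ((Set.countable_range V).insert y) x₀))).elim fun t ⟨ht, h1, h2, h3⟩ => ?_
  swap
  · obtain ⟨h0, L, hL, m1, m2, m3⟩ := hT t ht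
    exact ⟨L, hL, cone3 ⟨_, m1, rfl⟩ ⟨_, m2, rfl⟩ ⟨_, m3, rfl⟩ h0 h1 h2 h3⟩
  by_contra hn
  have key : ∀ t ∈ C.flatMap trisL,
      ind V x t = bd (fun i j => cr x y (V i) (V j)) t + ind V y t := fun t ht => by
    have d := (hT t ht).1
    have d1 : det3 (V t.2.2) (V t.1) (V t.2.1) ≠ 0 := by rw [← cyc]; exact d.ne'
    have d3 : det3 (V t.2.1) (V t.2.2) (V t.1) ≠ 0 := by rw [cyc]; exact d.ne'
    have m : ∀ i, V i ∈ insert y (Set.range V) := fun i => Or.inr ⟨i, rfl⟩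
    have a1 := hy _ ⟨_, rfl⟩ _ ⟨_, rfl⟩ _ d1
    have a2 := hy _ ⟨_, rfl⟩ _ ⟨_, rfl⟩ _ d.ne'
    have a3 := hy _ ⟨_, rfl⟩ _ ⟨_, rfl⟩ _ d3
    have b : ∀ i j, det3 y (V i) (V j) ≠ 0 → det3 x y (V i) ≠ 0 := fun i j e =>
      hx y (Or.inl rfl) _ (m i) (V j) (by rwa [← cyc])
    exact sub_eq_iff_eq_add.1 (h _ _ _ x y d (hx _ (m _) _ (m _) _ d1) (hx _ (m _) _ (m _) _ d.ne')
      (hx _ (m _) _ (m _) _ d3) a1 a2 a3 (b _ _ a1) (b _ _ a2) (b _ _ a3) (cr x y) fun _ _ => rfl)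
  have e1 : ((C.flatMap trisL).map (ind V x)).sum = 0 := List.sum_eq_zero fun _ hz => by
    obtain ⟨t, ht, rfl⟩ := List.mem_map.1 hz
    exact if_neg fun q => hn (Set.mem_biUnion (x := t) ht ⟨q.1.le, q.2.1.le, q.2.2.le⟩)
  have a := fun i j => cr_swap x y (V i) (V j)
  rw [List.map_congr_left key, List.sum_map_add, sum_all a, hs _ a, zero_add] at e1
  have e2 := List.single_le_sum (l := (C.flatMap trisL).map (ind V y)) (fun _ hz => by
    obtain ⟨t, -, rfl⟩ := List.mem_map.1 hz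
    unfold ind
    positivity) _ (List.mem_map_of_mem ht₀)
  rw [e1, ind, if_pos ⟨y1, y2, y3⟩] at e2
  exact absurd e2 (by norm_num)

end Pool.Agent.MP_d23910_co.S7
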