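import Pool.Agent.MP_d23910_co.S7.Spec

/-!
Soundness of the rule with two related centres.
-/

set_option autoImplicit false

namespace Pool.Agent.MP_d23910_co.S7

open scoped RealInnerProductSpace

theorem dblr (h1 : LinS) (h2 : NearVS) (h3 : DotVS) (h4 : ParS) (h5 : DblS) : Sound dbl := by
  intro d s V A B mA mB w hW hA hB h i j P P' hi hj bi bj x y hx hy hxy
  obtain ⟨s0, s1, hP, hap, hrel⟩ := hW
  obtain ⟨-, -, -, -, -, -, c0, -, hg, -⟩ := h4 d s s0 s1 hP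
  simp only [dbl, getV_eq, force_eq, an_eq, Bool.and_eq_true] at h
  have gp := hg (fld w 0 65535)
  have gq := hg (fld w 16 65535)
  generalize vx d (fld w 0 65535) = p at h gp
  generalize vx d (fld w 16 65535) = q at h gq
  have hl : Nat.mul (fld w 32 65535) 256 ≤ 2 ^ 26 := by
    have := fld_le w 32 65535
    show fld w 32 65535 * 256 ≤ 2 ^ 26
    omega
  generalize Nat.mul (fld w 32 65535) 256 = l at h hl
  obtain ⟨v1, v2⟩ := h1.2.2.2.2.1 s l (by rw [BB_eq]; omega)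
  have v3 : Lin (Nat.mul l H1) (2 ^ 30) := le_trans v2 (by omega)
  obtain ⟨⟨r, kB⟩, kA⟩ := h
  have b1 := allSel_spec _ _ _ kB j P' hj bj
  have a1 := allSel_spec _ _ _ kA i P hi bi
  simp only [Bool.and_eq_true, beq_iff, allL_iff] at a1 b1
  obtain ⟨⟨⟨a2, a3⟩, a4⟩, a5⟩ := a1
  obtain ⟨⟨b2, b3⟩, b4⟩ := b1
  have a6 := allSel_spec _ _ _ a5 j P' hj bj
  simp only [orr_eq, Bool.or_eq_true, beq_iff, allL_iff] at a6
  have GA := (hA P (List.mem_of_getElem? hi)).1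
  have GB := (hB P' (List.mem_of_getElem? hj)).1
  obtain ⟨z1, z2, z3⟩ := hrel _ _ r
  have ap := hap p gp
  have aq := hap q gq
  have key := h5 (P.pts V) (P'.pts V) (V p.i) (V q.i) x y (d.cc s)
    (by rintro _ ⟨a, ha, rfl⟩; exact (hap a (GA a ha)).1)
    (by rintro _ ⟨a, ha, rfl⟩; exact (hap a (GB a ha)).1) ap.1 aq.1 z3 c0.le
    (by
      rintro _ ⟨a, ha, rfl⟩ _ ⟨u, hu, rfl⟩
      rcases a6 u hu with e | e
      · exact Or.inr (Or.inl (by rw [e]))
      rcases e a ha with e' | e'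
      · exact Or.inl (by rw [e'])
      have n1 := h2 s _ _ a p _ s0 s1 (hap a (GA a ha)) ap v3 (a4 a ha)
      have n2 := h2 s _ _ u q _ s0 s1 (hap u (GB u hu)) aq v3 (b4 u hu)
      rw [v1] at n1 n2
      exact Or.inr (Or.inr (h3 s _ _ _ _ a p u q l s0 s1 (hap a (GA a ha)) ap (hap u (GB u hu)) aq
        hl n1.le n2.le e')))
    hx.1 hy.1 hx.2.1 hy.2.1 (a3 ▸ (hx.2.2.2.1 a2).1) (b3 ▸ (hy.2.2.2.1 b2).1) hxy
  rcases key with e | e
  · exact hx.2.2.1 (by omega) _ z1 e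
  · exact hy.2.2.1 (by omega) _ z2 e

end Pool.Agent.MP_d23910_co.S7
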