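import Pool.Agent.MP_d23910_co.S7.Spec

/-! Soundness of the tests for scalar products and determinants. -/

set_option autoImplicit false

namespace Pool.Agent.MP_d23910_co.S7

open scoped RealInnerProductSpace

namespace DetP

variable {s : ℝ}

theorem dt_rep (h1 : RepS) (s0 : 0 ≤ s) (s1 : s < 1) {a b : P3} {M : ℕ} (ha : a.Ok M)
    (hb : b.Ok M) : Rep s 2 (dt a b)
      (val s a.X * val s b.X + val s a.Y * val s b.Y + val s a.Z * val s b.Z)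
      (M * M + M * M + M * M) := by
  obtain ⟨-, r1, -, ra, rm, -⟩ := h1 s s0 s1
  exact ra _ _ _ _ _ _ _ (ra _ _ _ _ _ _ _
    (rm 1 1 _ _ _ _ _ _ (r1 _ _ ha.2.1) (r1 _ _ hb.2.1))
    (rm 1 1 _ _ _ _ _ _ (r1 _ _ ha.2.2.1) (r1 _ _ hb.2.2.1)))
    (rm 1 1 _ _ _ _ _ _ (r1 _ _ ha.2.2.2) (r1 _ _ hb.2.2.2))

theorem cy_rep (h1 : RepS) (s0 : 0 ≤ s) (s1 : s < 1) {a b c a' b' c' M : ℕ} (ha : Lin a M)
    (hb : Lin b M) (hc : Lin c M) (ha' : Lin a' M) (hb' : Lin b' M) (hc' : Lin c' M) :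
    Rep s 2 (cy a b c a' b' c')
      (val s a * val s b' + val s b * val s c' + val s c * val s a') (M * M + M * M + M * M) := by
  obtain ⟨-, r1, -, ra, rm, -⟩ := h1 s s0 s1
  exact ra _ _ _ _ _ _ _ (ra _ _ _ _ _ _ _
    (rm 1 1 _ _ _ _ _ _ (r1 _ _ ha) (r1 _ _ hb')) (rm 1 1 _ _ _ _ _ _ (r1 _ _ hb) (r1 _ _ hc')))
    (rm 1 1 _ _ _ _ _ _ (r1 _ _ hc) (r1 _ _ ha'))

theorem side (h1 : RepS) (s0 : 0 ≤ s) (s1 : s < 1) {a : P3} {o x y z x' y' z' M M' W : ℕ}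
    {fx fy fz gx gy gz : ℝ} (ha : a.Ok M) (ho : Lin o M') (hx : Rep s 2 x fx W)
    (hy : Rep s 2 y fy W) (hz : Rep s 2 z fz W) (hx' : Rep s 2 x' gx W) (hy' : Rep s 2 y' gy W)
    (hz' : Rep s 2 z' gz W) :
    Rep s 3 (Nat.add (Nat.add (Nat.add (Nat.mul a.X x) (Nat.mul a.Y y)) (Nat.mul a.Z z))
      (Nat.mul o (Nat.add (Nat.add x' y') z')))
      (val s a.X * fx + val s a.Y * fy + val s a.Z * fz + val s o * (gx + gy + gz))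
      (M * W + M * W + M * W + M' * (W + W + W)) := by
  obtain ⟨-, r1, -, ra, rm, -⟩ := h1 s s0 s1
  exact ra _ _ _ _ _ _ _ (ra _ _ _ _ _ _ _ (ra _ _ _ _ _ _ _
    (rm 1 2 _ _ _ _ _ _ (r1 _ _ ha.2.1) hx) (rm 1 2 _ _ _ _ _ _ (r1 _ _ ha.2.2.1) hy))
    (rm 1 2 _ _ _ _ _ _ (r1 _ _ ha.2.2.2) hz))
    (rm 1 2 _ _ _ _ _ _ (r1 _ _ ho) (ra _ _ _ _ _ _ _ (ra _ _ _ _ _ _ _ hx' hy') hz'))

theorem inner_eq (x y : E) : ⟪x, y⟫ = x 0 * y 0 + x 1 * y 1 + x 2 * y 2 := by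
  rw [PiLp.inner_apply, Fin.sum_univ_three]
  simp only [RCLike.inner_apply, conj_trivial]
  ring

theorem vX (a : P3) : a.v s 0 = val s a.X := rfl
theorem vY (a : P3) : a.v s 1 = val s a.Y := rfl
theorem vZ (a : P3) : a.v s 2 = val s a.Z := rfl

end DetP

open DetP in
theorem dotp (h1 : RepS) : DotS := by
  intro s a p u q t s0 s1 ha hp hu hq ht h
  obtain ⟨r0, -, -, ra, rm, -, rH, -, rg⟩ := h1 s s0 s1
  have hL := ra _ _ _ _ _ _ _ (dt_rep h1 s0 s1 ha hq) (dt_rep h1 s0 s1 hp hu)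
  have hR := ra _ _ _ _ _ _ _ (ra _ _ _ _ _ _ _ (dt_rep h1 s0 s1 ha hu) (dt_rep h1 s0 s1 hp hq))
    (rm 0 2 _ _ _ _ _ _ (r0 (Nat.succ t)) rH)
  have h2 := rg 2 _ _ _ _ _ _ (by norm_num) hL hR (by norm_num) (by omega) h
  rw [inner_eq]
  simp only [PiLp.sub_apply, vX, vY, vZ]
  push_cast at h2
  linarith

open DetP in
theorem detp (h1 : RepS) (h2 : LinS) : DetS := by
  intro s a b c t s0 s1 ha hb hc ht h
  obtain ⟨r0, -, -, ra, rm, -, -, rH, rg⟩ := h1 s s0 s1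
  obtain ⟨-, -, -, -, -, -, -, -, ho, hv, -⟩ := h2
  have oX : val s org.X = 8388608 := by rw [← vX, hv]; rfl
  have oY : val s org.Y = 8388608 := by rw [← vY, hv]; rfl
  have oZ : val s org.Z = 8388608 := by rw [← vZ, hv]; rfl
  simp only [detP, force_eq] at h
  have px := cy_rep h1 s0 s1 ha.2.2.1 hb.2.2.1 hc.2.2.1 ha.2.2.2 hb.2.2.2 hc.2.2.2
  have nx := cy_rep h1 s0 s1 ha.2.2.2 hb.2.2.2 hc.2.2.2 ha.2.2.1 hb.2.2.1 hc.2.2.1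
  have py := cy_rep h1 s0 s1 ha.2.2.2 hb.2.2.2 hc.2.2.2 ha.2.1 hb.2.1 hc.2.1
  have ny := cy_rep h1 s0 s1 ha.2.1 hb.2.1 hc.2.1 ha.2.2.2 hb.2.2.2 hc.2.2.2
  have pz := cy_rep h1 s0 s1 ha.2.1 hb.2.1 hc.2.1 ha.2.2.1 hb.2.2.1 hc.2.2.1
  have nz := cy_rep h1 s0 s1 ha.2.2.1 hb.2.2.1 hc.2.2.1 ha.2.1 hb.2.1 hc.2.1
  have hL := side h1 s0 s1 ha ho.2.1 px py pz nx ny nz
  have hR := ra _ _ _ _ _ _ _ (side h1 s0 s1 ha ho.2.1 nx ny nz px py pz)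
    (rm 0 3 _ _ _ _ _ _ (r0 (Nat.succ t)) rH)
  have h3 := rg 3 _ _ _ _ _ _ le_rfl hL hR (by norm_num) (by omega) h
  unfold det3
  simp only [PiLp.sub_apply, vX, vY, vZ, oX, oY, oZ]
  rw [oX] at h3
  push_cast at h3
  linarith

end Pool.Agent.MP_d23910_co.S7
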