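import Pool.Agent.MP_d23910_co.S7.Spec

/-! Existence of the true vertices, and the checked arcs. -/

set_option autoImplicit false

namespace Pool.Agent.MP_d23910_co.S7

open scoped RealInnerProductSpace

theorem hp_lt {d : Dat} {i j : ℕ} (h : hp d i j = true) : i < d.nZ ∧ j < i := by
  simp only [hp, an_eq, Bool.and_eq_true, blt_iff] at h
  exact h.1

theorem exs (h : StepS) : ExS := by
  intro d s s0 s1 hpar hall
  rw [allN_iff] at hall
  have key : ∀ n ≤ d.nV, ∃ V : ℕ → E, ∀ i < n, Ap s (V i) (vx d i) ∧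
      ∀ j, hp d i j = true → ⟪V i, V j⟫ = d.cc s := by
    intro n
    induction n with
    | zero => exact fun _ => ⟨fun _ => 0, fun i hi => absurd hi (Nat.not_lt_zero i)⟩
    | succ n ih =>
      intro hn
      obtain ⟨V, hV⟩ := ih (by omega)
      obtain ⟨w, h1, h2⟩ := h d s V n s0 s1 hpar hn (hall n hn) fun j hj => (hV j hj).1
      refine ⟨Function.update V n w, fun i hi => ?_⟩
      rcases (Nat.lt_succ_iff.1 hi).eq_or_lt with rfl | hi'
      · rw [Function.update_self]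
        exact ⟨h1, fun j hj => by rw [Function.update_of_ne (hp_lt hj).2.ne]; exact h2 j hj⟩
      · rw [Function.update_of_ne hi'.ne]
        exact ⟨(hV i hi').1, fun j hj => by
          rw [Function.update_of_ne ((hp_lt hj).2.trans hi').ne]; exact (hV i hi').2 j hj⟩
  obtain ⟨V, hV⟩ := key d.nV le_rfl
  refine ⟨V, s0, s1, hpar, fun v hv => ?_, fun i j hij => ?_⟩
  · have := (hV v.i hv.1).1
    rwa [← hv.2] at this
  · simp only [rel, orr_eq, Bool.or_eq_true] at hij
    rcases hij with h1 | h1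
    · have h2 := hp_lt h1
      exact ⟨h2.1, h2.2.trans h2.1, (hV i (h2.1.trans_le hpar.2.1)).2 j h1⟩
    · have h2 := hp_lt h1
      exact ⟨h2.2.trans h2.1, h2.1, by
        rw [real_inner_comm]; exact (hV j (h2.1.trans_le hpar.2.1)).2 i h1⟩

theorem arcs (h1 : LinS) (h2 : NearVS) (h3 : DetVS) (h4 : ParS) : ArcS := by
  intro d s V hW hall k j sl hk
  obtain ⟨s0, s1, hpar, hap, hrel⟩ := hW
  obtain ⟨-, -, p3, p4, -, -, -, -, p9, p10⟩ := h4 d s s0 s1 hpar
  have h := (allN_iff _ _).1 hall (Nat.mod j d.nA) (Nat.mod_lt j hpar.2.2.2.1)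
  simp only [chkA1, force_eq, getV_eq, an_eq, Bool.and_eq_true] at h
  simp only [arc, getA, force_eq, getW_eq, id]
  generalize Nat.mod (ent d.AT 6 63 80 (Nat.mod j d.nA)) 1208925819614629174706176 = w at h ⊢
  have gm := p9 (fld w 0 65535)
  have ga := p9 (fld w 16 65535)
  have gb := p9 (fld w 32 65535)
  have gq := p9 (fld w 48 65535)
  generalize vx d (fld w 0 65535) = m at h gm ⊢
  generalize vx d (fld w 16 65535) = a at h ga ⊢
  generalize vx d (fld w 32 65535) = b at h gb ⊢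
  generalize vx d (fld w 48 65535) = q at h gq ⊢
  have hl : Nat.mul (fld w 65 32767) 256 ≤ 2 ^ 24 := by
    have := fld_le w 65 32767
    show fld w 65 32767 * 256 ≤ _
    omega
  generalize Nat.mul (fld w 65 32767) 256 = l at h hl
  obtain ⟨⟨⟨r1, r2⟩, ⟨n1, n2⟩, n3⟩, e1, e2⟩ := h
  obtain ⟨v1, v2⟩ := h1.2.2.2.2.1 s l (by rw [BB_eq]; omega)
  have v3 : Lin (Nat.mul l H1) (2 ^ 30) := le_trans v2 (by omega)
  have nr : ∀ x y : Vx, Good d x → Good d y → nearV x y (Nat.mul l H1) = true →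
      4194304 * ‖V x.i - V y.i‖ ≤ l := fun x y gx gy n =>
    v1 ▸ (h2 s _ _ x y _ s0 s1 (hap x gx) (hap y gy) v3 n).le
  have ds : ∀ x : Vx, Good d x → rel d q.i x.i = true → 4194304 * ‖V q.i - V x.i‖ ≤ d.Dm :=
    fun x gx r => by
      rw [(p10 _ _ (hap q gq).1 (hap x gx).1).2.2.1 (hrel _ _ r).2.2]
      exact p3
  have c2 : ((Nat.mul 2 d.Dm : ℕ) : ℝ) = 2 * d.Dm := by
    show ((2 * d.Dm : ℕ) : ℝ) = _
    push_cast; rfl
  have d1 := ds a ga r1
  have d2 := ds b gb r2
  have d0 : (0 : ℝ) ≤ d.Dm := Nat.cast_nonneg _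
  have f1 := h3 s _ _ _ m a b l 0 s0 s1 (hap m gm) (hap a ga) (hap b gb) (by omega) (by omega)
    (nr m a gm ga n1) (nr m b gm gb n2) (nr a b ga gb n3) e1
  have f2 := h3 s _ _ _ q b a (Nat.mul 2 d.Dm) 0 s0 s1 (hap q gq) (hap b gb) (hap a ga)
    (by show 2 * d.Dm ≤ _; omega) (by omega) (by rw [c2]; linarith) (by rw [c2]; linarith)
    (by
      have := norm_sub_le_norm_sub_add_norm_sub (V b.i) (V q.i) (V a.i)
      rw [norm_sub_rev (V b.i) (V q.i)] at this
      rw [c2]; linarith) e2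
  rw [Nat.cast_zero] at f1 f2
  refine ⟨fun v hv => ?_, by show k ≤ 3; omega, fun h => absurd (show k = 3 from h) (by omega),
    fun _ => ⟨gq, m, a, b, rfl, r1, r2, (mul_pos_iff_of_pos_left (by positivity)).1 f1,
      (mul_pos_iff_of_pos_left (by positivity)).1 f2⟩⟩
  simp only [List.mem_cons, List.not_mem_nil, or_false] at hv
  rcases hv with rfl | rfl | rfl <;> assumption

end Pool.Agent.MP_d23910_co.S7
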