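import Pool.Agent.MP_d23910_co.S7.Spec

/-! Cones over unit vectors: balls, slabs and the two nearness rules. -/

set_option autoImplicit false

namespace Pool.Agent.MP_d23910_co.S7

open scoped RealInnerProductSpace

namespace Geo1

theorem one_le {A : Set E} {F : Finset E} {α : E → ℝ} {x : E} (hA : ∀ a ∈ A, ‖a‖ = 1)
    (hF : ∀ a ∈ F, a ∈ A) (hα : ∀ a, 0 ≤ α a) (hx : x = ∑ a ∈ F, α a • a) (h1 : ‖x‖ = 1) :
    1 ≤ ∑ a ∈ F, α a := by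
  rw [← h1, hx]
  refine (norm_sum_le _ _).trans (Finset.sum_le_sum fun a ha => ?_)
  rw [norm_smul, hA a (hF a ha), mul_one, Real.norm_of_nonneg (hα a)]

theorem inn {F : Finset E} {α : E → ℝ} {x : E} (hx : x = ∑ a ∈ F, α a • a) (z : E) :
    ⟪x, z⟫ = ∑ a ∈ F, α a * ⟪a, z⟫ := by
  rw [hx, sum_inner]
  exact Finset.sum_congr rfl fun a _ => real_inner_smul_left _ _ _

theorem low {A : Set E} {F : Finset E} {α : E → ℝ} {x z : E} {t : ℝ}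
    (hF : ∀ a ∈ F, a ∈ A) (hα : ∀ a, 0 ≤ α a) (hx : x = ∑ a ∈ F, α a • a)
    (h : ∀ a ∈ A, t ≤ ⟪a, z⟫) : (∑ a ∈ F, α a) * t ≤ ⟪x, z⟫ := by
  rw [inn hx z, Finset.sum_mul]
  exact Finset.sum_le_sum fun a ha => mul_le_mul_of_nonneg_left (h a (hF a ha)) (hα a)

theorem key {A : Set E} {x z : E} {t : ℝ} (hA : ∀ a ∈ A, ‖a‖ = 1) (h1 : ‖x‖ = 1)
    (hc : Cone A x) (ht : 0 ≤ t) (h : ∀ a ∈ A, t ≤ ⟪a, z⟫) : t ≤ ⟪x, z⟫ := by
  obtain ⟨F, α, hF, hα, hx⟩ := hc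
  have h2 := one_le hA hF hα hx h1
  have h3 := low hF hα hx h
  nlinarith

theorem gram (x y n : E) : ⟪x, x⟫ * (⟪y, y⟫ * ⟪n, n⟫ - ⟪y, n⟫ ^ 2) -
    ⟪x, y⟫ * (⟪x, y⟫ * ⟪n, n⟫ - ⟪y, n⟫ * ⟪x, n⟫) +
    ⟪x, n⟫ * (⟪x, y⟫ * ⟪y, n⟫ - ⟪y, y⟫ * ⟪x, n⟫) = det3 x y n ^ 2 := by
  simp only [PiLp.inner_apply, Fin.sum_univ_three, det3, RCLike.inner_apply, conj_trivial]
  ring

theorem self_one {x : E} (h : ‖x‖ = 1) : ⟪x, x⟫ = 1 := by
  rw [real_inner_self_eq_norm_sq, h, one_pow]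

theorem le_one {x y : E} (hx : ‖x‖ = 1) (hy : ‖y‖ = 1) : ⟪x, y⟫ ≤ 1 := by
  have h := real_inner_le_norm x y
  rwa [hx, hy, mul_one] at h

theorem lt_one {x y : E} (hx : ‖x‖ = 1) (hy : ‖y‖ = 1) (h : x ≠ y) : ⟪x, y⟫ < 1 :=
  (inner_lt_one_iff_real_of_norm_eq_one hx hy).2 h

end Geo1

open Geo1

theorem ballg : BallS := by
  intro A z x ρ hA hz hρ h1 hc
  have h0 : 0 ≤ ρ := by
    obtain ⟨F, α, hF, hα, hx⟩ := hc
    have h2 := one_le hA hF hα hx h1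
    rcases F.eq_empty_or_nonempty with rfl | ⟨a, ha⟩
    · rw [Finset.sum_empty] at h2
      exact absurd h2 (by norm_num)
    · exact (norm_nonneg _).trans (hz a (hF a ha))
  have h3 : (1 + ‖z‖ ^ 2 - ρ ^ 2) / 2 ≤ ⟪x, z⟫ := by
    refine key hA h1 hc (by nlinarith [sq_nonneg ‖z‖]) fun a ha => ?_
    have h4 := (sq_le_sq₀ (norm_nonneg _) h0).2 (hz a ha)
    rw [norm_sub_sq_real, hA a ha] at h4
    linarith
  refine (sq_le_sq₀ (norm_nonneg _) h0).1 ?_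
  rw [norm_sub_sq_real, h1]
  linarith

theorem slabg : SlabS := by
  intro A B n x y N α β c hA hB hN hn hα hβ hc ha hb hlt hx hy cx cy
  have hX : α * N ≤ ⟪x, n⟫ := key hA hx cx (mul_nonneg hα hN.le) ha
  have hY : β * N ≤ -⟪y, n⟫ := by
    rw [← inner_neg_right]
    exact key hB hy cy (mul_nonneg hβ hN.le) fun u hu => by
      rw [inner_neg_right]; exact hb u hu
  by_contra hcon
  have ht : c ≤ ⟪x, y⟫ := not_lt.1 hcon
  have ht1 := le_one hx hy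
  have hg := gram x y n
  rw [self_one hx, self_one hy, real_inner_self_eq_norm_sq] at hg
  have hd := sq_nonneg (det3 x y n)
  have hn2 : ‖n‖ ^ 2 ≤ N ^ 2 := (sq_le_sq₀ (norm_nonneg _) hN.le).2 hn
  generalize ⟪x, n⟫ = X at *
  generalize ⟪y, n⟫ = Y at *
  generalize ⟪x, y⟫ = t at *
  generalize ‖n‖ ^ 2 = m at *
  have a0 : 0 ≤ α * N := mul_nonneg hα hN.le
  have b0 : 0 ≤ β * N := mul_nonneg hβ hN.le
  have e1 : (α * N) ^ 2 ≤ X ^ 2 := pow_le_pow_left₀ a0 hX 2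
  have e2 : (β * N) ^ 2 ≤ (-Y) ^ 2 := pow_le_pow_left₀ b0 hY 2
  have e3 : (α * N) * (β * N) ≤ X * -Y := mul_le_mul hX hY b0 (a0.trans hX)
  have e4 : c * ((α * N) * (β * N)) ≤ t * (X * -Y) :=
    mul_le_mul ht e3 (mul_nonneg a0 b0) (hc.trans ht)
  have e5 : c ^ 2 ≤ t ^ 2 := pow_le_pow_left₀ hc ht 2
  have e6 : t ^ 2 ≤ 1 := pow_le_one₀ (hc.trans ht) ht1
  have e7 : m * (1 - t ^ 2) ≤ N ^ 2 * (1 - c ^ 2) :=
    mul_le_mul hn2 (by linarith) (by linarith) (sq_nonneg N)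
  have e8 := mul_lt_mul_of_pos_left hlt (pow_pos hN 2)
  nlinarith

theorem n1 : N1S := by
  intro A x y c hA hc hx cx h
  refine ⟨key hA hx cx hc.le h, fun he => ?_⟩
  obtain ⟨F, α, hF, hα, hs⟩ := cx
  have h2 := one_le hA hF hα hs hx
  have h3 := low hF hα hs h
  have h4 : ∑ a ∈ F, α a = 1 := le_antisymm (by rw [he] at h3; nlinarith) h2
  by_contra hn
  have h5 : ∀ a ∈ F, ⟪a, x⟫ < 1 := fun a ha =>
    lt_one (hA a (hF a ha)) hx fun e => hn (e ▸ hF a ha)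
  have h6 : ∑ a ∈ F, α a * (1 - ⟪a, x⟫) = 0 := by
    simp only [mul_sub, mul_one, Finset.sum_sub_distrib]
    rw [h4, ← inn hs x, self_one hx, sub_self]
  have h7 := (Finset.sum_eq_zero_iff_of_nonneg fun a ha =>
    mul_nonneg (hα a) (sub_nonneg.2 (h5 a ha).le)).1 h6
  have h8 : ∑ a ∈ F, α a = 0 := Finset.sum_eq_zero fun a ha =>
    (mul_eq_zero.1 (h7 a ha)).resolve_right (sub_pos.2 (h5 a ha)).ne'
  rw [h8] at h4
  exact zero_ne_one h4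

theorem n2 : N2S := by
  intro a b q x y c β γ t ha hb hq hx hy hc haq hbq hβ hγ ht hs hxq hay hby
  have e : ∀ z : E, ⟪x, z⟫ = β * ⟪a, z⟫ + γ * ⟪b, z⟫ - t * ⟪q, z⟫ := fun z => by
    rw [hs, inner_sub_left, inner_add_left, real_inner_smul_left, real_inner_smul_left,
      real_inner_smul_left]
  have e1 := e q
  rw [haq, hbq, self_one hq] at e1
  have e2 := e y
  have e3 := mul_le_mul_of_nonneg_left hay hβ
  have e4 := mul_le_mul_of_nonneg_left hby hγ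
  have e5 := le_one hq hy
  have e6 : 0 ≤ t * (1 - ⟪q, y⟫) := mul_nonneg ht (sub_nonneg.2 e5)
  refine ⟨by nlinarith, fun he => ?_⟩
  have f1 : ⟪x, q⟫ = c := le_antisymm (by nlinarith) hxq
  refine ⟨f1, ?_⟩
  by_contra hn
  rw [not_or, not_or] at hn
  have g1 := lt_one hq hy fun h => hn.2.2 h.symm
  have g2 : t * (1 - ⟪q, y⟫) = 0 := le_antisymm (by nlinarith) e6
  have g3 : t = 0 := (mul_eq_zero.1 g2).resolve_right (sub_pos.2 g1).ne'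
  have g4 : β + γ = 1 := by
    rw [f1, g3] at e1
    exact mul_right_cancel₀ hc.ne' (by linarith)
  have g5 := lt_one ha hx fun h => hn.1 h.symm
  have g6 := lt_one hb hx fun h => hn.2.1 h.symm
  have g7 := e x
  rw [self_one hx, g3] at g7
  have g8 : 0 ≤ β * (1 - ⟪a, x⟫) := mul_nonneg hβ (sub_pos.2 g5).le
  have g9 : 0 ≤ γ * (1 - ⟪b, x⟫) := mul_nonneg hγ (sub_pos.2 g6).le
  have k1 : β = 0 :=
    (mul_eq_zero.1 (le_antisymm (by nlinarith) g8)).resolve_right (sub_pos.2 g5).ne'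
  have k2 : γ = 0 :=
    (mul_eq_zero.1 (le_antisymm (by nlinarith) g9)).resolve_right (sub_pos.2 g6).ne'
  rw [k1, k2] at g4
  norm_num at g4

end Pool.Agent.MP_d23910_co.S7
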