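import Pool.Agent.MP_d23910_co.S7.Spec

/-! Three separation rules on the unit sphere. -/

set_option autoImplicit false

namespace Pool.Agent.MP_d23910_co.S7

open scoped RealInnerProductSpace

namespace Geo2

theorem one_le {F : Finset E} {α : E → ℝ} {x : E} (hF : ∀ a ∈ F, ‖a‖ = 1) (hα : ∀ a, 0 ≤ α a)
    (hx : ‖x‖ = 1) (e : x = ∑ a ∈ F, α a • a) : 1 ≤ ∑ a ∈ F, α a := by
  rw [← hx, e]
  refine (norm_sum_le _ _).trans (le_of_eq (Finset.sum_congr rfl fun a ha => ?_))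
  rw [norm_smul, hF a ha, mul_one, Real.norm_of_nonneg (hα a)]

theorem sub_eq {F : Finset E} {α : E → ℝ} {x : E} (e : x = ∑ a ∈ F, α a • a) (p : E) :
    x - (∑ a ∈ F, α a) • p = ∑ a ∈ F, α a • (a - p) := by
  rw [e, Finset.sum_smul, ← Finset.sum_sub_distrib]
  exact Finset.sum_congr rfl fun a _ => (smul_sub _ _ _).symm

theorem lin1 {F : Finset E} {α : E → ℝ} {x : E} (e : x = ∑ a ∈ F, α a • a) (p n : E) :
    ⟪x, n⟫ - (∑ a ∈ F, α a) * ⟪p, n⟫ = ∑ a ∈ F, α a * ⟪a - p, n⟫ := by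
  rw [← real_inner_smul_left, ← inner_sub_left, sub_eq e, sum_inner]
  exact Finset.sum_congr rfl fun a _ => real_inner_smul_left _ _ _

theorem bil {F G : Finset E} {α β : E → ℝ} {x y : E} (e : x = ∑ a ∈ F, α a • a)
    (e' : y = ∑ u ∈ G, β u • u) (p q : E) :
    ⟪x, y⟫ - (∑ u ∈ G, β u) * ⟪x, q⟫ - (∑ a ∈ F, α a) * ⟪y, p⟫ +
      (∑ a ∈ F, α a) * (∑ u ∈ G, β u) * ⟪p, q⟫ =
      ∑ a ∈ F, ∑ u ∈ G, α a * (β u * ⟪a - p, u - q⟫) := by
  have h1 : ⟪x - (∑ a ∈ F, α a) • p, y - (∑ u ∈ G, β u) • q⟫ =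
      ∑ a ∈ F, ∑ u ∈ G, α a * (β u * ⟪a - p, u - q⟫) := by
    rw [sub_eq e, sub_eq e', sum_inner]
    refine Finset.sum_congr rfl fun a _ => ?_
    rw [inner_sum]
    refine Finset.sum_congr rfl fun u _ => ?_
    rw [real_inner_smul_left, real_inner_smul_right]
  rw [← h1, inner_sub_left, inner_sub_right, inner_sub_right, real_inner_smul_left,
    real_inner_smul_right, real_inner_smul_left, real_inner_smul_right, real_inner_comm y p]
  ring

theorem single {F : Finset E} {α : E → ℝ} {x p : E} (hα : ∀ a, 0 ≤ α a) (hx : ‖x‖ = 1)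
    (hp : ‖p‖ = 1) (e : x = ∑ a ∈ F, α a • a) (h : ∀ a ∈ F, α a ≠ 0 → a = p) : x = p := by
  have h1 : x = (∑ a ∈ F, α a) • p := by
    rw [← sub_eq_zero, sub_eq e]
    refine Finset.sum_eq_zero fun a ha => ?_
    by_cases h0 : α a = 0
    · rw [h0, zero_smul]
    · rw [h a ha h0, sub_self, smul_zero]
  have h2 := congrArg norm h1
  rw [norm_smul, hx, hp, mul_one, Real.norm_of_nonneg (Finset.sum_nonneg fun a _ => hα a)] at h2
  rw [h1, ← h2, one_smul]

theorem in_le {x y : E} (hx : ‖x‖ = 1) (hy : ‖y‖ = 1) : ⟪x, y⟫ ≤ 1 := by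
  have := real_inner_le_norm x y
  rwa [hx, hy, mul_one] at this

theorem in_self {x : E} (hx : ‖x‖ = 1) : ⟪x, x⟫ = 1 := by
  rw [real_inner_self_eq_norm_sq, hx, one_pow]

end Geo2

open Geo2

theorem bandg : BandS := by
  intro A B p q x y c hA hB hp hq hc hc1 h1 h2 hx hy ⟨F, α, hF, hα, e⟩ ⟨G, β, hG, hβ, e'⟩ hxy
  have wx := one_le (fun a ha => hA a (hF a ha)) hα hx e
  have wy := one_le (fun a ha => hB a (hG a ha)) hβ hy e'
  have l1 := lin1 e p (q - p)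
  have l2 := lin1 e' q (p - q)
  have s1 : ∑ a ∈ F, α a * ⟪a - p, q - p⟫ ≤ 0 := Finset.sum_nonpos fun a ha => by
    rcases h1 a (hF a ha) with h | h
    · rw [h, sub_self, inner_zero_left, mul_zero]
    · exact mul_nonpos_of_nonneg_of_nonpos (hα a) h.le
  have t2 : ∀ u ∈ G, β u * ⟪u - q, p - q⟫ ≤ 0 := fun u hu => by
    rcases h2 u (hG u hu) with h | h
    · rw [h, sub_self, inner_zero_left, mul_zero]
    · exact mul_nonpos_of_nonneg_of_nonpos (hβ u) h.le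
  have cs : 0 ≤ ⟪y - x - (q - p), y - x - (q - p)⟫ := real_inner_self_nonneg
  have hqp : ⟪q, p⟫ = c := by rw [real_inner_comm, hc]
  have hyx : ⟪y, x⟫ = c := by rw [real_inner_comm, hxy]
  simp only [inner_sub_left, inner_sub_right, in_self hx, in_self hy, in_self hp, in_self hq, hc,
    hqp, hxy, hyx, real_inner_comm x q, real_inner_comm x p, real_inner_comm y q,
    real_inner_comm y p] at cs
  rw [inner_sub_right x, inner_sub_right p, hc, in_self hp] at l1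
  rw [inner_sub_right y, inner_sub_right q, hqp, in_self hq] at l2
  have s2 : ∑ u ∈ G, β u * ⟪u - q, p - q⟫ = 0 := by
    refine le_antisymm (Finset.sum_nonpos t2) ?_
    have m1 := mul_nonneg (sub_nonneg.2 wx) (sub_nonneg.2 hc1.le)
    have m2 := mul_nonneg (sub_nonneg.2 wy) (sub_nonneg.2 hc1.le)
    nlinarith
  refine single hβ hy hq e' fun u hu h0 => ?_
  rcases h2 u (hG u hu) with h | h
  · exact h
  · exact absurd ((Finset.sum_eq_zero_iff_of_nonpos t2).1 s2 u hu) (mul_ne_zero h0 h.ne)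

theorem wedgeg : WedgeS := by
  intro A B q x y c hA hB hq h hx hy ⟨F, α, hF, hα, e⟩ ⟨G, β, hG, hβ, e'⟩ hc hxy
  have wx := one_le (fun a ha => hA a (hF a ha)) hα hx e
  have wy := one_le (fun a ha => hB a (hG a ha)) hβ hy e'
  have b := bil e e' q q
  have s : ∑ a ∈ F, ∑ u ∈ G, α a * (β u * ⟪a - q, u - q⟫) ≤ 0 :=
    Finset.sum_nonpos fun a ha => Finset.sum_nonpos fun u hu =>
      mul_nonpos_of_nonneg_of_nonpos (hα a)
        (mul_nonpos_of_nonneg_of_nonpos (hβ u) (h a (hF a ha) u (hG u hu)))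
  rw [in_self hq, hxy] at b
  have m1 := mul_nonneg (sub_nonneg.2 wy) (sub_nonneg.2 (in_le hx hq))
  have m2 := mul_nonneg (sub_nonneg.2 wx) (sub_nonneg.2 (in_le hy hq))
  have m3 := mul_nonneg (sub_nonneg.2 wx) (sub_nonneg.2 wy)
  have m4 := in_le hy hq
  refine ⟨(inner_eq_one_iff_of_norm_eq_one (𝕜 := ℝ) hy hq).1 ?_, ?_⟩
  · nlinarith
  · nlinarith

theorem dblg : DblS := by
  intro A B p q x y c hA hB hp hq hc hc0 h hx hy ⟨F, α, hF, hα, e⟩ ⟨G, β, hG, hβ, e'⟩ h1 h2 hxy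
  have wx := one_le (fun a ha => hA a (hF a ha)) hα hx e
  have wy := one_le (fun a ha => hB a (hG a ha)) hβ hy e'
  have b := bil e e' p q
  have t : ∀ a ∈ F, ∀ u ∈ G, α a * (β u * ⟪a - p, u - q⟫) ≤ 0 := fun a ha u hu => by
    refine mul_nonpos_of_nonneg_of_nonpos (hα a) (mul_nonpos_of_nonneg_of_nonpos (hβ u) ?_)
    rcases h a (hF a ha) u (hG u hu) with h | h | h
    · rw [h, sub_self, inner_zero_left]
    · rw [h, sub_self, inner_zero_right]
    · exact h.le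
  have t' : ∀ a ∈ F, ∑ u ∈ G, α a * (β u * ⟪a - p, u - q⟫) ≤ 0 := fun a ha =>
    Finset.sum_nonpos (t a ha)
  rw [hc, hxy] at b
  have s : ∑ a ∈ F, ∑ u ∈ G, α a * (β u * ⟪a - p, u - q⟫) = 0 := by
    refine le_antisymm (Finset.sum_nonpos t') ?_
    have m1 := mul_nonneg (zero_le_one.trans wy) (sub_nonneg.2 h1)
    have m2 := mul_nonneg (zero_le_one.trans wx) (sub_nonneg.2 h2)
    have m3 := mul_nonneg hc0 (mul_nonneg (sub_nonneg.2 wx) (sub_nonneg.2 wy))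
    nlinarith
  by_contra hn
  rw [not_or] at hn
  obtain ⟨a, ha, ha0, hap⟩ : ∃ a ∈ F, α a ≠ 0 ∧ a ≠ p := by
    by_contra hk
    refine hn.1 (single hα hx hp e fun a ha h0 => ?_)
    by_contra hap
    exact hk ⟨a, ha, h0, hap⟩
  obtain ⟨u, hu, hu0, huq⟩ : ∃ u ∈ G, β u ≠ 0 ∧ u ≠ q := by
    by_contra hk
    refine hn.2 (single hβ hy hq e' fun u hu h0 => ?_)
    by_contra huq
    exact hk ⟨u, hu, h0, huq⟩
  have z := (Finset.sum_eq_zero_iff_of_nonpos (t a ha)).1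
    ((Finset.sum_eq_zero_iff_of_nonpos t').1 s a ha) u hu
  rcases h a (hF a ha) u (hG u hu) with h | h | h
  · exact hap h
  · exact huq h
  · exact mul_ne_zero ha0 (mul_ne_zero hu0 h.ne) z

end Pool.Agent.MP_d23910_co.S7
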