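import Pool.Agent.MP_d23910_co.S7.Spec

/-! A group of rules separates two clusters. -/

set_option autoImplicit false

namespace Pool.Agent.MP_d23910_co.S7

open scoped RealInnerProductSpace

namespace Grp

theorem ones_bit (n i : ℕ) : (ones n).testBit i = decide (i < n) := by
  have : ones n = 2 ^ n - 1 := congrArg (· - 1) (Nat.one_shiftLeft n)
  rw [this, Nat.testBit_two_pow_sub_one]

theorem fld_bit (x p m i : ℕ) : (fld x p m).testBit i = (x.testBit (p + i) && m.testBit i) := by
  have : fld x p m = (x >>> p) &&& m := rfl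
  rw [this, Nat.testBit_and, Nat.testBit_shiftRight]

theorem row_bit (a b : Cl) (i j : ℕ) (g : List ℕ) (h : (row a b i g).testBit j = true) :
    ∃ x ∈ g, x.testBit (4 + i) = true ∧ (mskB a b x).testBit j = true := by
  induction g with
  | nil => exact absurd h (by rw [show row a b i [] = 0 from rfl]; simp)
  | cons x t ih =>
    have e : row a b i (x :: t) = cnd (Nat.beq (fld x (4 + i) 1) 0) (row a b i t)
      (mskB a b x ||| row a b i t) := rfl
    have r : (row a b i t).testBit j = true → ∃ y ∈ x :: t, y.testBit (4 + i) = true ∧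
        (mskB a b y).testBit j = true := fun h =>
      let ⟨y, hy, h'⟩ := ih h
      ⟨y, List.mem_cons_of_mem _ hy, h'⟩
    rw [e, cnd_beq] at h
    split_ifs at h with h0
    · exact r h
    · rw [Nat.testBit_or, Bool.or_eq_true] at h
      refine h.elim (fun h => ⟨x, List.mem_cons_self, ?_, h⟩) r
      have h1 := fld_bit x (4 + i) 1 0
      have h2 : fld x (4 + i) 1 = 1 := by have := fld_le x (4 + i) 1; omega
      rw [h2] at h1
      simpa using h1.symm

theorem sep_symm {d : Dat} {s : ℝ} {V : ℕ → E} {p p' : Pc} (h : Sep d s V p p') :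
    Sep d s V p' p := fun x y hx hy => by rw [real_inner_comm]; exact h y x hy hx

end Grp

open Grp in
theorem grp_ok (h0 : Sound slab) (h1 : Sound band) (h2 : Sound wedge) (h3 : Sound dbl) : GrpS := by
  have hr : ∀ k, Sound fun d => rule1 d k := fun k d s V A B mA mB w hW hA hB h => by
    simp only [rule1, cnd_beq] at h
    split_ifs at h
    exacts [h0 d s V A B mA mB w hW hA hB h, h1 d s V A B mA mB w hW hA hB h,
      h2 d s V A B mA mB w hW hA hB h, h3 d s V A B mA mB w hW hA hB h]
  intro d s V a b g hW ha hb h p hp p' hp'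
  rw [grp, an_eq, Bool.and_eq_true, allL_iff, allN_iff] at h
  obtain ⟨i, hi⟩ := List.mem_iff_getElem?.1 hp
  obtain ⟨j, hj⟩ := List.mem_iff_getElem?.1 hp'
  have li : i < a.np := ha.2.1 ▸ (List.getElem?_eq_some_iff.1 hi).1
  have lj : j < b.np := hb.2.1 ▸ (List.getElem?_eq_some_iff.1 hj).1
  obtain ⟨x, hx, b1, b2⟩ := row_bit a b i j g (by
    rw [(beq_iff _ _).1 (h.2 i li), ones_bit]; exact decide_eq_true lj)
  have b3 : (mskA a x).testBit i = true := by
    rw [mskA, fld_bit, b1, ones_bit, decide_eq_true li]; rfl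
  have h4 := h.1 x hx
  simp only [rule, force_eq, cnd_beq] at h4
  split_ifs at h4
  · exact hr _ d s V _ _ _ _ _ hW ha.1 hb.1 h4 i j p p' hi hj b3 b2
  · exact sep_symm (hr _ d s V _ _ _ _ _ hW hb.1 ha.1 h4 j i p' p hj hi b2 b3)

end Pool.Agent.MP_d23910_co.S7
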