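import Pool.Agent.MP_d23910_co.S7.Spec

/-! Numbers with two digits and the parameters of a certificate. -/

set_option autoImplicit false

namespace Pool.Agent.MP_d23910_co.S7

open scoped RealInnerProductSpace

theorem BB_pos : 0 < BB := by norm_num [BB]

theorem dig {x : ℕ} (y : ℕ) (h : x < BB) :
    Nat.add x (Nat.mul y BB) % BB = x ∧ Nat.add x (Nat.mul y BB) / BB = y := by
  change (x + y * BB) % BB = x ∧ (x + y * BB) / BB = y
  rw [Nat.add_mul_mod_self_right, Nat.add_mul_div_right _ _ BB_pos, Nat.mod_eq_of_lt h,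
    Nat.div_eq_of_lt h, zero_add]
  exact ⟨rfl, rfl⟩

theorem val_dig (s : ℝ) {x : ℕ} (y : ℕ) (h : x < BB) :
    val s (Nat.add x (Nat.mul y BB)) = (1 - s) * x + s * y := by
  rw [val, (dig y h).1, (dig y h).2]

theorem lin_dig {x y M : ℕ} (h : x < BB) (h' : x + y ≤ M) : Lin (Nat.add x (Nat.mul y BB)) M := by
  rw [Lin, (dig y h).1, (dig y h).2]
  exact h'

theorem val_add (s : ℝ) {X Y M M' : ℕ} (h : Lin X M) (h' : Lin Y M') (hM : M + M' < BB) :
    val s (Nat.add X Y) = val s X + val s Y ∧ Lin (Nat.add X Y) (M + M') := by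
  have e : Nat.add X Y = Nat.add (X % BB + Y % BB) (Nat.mul (X / BB + Y / BB) BB) := by
    change X + Y = X % BB + Y % BB + (X / BB + Y / BB) * BB
    have h1 := Nat.mod_add_div X BB
    have h2 := Nat.mod_add_div Y BB
    linarith
  rw [Lin] at h h'
  have h1 : X % BB + Y % BB < BB :=
    (Nat.add_le_add ((Nat.le_add_right _ _).trans h) ((Nat.le_add_right _ _).trans h')).trans_lt hM
  rw [e, val_dig s _ h1]
  exact ⟨by simp only [val, Nat.cast_add]; ring, lin_dig h1 (by omega)⟩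

theorem val_mul (s : ℝ) {n X M : ℕ} (h : Lin X M) (hM : n * M < BB) :
    val s (Nat.mul n X) = n * val s X ∧ Lin (Nat.mul n X) (n * M) := by
  have e : Nat.mul n X = Nat.add (n * (X % BB)) (Nat.mul (n * (X / BB)) BB) := by
    change n * X = n * (X % BB) + n * (X / BB) * BB
    conv_lhs => rw [← Nat.mod_add_div X BB]
    ring
  have h0 : n * (X % BB) + n * (X / BB) ≤ n * M := by
    rw [← mul_add]; exact Nat.mul_le_mul_left n h
  have h1 : n * (X % BB) < BB := by omega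
  rw [e, val_dig s _ h1]
  exact ⟨by simp only [val, Nat.cast_mul]; ring, lin_dig h1 h0⟩

theorem val_H1 (s : ℝ) {n : ℕ} (h : n < BB) :
    val s (Nat.mul n H1) = n ∧ Lin (Nat.mul n H1) (2 * n) := by
  have e : Nat.mul n H1 = Nat.add n (Nat.mul n BB) := by
    change n * H1 = n + n * BB
    rw [H1_eq]; ring
  rw [e, val_dig s _ h]
  exact ⟨by ring, lin_dig h (by omega)⟩

theorem lin_lin (w p : ℕ) : Lin (lin w p) (2 ^ 25) := by
  have h1 := fld_le w p 16777215
  have h2 := fld_le w (Nat.add p 24) 16777215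
  exact lin_dig (h1.trans_lt (by norm_num [BB])) (by omega)

theorem lins : LinS := by
  have h8 : 8388608 < BB := by norm_num [BB]
  refine ⟨fun s x y h => val_dig s y h, fun x y M h h' => lin_dig h h',
    fun s X Y M M' => val_add s, fun s n X M => val_mul s, fun s n => val_H1 s,
    fun s X h0 h1 => ?_, fun X Y Z M hX hY hZ => ⟨rfl, hX, hY, hZ⟩, fun s a b M ha hb hM => ?_,
    ⟨rfl, (val_H1 0 h8).2, (val_H1 0 h8).2, (val_H1 0 h8).2⟩, fun s => ?_, fun d j => ?_⟩
  · rw [lo2, hi2, cnd_ble, cnd_ble, val]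
    change ((if X % BB ≤ X / BB then X % BB else X / BB : ℕ) : ℝ) ≤ _ ∧
      _ ≤ ((if X % BB ≤ X / BB then X / BB else X % BB : ℕ) : ℝ)
    split_ifs with h
    · have h2 : ((X % BB : ℕ) : ℝ) ≤ (X / BB : ℕ) := Nat.cast_le.2 h
      constructor <;> nlinarith
    · have h2 : ((X / BB : ℕ) : ℝ) ≤ (X % BB : ℕ) := Nat.cast_le.2 (not_le.1 h).le
      constructor <;> nlinarith
  · rw [two_mul] at hM ⊢
    have hX := val_add s ha.2.1 hb.2.1 hM
    have hY := val_add s ha.2.2.1 hb.2.2.1 hM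
    have hZ := val_add s ha.2.2.2 hb.2.2.2 hM
    refine ⟨⟨rfl, hX.2, hY.2, hZ.2⟩, ?_⟩
    ext i
    fin_cases i
    exacts [hX.1, hY.1, hZ.1]
  · ext i
    fin_cases i <;> exact (val_H1 s h8).1
  · simp only [vx, getV, force_eq, id]
    exact ⟨rfl, lin_lin _ _, lin_lin _ _, lin_lin _ _⟩

theorem pars : ParS := by
  rintro d s h0 h1 ⟨p1, p2, p3, p4, p5, p6, p7, p8, p9⟩
  have hB : d.D0 < BB := p6.trans_lt (by norm_num [BB])
  have q5 : (262144 : ℝ) ≤ d.D0 := by exact_mod_cast p5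
  have q6 : (d.D0 : ℝ) ≤ 4900000 := by exact_mod_cast p6
  have q7 : (262144 : ℝ) ≤ d.D1 := by exact_mod_cast p7
  have q8 : (d.D1 : ℝ) ≤ 4900000 := by exact_mod_cast p8
  have e : 4194304 * d.dd s = (1 - s) * d.D0 + s * d.D1 := by rw [Dat.dd]; ring
  have l1 : 1 / 16 ≤ d.dd s := by nlinarith
  have l2 : d.dd s ≤ 117 / 100 := by nlinarith
  refine ⟨by rw [e]; exact val_dig s _ hB, lin_dig hB (by omega), ?_, ?_, l1, l2,
    by rw [Dat.cc]; nlinarith, by rw [Dat.cc]; nlinarith,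
    fun j => ⟨by rw [vx_i]; exact Nat.mod_lt _ (by omega), by rw [vx_i, vx_mod]⟩,
    fun x y hx hy => ?_⟩
  · rw [e, Dat.Dm, cnd_ble]
    split_ifs with h
    · have : (d.D0 : ℝ) ≤ d.D1 := Nat.cast_le.2 h
      nlinarith
    · have : (d.D1 : ℝ) ≤ d.D0 := Nat.cast_le.2 (not_le.1 h).le
      nlinarith
  · rw [Dat.Dm, cnd_ble]
    split_ifs <;> assumption
  · have h2 := norm_sub_sq_real x y
    have h3 := norm_nonneg (x - y)
    rw [hx, hy] at h2
    rw [Dat.cc]
    refine ⟨fun h => by nlinarith, fun h => by nlinarith, fun h => ?_, fun h => by rw [← h]; linarith⟩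
    exact (pow_left_inj₀ h3 (by linarith) two_ne_zero).1 (by linarith)

end Pool.Agent.MP_d23910_co.S7
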