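import Pool.Agent.MP_d23910_co.S7.Spec

/-! Row MAIN: an accepted certificate gives a colouring with seven colours. -/

set_option autoImplicit false

namespace Pool.Agent.MP_d23910_co.S7

open scoped RealInnerProductSpace

namespace MainR

theorem chkV_spec {d : Dat} (h : chkV d = true) :
    d.Par ∧ allN (chkV1 d) d.nV = true ∧ allN (chkA1 d) d.nA = true := by
  simp only [chkV, an_eq, Bool.and_eq_true, ble_iff, blt_iff] at h
  obtain ⟨⟨⟨⟨a1, a2⟩, a3, a4⟩, ⟨⟨a5, a6⟩, a7, a8⟩, a9⟩, b1, b2⟩ := h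
  exact ⟨⟨a1, a2, a3, a4, a5, a6, a7, a8, a9⟩, b1, b2⟩

theorem exists_s (d : Dat) {r : ℝ} (hr : 0 < r) (h1 : (d.D1 : ℝ) * r < 4194304)
    (h0 : 4194304 ≤ (d.D0 : ℝ) * r) : ∃ s : ℝ, 0 ≤ s ∧ s < 1 ∧ d.dd s = r⁻¹ := by
  have a1 : (d.D1 : ℝ) < 4194304 / r := (lt_div_iff₀ hr).2 h1
  have a0 : 4194304 / r ≤ (d.D0 : ℝ) := (div_le_iff₀ hr).2 h0
  have a2 : (0 : ℝ) < d.D0 - d.D1 := by linarith
  refine ⟨(d.D0 - 4194304 / r) / (d.D0 - d.D1), div_nonneg (by linarith) a2.le,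
    (div_lt_one a2).2 (by linarith), ?_⟩
  unfold Dat.dd
  field_simp
  ring

theorem norm_scale {r : ℝ} (hr : 0 < r) (x : Metric.sphere (0 : E) r) :
    ‖r⁻¹ • (x : E)‖ = 1 := by
  rw [norm_smul, norm_eq_of_mem_sphere, Real.norm_of_nonneg (inv_nonneg.2 hr.le),
    inv_mul_cancel₀ hr.ne']

end MainR

open MainR in
theorem mainS (h1 : ExS) (h2 : ArcS) (h3 : ClS) (h4 : OwnS) (h5 : ScanS) (h6 : AllS)
    (h7 : ParS) : MainS := by
  intro d ls hl hV hC hE r hr r1 r0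
  obtain ⟨hP, v1, v2⟩ := chkV_spec hV
  obtain ⟨s, s0, s1, hs⟩ := exists_s d hr r1 r0
  obtain ⟨V, hW⟩ := h1 d s s0 s1 hP v1
  have hA := h2 d s V hW v2
  have hG := (h3 d s V hW hA).1
  have hS : ∀ l ∈ ls, (∀ c ∈ l.map (cl d), chkCl d c = true) ∧ ∀ a ∈ l.map (cl d),
      ∀ b ∈ l.map (cl d), ∀ p ∈ a.ps, ∀ p' ∈ b.ps, Sep d s V p p' := fun l hm => by
    refine h5 d s V _ hW (fun c hc => ?_) ((getCs_eq d l (chkL d)).symm.trans (hC l hm))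
    obtain ⟨a, -, rfl⟩ := List.mem_map.1 hc
    exact hG a
  have hF : ∀ p ∈ allPs d ls, p.k = 0 → FanL V (p.L.map Vx.i) := fun p hp => by
    obtain ⟨l, hm, hp⟩ := List.mem_flatMap.1 hp
    obtain ⟨a, ha, hp⟩ := List.mem_flatMap.1 hp
    exact (h4 d s V _ hW (hG a) ((hS l hm).1 _ (List.mem_map_of_mem ha))).2.2.1 p hp
  have hx : ∀ x : Metric.sphere (0 : E) r, ∃ i : Fin ls.length, ∃ a ∈ ls[i], ∃ p ∈ (cl d a).ps,
      p.mem d s V (r⁻¹ • (x : E)) := fun x => by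
    obtain ⟨p, hp, hm⟩ := h6 d s V ls hW hA hF hE _ (norm_scale hr x)
    obtain ⟨l, hl, hp1⟩ := List.mem_flatMap.1 hp
    obtain ⟨a, ha, hp2⟩ := List.mem_flatMap.1 hp1
    obtain ⟨i, hi, rfl⟩ := List.getElem_of_mem hl
    exact ⟨⟨i, hi⟩, a, ha, p, hp2, hm⟩
  choose c hc using hx
  rw [← hl]
  refine ⟨SimpleGraph.Coloring.mk c fun {x y} hxy he => ?_⟩
  have hd : dist (x : E) (y : E) = 1 := by
    rcases ((SimpleGraph.fromRel_adj _ x y).1 hxy).2 with h | h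
    · exact h
    · rw [dist_comm]; exact h
  obtain ⟨a, ha, p, hp, hm⟩ := hc x
  obtain ⟨b, hb, p', hp', hm'⟩ := hc y
  rw [← he] at hb
  refine (hS _ (List.getElem_mem (c x).2)).2 _ (List.mem_map_of_mem ha) _ (List.mem_map_of_mem hb)
    p hp p' hp' _ _ hm hm' ?_
  refine ((h7 d s s0 s1 hP).2.2.2.2.2.2.2.2.2 _ _ (norm_scale hr x) (norm_scale hr y)).2.2.2 ?_
  rw [← smul_sub, norm_smul, ← dist_eq_norm, hd, hs, Real.norm_of_nonneg (inv_nonneg.2 hr.le),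
    mul_one]

end Pool.Agent.MP_d23910_co.S7
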