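import Pool.Agent.MP_d23910_co.S7.Spec

/-! Soundness of the two distance tests. -/

set_option autoImplicit false

namespace Pool.Agent.MP_d23910_co.S7

open scoped RealInnerProductSpace

theorem nearp_dt (h : RepS) {s : ℝ} (s0 : 0 ≤ s) (s1 : s < 1) {a b : P3} {M : ℕ} (ha : a.Ok M)
    (hb : b.Ok M) : Rep s 2 (dt a b)
      (val s a.X * val s b.X + val s a.Y * val s b.Y + val s a.Z * val s b.Z)
      (M * M + M * M + M * M) := by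
  obtain ⟨-, r1, -, ra, rm, -⟩ := h s s0 s1
  exact ra _ _ _ _ _ _ _ (ra _ _ _ _ _ _ _
    (rm 1 1 _ _ _ _ _ _ (r1 _ _ ha.2.1) (r1 _ _ hb.2.1))
    (rm 1 1 _ _ _ _ _ _ (r1 _ _ ha.2.2.1) (r1 _ _ hb.2.2.1)))
    (rm 1 1 _ _ _ _ _ _ (r1 _ _ ha.2.2.2) (r1 _ _ hb.2.2.2))

theorem nearp_N (h : RepS) {s : ℝ} (s0 : 0 ≤ s) (s1 : s < 1) {a : P3} {M : ℕ} (ha : a.Ok M) :
    Rep s 2 a.N (val s a.X * val s a.X + val s a.Y * val s a.Y + val s a.Z * val s a.Z)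
      (M * M + M * M + M * M) := by
  rw [ha.1]
  exact nearp_dt h s0 s1 ha ha

theorem nearp_sq (s : ℝ) (a b : P3) : ‖a.v s - b.v s‖ ^ 2 =
    (val s a.X - val s b.X) ^ 2 + (val s a.Y - val s b.Y) ^ 2 + (val s a.Z - val s b.Z) ^ 2 := by
  rw [EuclideanSpace.norm_sq_eq, Fin.sum_univ_three]
  simp [P3.v]

theorem nearp_val {s : ℝ} (s0 : 0 ≤ s) (s1 : s < 1) (T : ℕ) : 0 ≤ val s T :=
  add_nonneg (mul_nonneg (by linarith) (Nat.cast_nonneg _)) (mul_nonneg s0 (Nat.cast_nonneg _))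

theorem nearp_lin (h : RepS) {s : ℝ} (s0 : 0 ≤ s) (s1 : s < 1) {e T : ℕ} (he : e ≤ 2 ^ 20)
    (hT : Lin T (2 ^ 30)) : Rep s 2 (Nat.mul (Nat.mul (Nat.mul 2 e) H1) T)
      (2 * e * 1 * val s T) (2 ^ 52) := by
  obtain ⟨r0, r1, rw', -, rm, q1, -⟩ := h s s0 s1
  have h1 := rm 1 1 _ _ _ _ _ _ (rm 0 1 _ _ _ _ _ _ (rm 0 0 _ _ _ _ _ _ (r0 2) (r0 e)) q1)
    (r1 _ _ hT)
  rw [Nat.cast_ofNat] at h1
  exact rw' _ _ _ _ _ h1 (by omega)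

theorem nearp_two (h : RepS) {s : ℝ} (s0 : 0 ≤ s) (s1 : s < 1) {a b : P3} {T : ℕ}
    (ha : a.Ok (2 ^ 27)) (hb : b.Ok (2 ^ 27)) (hT : Lin T (2 ^ 30)) :
    Rep s 2 (Nat.add (Nat.mul 2 (dt a b)) (Nat.mul T T))
      (2 * (val s a.X * val s b.X + val s a.Y * val s b.Y + val s a.Z * val s b.Z) +
        val s T * val s T) (2 ^ 61) := by
  have hd := nearp_dt h s0 s1 ha hb
  obtain ⟨r0, r1, rw', ra, rm, -⟩ := h s s0 s1
  have h1 := ra 2 _ _ _ _ _ _ (rm 0 2 _ _ _ _ _ _ (r0 2) hd)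
    (rm 1 1 _ _ _ _ _ _ (r1 _ _ hT) (r1 _ _ hT))
  rw [Nat.cast_ofNat] at h1
  exact rw' _ _ _ _ _ h1 (by norm_num)

theorem nearp (h : RepS) : NearS := by
  intro s a b e T s0 s1 ha hb he hT hn
  have h1 := nearp_two h s0 s1 ha hb hT
  have h2 := nearp_lin h s0 s1 he hT
  have h3 := nearp_N h s0 s1 ha
  have h4 := nearp_N h s0 s1 hb
  obtain ⟨-, -, -, ra, -, -, q2, -, ge⟩ := h s s0 s1
  have h5 := ge 2 _ _ _ _ _ _ (by norm_num) h1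
    (ra _ _ _ _ _ _ _ (ra _ _ _ _ _ _ _ (ra _ _ _ _ _ _ _ h3 h4) h2) q2) (by norm_num)
    (by norm_num) hn
  have h6 := nearp_sq s a b
  have h7 := nearp_val s0 s1 T
  have h8 := norm_nonneg (a.v s - b.v s)
  have h9 : (0 : ℝ) ≤ e := Nat.cast_nonneg e
  have h10 : ‖a.v s - b.v s‖ ^ 2 + 2 * e * val s T + 1 ≤ val s T ^ 2 := by
    rw [h6]; linarith
  generalize ‖a.v s - b.v s‖ = n at h8 h10 ⊢
  generalize val s T = t at h7 h10 ⊢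
  have h11 : 2 * (e : ℝ) < t := by
    by_contra hc
    nlinarith [mul_le_mul_of_nonneg_right (not_lt.1 hc) h7]
  by_contra hc
  have h12 : t - e ≤ n := by linarith
  nlinarith [mul_self_le_mul_self (by linarith : 0 ≤ t - e) h12]

theorem farp (h : RepS) : FarS := by
  intro s a b m T s0 s1 ha hb hm hT hn
  have h1 := nearp_two h s0 s1 ha hb hT
  have h2 := nearp_lin h s0 s1 hm hT
  have h3 := nearp_N h s0 s1 ha
  have h4 := nearp_N h s0 s1 hb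
  obtain ⟨r0, -, rw', ra, rm, -, q2, -, ge⟩ := h s s0 s1
  have h0 : Rep s 2 (Nat.mul (Nat.mul m m) H2) (m * m * 1) (2 ^ 42) :=
    rw' _ _ _ _ _ (rm 0 2 _ _ _ _ _ _ (rm 0 0 _ _ _ _ _ _ (r0 m) (r0 m)) q2)
      (by have := Nat.mul_le_mul hm hm; omega)
  have h5 := ge 2 _ _ _ _ _ _ (by norm_num) (ra _ _ _ _ _ _ _ (ra _ _ _ _ _ _ _ h3 h4) h2)
    (ra _ _ _ _ _ _ _ h1 h0) (by norm_num) (by norm_num) hn
  have h6 := nearp_sq s a b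
  have h10 : (val s T - m) ^ 2 ≤ ‖a.v s - b.v s‖ ^ 2 := by
    rw [h6]; linarith
  exact (abs_le_of_sq_le_sq' h10 (norm_nonneg _)).2

end Pool.Agent.MP_d23910_co.S7
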