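import Pool.Agent.MP_d23910_co.S7.Spec

/-!
The check of a single cluster.
-/

set_option autoImplicit false

namespace Pool.Agent.MP_d23910_co.S7

open scoped RealInnerProductSpace

namespace OwnAux

theorem ok_mono {a : P3} {M M' : ℕ} (h : a.Ok M) (hM : M ≤ M') : a.Ok M' :=
  ⟨h.1, le_trans h.2.1 hM, le_trans h.2.2.1 hM, le_trans h.2.2.2 hM⟩

theorem nv_ne {p : Pc} (h : p.k ≠ 2) : p.nv = p.L := by
  unfold Pc.nv
  rw [cnd_beq, if_neg h]

theorem nv_two {p : Pc} {m a b : Vx} (h : p.k = 2) (hL : p.L = [m, a, b]) : p.nv = [a, b] := by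
  unfold Pc.nv
  rw [cnd_beq, if_pos h, hL]

theorem nv_sub (p : Pc) {v : Vx} (h : v ∈ p.nv) : v ∈ p.L := by
  by_cases hk : p.k = 2
  · unfold Pc.nv at h
    rw [cnd_beq, if_pos hk] at h
    cases hL : p.L with
    | nil => rw [hL] at h; exact h
    | cons a t => rw [hL] at h; exact List.mem_cons_of_mem a h
  · rwa [nv_ne hk] at h

theorem inB_true (h2 : LinS) (h3 : NearS) {s : ℝ} {x : E} {c : Cl} {v : Vx} (hs0 : 0 ≤ s)
    (hs1 : s < 1) (hv : Ap s x v) (hc : c.c.Ok (2 ^ 26)) (hr : c.rho ≤ 2 ^ 24)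
    (h : inB c v = true) :
    ‖(8388608 : ℝ) • x - (c.c.v s - (2 : ℝ) • org.v s)‖ < 2 * c.rho := by
  obtain ⟨-, -, -, -, l5, -, -, l8, -⟩ := h2
  obtain ⟨-, ha, hok, he⟩ := hv
  have hBB : 2 ^ 27 < BB := by norm_num [BB]
  obtain ⟨a1, a2⟩ := l8 s v.p v.p (2 ^ 25) hok hok (by omega)
  have hn : Nat.mul 2 c.rho = 2 * c.rho := rfl
  obtain ⟨b1, b2⟩ := l5 s (Nat.mul 2 c.rho) (by rw [hn]; omega)
  have he2 : Nat.mul 2 v.e = 2 * v.e := rfl
  have key := h3 s (ad3 v.p v.p) c.c (Nat.mul 2 v.e) (Nat.mul (Nat.mul 2 c.rho) H1) hs0 hs1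
    (ok_mono a1 (by norm_num)) (ok_mono hc (by norm_num)) (by rw [he2]; omega)
    (le_trans b2 (by rw [hn]; omega)) h
  rw [a2, b1, hn, he2] at key
  push_cast at key
  have e : (8388608 : ℝ) • x - (c.c.v s - (2 : ℝ) • org.v s) =
      (2 : ℝ) • ((4194304 : ℝ) • x - (v.p.v s - org.v s)) + (v.p.v s + v.p.v s - c.c.v s) := by
    module
  rw [e]
  have t := norm_add_le ((2 : ℝ) • ((4194304 : ℝ) • x - (v.p.v s - org.v s)))
    (v.p.v s + v.p.v s - c.c.v s)
  rw [norm_smul, Real.norm_ofNat] at t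
  linarith

theorem dist_lt {x y z : E} {r : ℝ} (hx : ‖(8388608 : ℝ) • x - z‖ < 2 * r)
    (hy : ‖(8388608 : ℝ) • y - z‖ < 2 * r) : 4194304 * ‖x - y‖ < 2 * r := by
  have e : (8388608 : ℝ) • (x - y) = ((8388608 : ℝ) • x - z) - ((8388608 : ℝ) • y - z) := by
    module
  have t := norm_sub_le ((8388608 : ℝ) • x - z) ((8388608 : ℝ) • y - z)
  rw [← e, norm_smul, Real.norm_ofNat] at t
  linarith

theorem fan_ok (h5 : DetVS) {s : ℝ} (V : ℕ → E) (hs0 : 0 ≤ s) (hs1 : s < 1) (l : ℕ)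
    (hl : l ≤ 2 ^ 26) (P : Vx → Prop) (hA : ∀ v, P v → Ap s (V v.i) v)
    (hd : ∀ v w, P v → P w → 4194304 * ‖V v.i - V w.i‖ ≤ l) (a : Vx) (ha : P a) (L : List Vx) :
    ∀ b : Vx, P b → (∀ v ∈ L, P v) → fan a l L b = true → Fan V a.i b.i (L.map Vx.i) := by
  induction L with
  | nil => intro b _ _ _; trivial
  | cons c t ih =>
    intro b hb hL h
    have e : fan a l (c :: t) b = an (detV a b c l 0) (fan a l t c) := rfl
    rw [e, an_eq, Bool.and_eq_true] at h
    have hc : P c := hL c (List.mem_cons_self ..)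
    have k := h5 s _ _ _ a b c l 0 hs0 hs1 (hA a ha) (hA b hb) (hA c hc) hl (by norm_num)
      (hd a b ha hb) (hd a c ha hc) (hd b c hb hc) h.1
    refine ⟨?_, ih c hc (fun v hv => hL v (List.mem_cons_of_mem c hv)) h.2⟩
    rw [Nat.cast_zero] at k
    exact (mul_pos_iff_of_pos_left (by norm_num)).mp k

theorem rel_symm (d : Dat) (i j : ℕ) : rel d i j = rel d j i := by
  unfold rel
  rw [orr_eq, orr_eq, Bool.or_comm]

end OwnAux

open OwnAux

theorem own (h1 : NvS) (h2 : LinS) (h3 : NearS) (h4 : NearVS) (h5 : DetVS) (h6 : ParS) : OwnS := by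
  intro d s V c hW hC h
  obtain ⟨hs0, hs1, hPar, hAp, -⟩ := hW
  obtain ⟨hP, -, hok, hrho, -⟩ := hC
  obtain ⟨nv, e, n1, n2⟩ := h1 c.ps
  obtain ⟨p1, p2, -, -, -, -, -, -, -, p10⟩ := h6 d s hs0 hs1 hPar
  unfold chkCl at h
  rw [e] at h
  simp only [an_eq, orr_eq, Bool.and_eq_true, Bool.or_eq_true, ble_iff, blt_iff, allL_iff,
    allP_iff] at h
  obtain ⟨⟨⟨c1, c2⟩, c3⟩, c4, c5⟩ := h
  have gnv : ∀ w ∈ nv, Good d w := by
    intro w hw
    obtain ⟨p, hp, hw'⟩ := n1 w hw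
    exact (hP p hp).1 w (nv_sub p hw')
  have bnv : ∀ w ∈ nv,
      ‖(8388608 : ℝ) • V w.i - (c.c.v s - (2 : ℝ) • org.v s)‖ < 2 * c.rho :=
    fun w hw => inB_true h2 h3 hs0 hs1 (hAp w (gnv w hw)) hok hrho (c2 w hw)
  have hIn : InB s V c := by
    intro p hp v hv
    have viaNv : v ∈ p.nv →
        ‖(8388608 : ℝ) • V v.i - (c.c.v s - (2 : ℝ) • org.v s)‖ < 2 * c.rho := by
      intro hv'
      obtain ⟨w, hw, hi⟩ := n2 p hp v hv'
      rw [← hi]
      exact bnv w hw
    by_cases hk : p.k = 2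
    · obtain ⟨-, m, a, b, hL, -⟩ := (hP p hp).2.2.2 (Or.inr hk)
      have hv2 := hv
      rw [hL] at hv2
      rcases List.mem_cons.mp hv2 with hm | hm
      · have k := c3 p hp
        rw [cnd_beq, if_neg (by omega), cnd_beq, if_pos hk] at k
        have hh : p.hd = v := by
          unfold Pc.hd
          rw [hL, hm]
        rw [hh] at k
        exact inB_true h2 h3 hs0 hs1 (hAp v ((hP p hp).1 v hv)) hok hrho k
      · exact viaNv (by rw [nv_two hk hL]; exact hm)
    · exact viaNv (by rw [nv_ne hk]; exact hv)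
  have hn : Nat.mul 2 c.rho = 2 * c.rho := rfl
  refine ⟨c1, hIn, ?_, ?_, c5⟩
  · intro p hp hk
    have k := c3 p hp
    rw [cnd_beq, if_pos hk] at k
    have hA : ∀ v, v ∈ p.L → Ap s (V v.i) v := fun v hv => hAp v ((hP p hp).1 v hv)
    have hd : ∀ v w, v ∈ p.L → w ∈ p.L →
        4194304 * ‖V v.i - V w.i‖ ≤ ((Nat.mul 2 c.rho : ℕ) : ℝ) := by
      intro v w hv hw
      rw [hn]
      push_cast
      exact (dist_lt (hIn p hp v hv) (hIn p hp w hw)).le
    cases hL : p.L with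
    | nil => trivial
    | cons a t =>
      cases t with
      | nil => trivial
      | cons b u =>
        rw [hL] at k
        have k' : fan a (Nat.mul 2 c.rho) u b = true := k
        exact fan_ok h5 V hs0 hs1 _ (by rw [hn]; omega) (fun v => v ∈ p.L) hA hd a
          (by rw [hL]; simp) u b (by rw [hL]; simp)
          (fun v hv => by rw [hL]; simp [hv]) k'
  · have pair : ∀ w ∈ nv, ∀ w' ∈ nv,
        w.i = w'.i ∨ rel d w.i w'.i = true ∨ d.cc s < ⟪V w.i, V w'.i⟫ := by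
      rcases c4 with ⟨k0, k1⟩ | k
      · intro w hw w' hw'
        right; right
        apply (p10 _ _ (hAp w (gnv w hw)).1 (hAp w' (gnv w' hw')).1).1
        have a1 := dist_lt (bnv w hw) (bnv w' hw')
        rw [hn] at k0 k1
        have a2 : 2 * (c.rho : ℝ) < d.D0 := by exact_mod_cast k0
        have a3 : 2 * (c.rho : ℝ) < d.D1 := by exact_mod_cast k1
        unfold Dat.dd
        rw [lt_div_iff₀ (by norm_num)]
        nlinarith
      · have k2 : nv.Pairwise (fun w w' =>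
            w.i = w'.i ∨ rel d w.i w'.i = true ∨ d.cc s < ⟪V w.i, V w'.i⟫) := by
          refine List.Pairwise.imp_of_mem ?_ k
          intro a b ha hb hab
          rcases hab with hab | hab
          · right; right
            apply (p10 _ _ (hAp a (gnv a ha)).1 (hAp b (gnv b hb)).1).1
            have := h4 s _ _ a b d.D hs0 hs1 (hAp a (gnv a ha)) (hAp b (gnv b hb))
              (le_trans p2 (by norm_num)) hab
            rw [p1] at this
            linarith
          · exact Or.inr (Or.inl hab)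
        intro w hw w' hw'
        refine List.Pairwise.forall_of_forall_of_flip (R := fun w w' : Vx =>
            w.i = w'.i ∨ rel d w.i w'.i = true ∨ d.cc s < ⟪V w.i, V w'.i⟫)
          (fun x _ => Or.inl rfl) k2 (k2.imp ?_) hw hw'
        intro a b hab
        change b.i = a.i ∨ rel d b.i a.i = true ∨ d.cc s < ⟪V b.i, V a.i⟫
        rcases hab with hab | hab | hab
        · exact Or.inl hab.symm
        · exact Or.inr (Or.inl (by rw [rel_symm]; exact hab))
        · exact Or.inr (Or.inr (by rw [real_inner_comm]; exact hab))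
    intro p hp p' hp' a ha b hb
    obtain ⟨w, hw, hi⟩ := n2 p hp a ha
    obtain ⟨w', hw', hi'⟩ := n2 p' hp' b hb
    rw [← hi, ← hi']
    exact pair w hw w' hw'

end Pool.Agent.MP_d23910_co.S7
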