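import Pool.Agent.MP_d23910_co.S7.Spec

/-! A unit vector at the prescribed distance from one parent, close to a given one. -/

set_option autoImplicit false

namespace Pool.Agent.MP_d23910_co.S7

open scoped RealInnerProductSpace

namespace Par1R

theorem scal {c c' s s' d d' η : ℝ} (hs : s ^ 2 = 1 - c ^ 2) (hs' : s' ^ 2 = 1 - c' ^ 2)
    (hc : c = 1 - d ^ 2 / 2) (hc' : c' = 1 - d' ^ 2 / 2) (h1 : 4 / 5 * d ≤ s)
    (h2 : 4 / 5 * d' ≤ s') (hd : 0 < d) (hd' : 0 < d') (h : |d' - d| ≤ η) :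
    (c - c') ^ 2 + (s - s') ^ 2 ≤ (5 / 4 * η) ^ 2 := by
  set N := (c - c') ^ 2 + (s - s') ^ 2 with hN
  have N0 : 0 ≤ N := by positivity
  have e1 : N * (s + s') ^ 2 = (c - c') ^ 2 * (4 - N) := by
    have a : (s - s') * (s + s') = (c' - c) * (c' + c) := by linear_combination hs - hs'
    have b : (s + s') ^ 2 + (c + c') ^ 2 = 4 - N := by rw [hN]; linear_combination 2 * hs + 2 * hs'
    rw [← b, hN]
    linear_combination ((s - s') * (s + s') + (c' - c) * (c' + c)) * a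
  have e2 : 4 * (c - c') ^ 2 = (d' - d) ^ 2 * (d + d') ^ 2 := by rw [hc, hc']; ring
  have e3 : (d' - d) ^ 2 ≤ η ^ 2 := by
    rw [← sq_abs]
    exact pow_le_pow_left₀ (abs_nonneg _) h 2
  have e4 : (4 / 5 * (d + d')) ^ 2 ≤ (s + s') ^ 2 :=
    pow_le_pow_left₀ (by positivity) (by linarith) 2
  have e5 : N * (4 / 5 * (d + d')) ^ 2 ≤ η ^ 2 * (d + d') ^ 2 := by
    have a := mul_le_mul_of_nonneg_left e4 N0
    have b := mul_le_mul_of_nonneg_right e3 (sq_nonneg (d + d'))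
    have c := mul_nonneg (sq_nonneg (c - c')) N0
    linarith
  have e6 : 0 < (d + d') ^ 2 := by positivity
  refine le_of_mul_le_mul_right ?_ e6
  linarith

theorem low {d : ℝ} (h0 : 0 < d) (h1 : d ≤ 6 / 5) :
    4 / 5 * d ≤ √(1 - (1 - d ^ 2 / 2) ^ 2) := by
  refine Real.le_sqrt_of_sq_le ?_
  have : d ^ 2 ≤ 36 / 25 := by nlinarith
  nlinarith [mul_le_mul_of_nonneg_left this (sq_nonneg d)]

theorem nsq (p u : E) (a b : ℝ) (hp : ‖p‖ = 1) (h : ⟪u, p⟫ = 0) :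
    ‖a • p + b • u‖ ^ 2 = a ^ 2 + b ^ 2 * ‖u‖ ^ 2 := by
  rw [norm_add_sq_real, real_inner_smul_left, real_inner_smul_right, real_inner_comm, h, norm_smul,
    norm_smul, hp, mul_pow, mul_pow, Real.norm_eq_abs, Real.norm_eq_abs, sq_abs, sq_abs]
  ring

end Par1R

open Par1R in
theorem par1 : Par1S := by
  intro y p d η hy hp h0 h1 h2 h3
  have h4 := abs_le.1 h3
  have hd : 0 < d := by linarith
  obtain ⟨d', hd'⟩ : ∃ d', d' = ‖y - p‖ := ⟨_, rfl⟩
  rw [← hd'] at h3 h4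
  have hd0 : 0 < d' := by linarith
  have hpp : ⟪p, p⟫ = 1 := by rw [real_inner_self_eq_norm_sq, hp, one_pow]
  have hc' : ⟪y, p⟫ = 1 - d' ^ 2 / 2 := by
    rw [hd', norm_sub_sq_real, hy, hp]
    ring
  have l1 := low hd (by linarith)
  have l2 := low hd0 (by linarith)
  obtain ⟨c, hc⟩ : ∃ c, c = 1 - d ^ 2 / 2 := ⟨_, rfl⟩
  obtain ⟨c', hc2⟩ : ∃ c', c' = 1 - d' ^ 2 / 2 := ⟨_, rfl⟩
  rw [← hc] at l1 ⊢
  rw [← hc2] at l2 hc'
  have s0 : 0 < √(1 - c ^ 2) := by linarith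
  have s0' : 0 < √(1 - c' ^ 2) := by linarith
  have q1 := Real.sq_sqrt (Real.sqrt_pos.1 s0).le
  have q2 := Real.sq_sqrt (Real.sqrt_pos.1 s0').le
  generalize √(1 - c ^ 2) = s at *
  generalize √(1 - c' ^ 2) = s' at *
  have hu : ⟪y - c' • p, p⟫ = 0 := by rw [inner_sub_left, real_inner_smul_left, hpp, hc']; ring
  have hu2 : ‖y - c' • p‖ ^ 2 = s' ^ 2 := by
    rw [norm_sub_sq_real, real_inner_smul_right, hc', norm_smul, hy, hp, mul_one, Real.norm_eq_abs,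
      sq_abs, q2]
    ring
  refine ⟨c • p + (s / s') • (y - c' • p), ?_, ?_, ?_⟩
  · refine (pow_eq_one_iff_of_nonneg (norm_nonneg _) two_ne_zero).1 ?_
    rw [nsq _ _ _ _ hp hu, hu2, div_pow, div_mul_cancel₀ _ (pow_ne_zero 2 s0'.ne'), q1]
    ring
  · rw [inner_add_left, real_inner_smul_left, real_inner_smul_left, hpp, hu]
    ring
  · have e : c • p + (s / s') • (y - c' • p) - y = (c - c') • p + (s / s' - 1) • (y - c' • p) := by
      module
    refine (pow_le_pow_iff_left₀ (norm_nonneg _) (by positivity) two_ne_zero).1 ?_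
    have e2 : (s / s' - 1) ^ 2 * s' ^ 2 = (s - s') ^ 2 := by field_simp
    rw [e, nsq _ _ _ _ hp hu, hu2, e2]
    exact scal q1 q2 hc hc2 l1 l2 hd hd0 h3

end Pool.Agent.MP_d23910_co.S7
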