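import Pool.Agent.MP_d23910_co.S7.Spec

/-! A unit vector at a given distance from two given unit vectors, close to a given one. -/

set_option autoImplicit false

namespace Pool.Agent.MP_d23910_co.S7

open scoped RealInnerProductSpace

namespace Par2X

/-- The cross product. -/
noncomputable def cr (u v : E) : E :=
  !₂[u 1 * v 2 - u 2 * v 1, u 2 * v 0 - u 0 * v 2, u 0 * v 1 - u 1 * v 0]

theorem inner_eq (u v : E) : ⟪u, v⟫ = u 0 * v 0 + u 1 * v 1 + u 2 * v 2 := by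
  rw [PiLp.inner_apply, Fin.sum_univ_three]
  simp only [RCLike.inner_apply, conj_trivial]
  ring

theorem inner_cr (u v w : E) : ⟪cr u v, w⟫ = det3 w u v := by
  rw [inner_eq]
  simp only [cr, det3, PiLp.toLp_apply, Matrix.cons_val_zero, Matrix.cons_val_one,
    Matrix.cons_val_two, Matrix.head_cons, Matrix.tail_cons]
  ring

theorem norm_cr {u : E} (hu : ‖u‖ = 1) (v : E) : ‖cr u v‖ ≤ ‖u - v‖ := by
  have h1 : ⟪u, u⟫ = (1 : ℝ) := by rw [real_inner_self_eq_norm_sq, hu]; norm_num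
  refine (sq_le_sq₀ (norm_nonneg _) (norm_nonneg _)).1 ?_
  rw [← real_inner_self_eq_norm_sq, ← real_inner_self_eq_norm_sq, inner_cr, inner_eq]
  rw [inner_eq] at h1
  simp only [cr, det3, PiLp.toLp_apply, Matrix.cons_val_zero, Matrix.cons_val_one,
    Matrix.cons_val_two, Matrix.head_cons, Matrix.tail_cons, PiLp.sub_apply]
  have h2 := sq_nonneg (u 0 * (u 0 - v 0) + u 1 * (u 1 - v 1) + u 2 * (u 2 - v 2))
  have h3 : (u 0 * u 0 + u 1 * u 1 + u 2 * u 2) *
      ((u 0 - v 0) * (u 0 - v 0) + (u 1 - v 1) * (u 1 - v 1) + (u 2 - v 2) * (u 2 - v 2)) =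
      (u 0 - v 0) * (u 0 - v 0) + (u 1 - v 1) * (u 1 - v 1) + (u 2 - v 2) * (u 2 - v 2) := by
    rw [h1, one_mul]
  nlinarith [h2, h3]

theorem hb {y p : E} {d η l : ℝ} (hy : ‖y‖ = 1) (hp : ‖p‖ = 1) (hη : 0 ≤ η) (hd : 0 ≤ d)
    (hl : d + η ≤ l) (h : |‖y - p‖ - d| ≤ η) :
    |1 - d ^ 2 / 2 - ⟪y, p⟫| ≤ η * l ∧ ‖y - p‖ ≤ l := by
  have h1 := norm_sub_sq_real y p
  rw [hy, hp] at h1
  obtain ⟨h2, h3⟩ := abs_le.1 h
  have h0 := norm_nonneg (y - p)
  refine ⟨?_, by linarith⟩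
  have h4 : 1 - d ^ 2 / 2 - ⟪y, p⟫ = (‖y - p‖ - d) * ((‖y - p‖ + d) / 2) := by
    nlinarith [h1]
  rw [h4, abs_mul, abs_of_nonneg (show 0 ≤ (‖y - p‖ + d) / 2 by positivity)]
  exact mul_le_mul h (by linarith) (by positivity) hη

end Par2X

open Par2X in
theorem par2 : Par2S := by
  intro y p q d η l e hy hp hq hη hd hl he h1 h2 hD hb'
  obtain ⟨a1, b1⟩ := hb hy hp hη hd hl h1
  obtain ⟨a2, b2⟩ := hb hy hq hη hd hl h2
  set c := 1 - d ^ 2 / 2 with hc
  set D := det3 y p q with hDd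
  set k1 := c - ⟪y, p⟫ with hk1
  set k2 := c - ⟪y, q⟫ with hk2
  have hl0 : 0 ≤ l := by linarith
  let δ : ℝ → E := fun t => D⁻¹ • (t • cr p q + k1 • cr q y + k2 • cr y p)
  have hD0 : D ≠ 0 := hD.ne'
  have key : ∀ t w, ⟪δ t, w⟫ = D⁻¹ * (t * det3 w p q + k1 * det3 w q y + k2 * det3 w y p) := by
    intro t w
    simp only [δ, real_inner_smul_left, inner_add_left, inner_cr]
  have e1 : ∀ t, ⟪δ t, y⟫ = t := fun t => by
    have z1 : det3 y q y = 0 := by simp only [det3]; ring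
    have z2 : det3 y y p = 0 := by simp only [det3]; ring
    rw [key, z1, z2, ← hDd]; field_simp; ring
  have e2 : ∀ t, ⟪δ t, p⟫ = k1 := fun t => by
    have z1 : det3 p p q = 0 := by simp only [det3]; ring
    have z2 : det3 p y p = 0 := by simp only [det3]; ring
    have z3 : det3 p q y = D := by simp only [hDd, det3]; ring
    rw [key, z1, z2, z3]; field_simp; ring
  have e3 : ∀ t, ⟪δ t, q⟫ = k2 := fun t => by
    have z1 : det3 q p q = 0 := by simp only [det3]; ring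
    have z2 : det3 q q y = 0 := by simp only [det3]; ring
    have z3 : det3 q y p = D := by simp only [hDd, det3]; ring
    rw [key, z1, z2, z3]; field_simp; ring
  have n1 : ‖cr p q‖ ≤ 2 * l := by
    refine (norm_cr hp q).trans ?_
    have := norm_sub_le_norm_sub_add_norm_sub p y q
    rw [norm_sub_rev p y] at this
    linarith
  have n2 : ‖cr q y‖ ≤ l := (norm_cr hq y).trans (by rw [norm_sub_rev]; exact b2)
  have n3 : ‖cr y p‖ ≤ l := (norm_cr hy p).trans b1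
  have nb : ∀ t, |t| ≤ e ^ 2 / 2 → ‖δ t‖ ≤ e := fun t ht => by
    have s1 : ‖t • cr p q + k1 • cr q y + k2 • cr y p‖ ≤ (2 * η * l + e ^ 2) * l := by
      refine (norm_add₃_le).trans ?_
      rw [norm_smul, norm_smul, norm_smul, Real.norm_eq_abs, Real.norm_eq_abs, Real.norm_eq_abs]
      have m1 := mul_le_mul ht n1 (norm_nonneg _) (by positivity)
      have m2 := mul_le_mul a1 n2 (norm_nonneg _) (mul_nonneg hη hl0)
      have m3 := mul_le_mul a2 n3 (norm_nonneg _) (mul_nonneg hη hl0)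
      linarith
    simp only [δ]
    rw [norm_smul, Real.norm_eq_abs, abs_of_pos (inv_pos.2 hD), inv_mul_le_iff₀ hD]
    linarith
  have hcont : Continuous fun t : ℝ => 2 * t + ‖δ t‖ ^ 2 := by
    simp only [δ]; fun_prop
  have he2 : -(e ^ 2 / 2) ≤ 0 := by have := sq_nonneg e; linarith
  have hmem : (0 : ℝ) ∈ Set.Icc (2 * (-(e ^ 2 / 2)) + ‖δ (-(e ^ 2 / 2))‖ ^ 2) (2 * 0 + ‖δ 0‖ ^ 2) := by
    refine ⟨?_, by positivity⟩
    have := nb (-(e ^ 2 / 2)) (by rw [abs_neg, abs_of_nonneg (by positivity)])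
    have := pow_le_pow_left₀ (norm_nonneg _) this 2
    linarith
  obtain ⟨t, ⟨ht1, ht2⟩, ht⟩ := intermediate_value_Icc he2 hcont.continuousOn hmem
  refine ⟨y + δ t, ?_, ?_, ?_, ?_⟩
  · have := norm_add_sq_real y (δ t)
    rw [hy, real_inner_comm, e1] at this
    have ht' : 2 * t + ‖δ t‖ ^ 2 = 0 := ht
    refine (sq_eq_sq₀ (norm_nonneg _) zero_le_one).1 ?_
    linarith
  · rw [inner_add_left, e2, hk1]; ring
  · rw [inner_add_left, e3, hk2]; ring
  · rw [add_sub_cancel_left]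
    exact nb t (abs_le.2 ⟨ht1, by linarith [sq_nonneg e]⟩)

end Pool.Agent.MP_d23910_co.S7
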