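import Pool.Agent.MP_d23910_co.S7.Spec

/-!
Numbers as polynomials in the parameter.
-/

set_option autoImplicit false

namespace Pool.Agent.MP_d23910_co.S7

open Polynomial

namespace RepAux

theorem add {s : ℝ} {k N N' : ℕ} {f f' : ℝ} {M M' : ℕ} (h : Rep s k N f M)
    (h' : Rep s k N' f' M') : Rep s k (Nat.add N N') (f + f') (M + M') := by
  obtain ⟨P, a, b, c, d⟩ := h
  obtain ⟨Q, a', b', c', d'⟩ := h'
  refine ⟨P + Q, (natDegree_add_le _ _).trans (max_le a a'), ?_, ?_, ?_⟩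
  · rw [eval_add, ← b, ← b']; rfl
  · rw [eval₂_add, c, c', mul_add]
  · rw [eval_add]; exact Nat.add_le_add d d'

theorem mul {s : ℝ} {k k' N N' : ℕ} {f f' : ℝ} {M M' : ℕ} (h : Rep s k N f M)
    (h' : Rep s k' N' f' M') : Rep s (k + k') (Nat.mul N N') (f * f') (M * M') := by
  obtain ⟨P, a, b, c, d⟩ := h
  obtain ⟨Q, a', b', c', d'⟩ := h'
  refine ⟨P * Q, natDegree_mul_le.trans (Nat.add_le_add a a'), ?_, ?_, ?_⟩
  · rw [eval_mul, ← b, ← b']; rfl
  · rw [eval₂_mul, c, c', pow_add]; ring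
  · rw [eval_mul]; exact Nat.mul_le_mul d d'

theorem lin {s : ℝ} (hs : s < 1) {X M : ℕ} (h : Lin X M) : Rep s 1 X (val s X) M := by
  have h1 : (1 - s) ≠ 0 := by linarith [sub_pos.2 hs] |> fun h : 0 < 1 - s => h.ne'
  refine ⟨C (X / BB) * Polynomial.X + C (X % BB), natDegree_linear_le, ?_, ?_, ?_⟩
  · simp only [eval_add, eval_mul, eval_C, eval_X]
    exact (Nat.div_add_mod' X BB).symm
  · simp only [eval₂_add, eval₂_mul, eval₂_C, eval₂_X, val, Nat.coe_castRingHom]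
    field_simp
    ring
  · simp only [eval_add, eval_mul, eval_C, eval_X, mul_one]
    unfold Lin at h
    omega

theorem one {s : ℝ} (hs : s < 1) : Rep s 1 H1 1 2 := by
  have h : Lin H1 2 := by norm_num [Lin, H1, BB]
  have h2 : val s H1 = 1 := by
    have a : H1 % BB = 1 := by norm_num [H1, BB]
    have b : H1 / BB = 1 := by norm_num [H1, BB]
    simp only [val, a, b]
    push_cast
    ring
  exact h2 ▸ lin hs h

theorem bit {N j : ℕ} (h : Nat.land N HH = HH) (hj : HH.testBit j = true) :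
    N.testBit j = true := by
  have h1 : (N &&& HH).testBit j = true := by
    have : N &&& HH = HH := h
    rw [this]; exact hj
  rw [Nat.testBit_and, Bool.and_eq_true] at h1
  exact h1.1

theorem digits {l0 l1 l2 l3 r0 r1 r2 r3 : ℕ} (hl : l0 + l1 + l2 + l3 < 2 ^ 95)
    (hr : r0 + r1 + r2 + r3 < 2 ^ 95)
    (h : geK (l0 + l1 * BB + l2 * BB ^ 2 + l3 * BB ^ 3) (r0 + r1 * BB + r2 * BB ^ 2 + r3 * BB ^ 3)
      = true) : r0 ≤ l0 ∧ r1 ≤ l1 ∧ r2 ≤ l2 ∧ r3 ≤ l3 := by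
  rw [geK, beq_iff] at h
  obtain ⟨d0, e0⟩ : ∃ d, d + r0 = l0 + 2 ^ 95 := ⟨l0 + 2 ^ 95 - r0, by omega⟩
  obtain ⟨d1, e1⟩ : ∃ d, d + r1 = l1 + 2 ^ 95 := ⟨l1 + 2 ^ 95 - r1, by omega⟩
  obtain ⟨d2, e2⟩ : ∃ d, d + r2 = l2 + 2 ^ 95 := ⟨l2 + 2 ^ 95 - r2, by omega⟩
  obtain ⟨d3, e3⟩ : ∃ d, d + r3 = l3 + 2 ^ 95 := ⟨l3 + 2 ^ 95 - r3, by omega⟩
  have e : Nat.sub (Nat.add (l0 + l1 * BB + l2 * BB ^ 2 + l3 * BB ^ 3) HH)
      (r0 + r1 * BB + r2 * BB ^ 2 + r3 * BB ^ 3) =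
      2 ^ 96 * (2 ^ 96 * (2 ^ 96 * d3 + d2) + d1) + d0 := by
    refine Nat.sub_eq_of_eq_add ?_
    change l0 + l1 * BB + l2 * BB ^ 2 + l3 * BB ^ 3 + HH = _
    rw [HH_eq, ← BB_eq]
    generalize 2 ^ 95 = c at e0 e1 e2 e3 ⊢
    generalize BB = B
    zify at e0 e1 e2 e3 ⊢
    linear_combination -e0 - B * e1 - B ^ 2 * e2 - B ^ 3 * e3
  rw [e] at h
  have c0 : d0 < 2 ^ 96 := by omega
  have c1 : d1 < 2 ^ 96 := by omega
  have c2 : d2 < 2 ^ 96 := by omega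
  have b0 := bit (j := 95) h (by decide +kernel)
  have b1 := bit (j := 191) h (by decide +kernel)
  have b2 := bit (j := 287) h (by decide +kernel)
  have b3 := bit (j := 383) h (by decide +kernel)
  simp only [Nat.testBit_two_pow_mul_add _ c0, Nat.testBit_two_pow_mul_add _ c1,
    Nat.testBit_two_pow_mul_add _ c2, Nat.reduceLT, Nat.reduceSub, if_true, if_false] at b0 b1 b2 b3
  have := Nat.ge_two_pow_of_testBit b0
  have := Nat.ge_two_pow_of_testBit b1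
  have := Nat.ge_two_pow_of_testBit b2
  have := Nat.ge_two_pow_of_testBit b3
  omega

theorem ge {s : ℝ} (h0 : 0 ≤ s) (hs : s < 1) {k L R : ℕ} {f g : ℝ} {M M' : ℕ} (hk : k ≤ 3)
    (h : Rep s k L f M) (h' : Rep s k R g M') (hM : M < 2 ^ 95) (hM' : M' < 2 ^ 95)
    (hg : geK L R = true) : g ≤ f := by
  obtain ⟨P, a, b, c, d⟩ := h
  obtain ⟨Q, a', b', c', d'⟩ := h'
  have hP : P.natDegree < 4 := by omega
  have hQ : Q.natDegree < 4 := by omega
  rw [eval_eq_sum_range' hP] at b d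
  rw [eval_eq_sum_range' hQ] at b' d'
  rw [eval₂_eq_sum_range' _ hP] at c
  rw [eval₂_eq_sum_range' _ hQ] at c'
  simp only [Finset.sum_range_succ, Finset.sum_range_zero, zero_add, pow_zero, pow_one, one_pow,
    mul_one, Nat.coe_castRingHom] at b d b' d' c c'
  rw [b, b'] at hg
  obtain ⟨i0, i1, i2, i3⟩ := digits (by omega) (by omega) hg
  have hu : 0 ≤ s / (1 - s) := div_nonneg h0 (by linarith)
  have hv : 0 ≤ (1 - s) ^ k := pow_nonneg (by linarith) k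
  rw [c, c']
  gcongr

end RepAux

theorem rep : RepS := by
  intro s h0 hs
  have h1 := RepAux.one hs
  have h2 : Rep s 2 H2 1 4 := by
    have := RepAux.mul h1 h1
    rw [H2_eq]; simpa using this
  refine ⟨fun n => ⟨C n, by simp, by simp, by simp, by simp⟩, fun X M h => RepAux.lin hs h,
    fun k N f M M' ⟨P, a, b, c, d⟩ h => ⟨P, a, b, c, d.trans h⟩,
    fun _ _ _ _ _ _ _ => RepAux.add, fun _ _ _ _ _ _ _ _ => RepAux.mul, h1, h2, ?_,
    fun _ _ _ _ _ _ _ hk => RepAux.ge h0 hs hk⟩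
  have := RepAux.mul h2 h1
  rw [H3_eq, ← H2_eq]; simpa using this

end Pool.Agent.MP_d23910_co.S7
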