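import Pool.Agent.MP_d23910_co.S7.Spec

/-!
The scan over the clusters of one colour.
-/

set_option autoImplicit false

namespace Pool.Agent.MP_d23910_co.S7

open scoped RealInnerProductSpace

namespace Scan

/-- All pieces of the two clusters are separated. -/
def SS (d : Dat) (s : ℝ) (V : ℕ → E) (a b : Cl) : Prop :=
  ∀ p ∈ a.ps, ∀ p' ∈ b.ps, Sep d s V p p'

theorem SS.symm {d : Dat} {s : ℝ} {V : ℕ → E} {a b : Cl} (h : SS d s V a b) : SS d s V b a :=
  fun p hp p' hp' x y hx hy e => h p' hp' p hp y x hy hx (by rw [real_inner_comm]; exact e)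

/-- The doubled safe distance. -/
noncomputable def TT (d : Dat) (a : Cl) : ℕ := 2 * (a.rho + d.RM + d.Dm) + 1

theorem chk_cons {d : Dat} {a : Cl} {t : List Cl} (h : chkL d (a :: t) = true) :
    chkCl d a = true ∧ srt a t = true ∧
      scan d a (TT d a) (a.xh + TT d a) (a.yh + TT d a) (a.zh + TT d a) t a.rs = true ∧
      chkL d t = true := by
  have e : chkL d (a :: t) =
      force (Nat.succ (Nat.mul 2 (Nat.add (Nat.add a.rho d.RM) d.Dm))) fun T =>
      force (Nat.add a.xh T) fun xh => force (Nat.add a.yh T) fun yh =>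
      force (Nat.add a.zh T) fun zh =>
        an (an (an (chkCl d a) (srt a t)) (scan d a T xh yh zh t a.rs)) (chkL d t) := rfl
  rw [e] at h
  simp only [force_eq, an_eq, Bool.and_eq_true] at h
  exact ⟨h.1.1.1, h.1.1.2, h.1.2, h.2⟩

theorem sorted {d : Dat} : ∀ {l : List Cl}, chkL d l = true →
    (∀ c ∈ l, chkCl d c = true) ∧ l.Pairwise (fun a b => a.zl ≤ b.zl) := by
  intro l
  induction l with
  | nil => exact fun _ => ⟨by simp, List.Pairwise.nil⟩
  | cons a t ih =>
    intro h
    obtain ⟨h1, h2, -, h4⟩ := chk_cons h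
    obtain ⟨i1, i2⟩ := ih h4
    refine ⟨fun c hc => ?_, List.Pairwise.cons (fun b hb => ?_) i2⟩
    · rcases List.mem_cons.1 hc with rfl | hc
      exacts [h1, i1 c hc]
    · cases t with
      | nil => simp at hb
      | cons c u =>
        have h5 : a.zl ≤ c.zl := (ble_iff _ _).1 h2
        rcases List.mem_cons.1 hb with rfl | hb
        · exact h5
        · exact h5.trans (List.rel_of_pairwise_cons i2 hb)

theorem scan_ok {d : Dat} {s : ℝ} {V : ℕ → E} {a : Cl} {T xh yh zh : ℕ} : ∀ (l : List Cl),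
    (∀ b ∈ l, (ball d a b = true ∨ xh ≤ b.xl ∨ b.xh + T ≤ a.xl ∨ yh ≤ b.yl ∨ b.yh + T ≤ a.yl ∨
      zh ≤ b.zl) → SS d s V a b) →
    (∀ b ∈ l, ∀ g, grp d a b g = true → SS d s V a b) →
    l.Pairwise (fun a b => a.zl ≤ b.zl) → ∀ rs, scan d a T xh yh zh l rs = true →
    ∀ b ∈ l, SS d s V a b := by
  intro l
  induction l with
  | nil => intro _ _ _ _ _ b hb; simp at hb
  | cons b t ih =>
    intro h1 h2 h3 rs h
    have e : scan d a T xh yh zh (b :: t) rs = cnd (Nat.ble zh b.zl) true
      (cnd (orr (orr (orr (Nat.ble xh b.xl) (Nat.ble (Nat.add b.xh T) a.xl))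
          (orr (Nat.ble yh b.yl) (Nat.ble (Nat.add b.yh T) a.yl))) (ball d a b))
        (scan d a T xh yh zh t rs)
        (List.rec false (fun g rs' _ => an (grp d a b g) (scan d a T xh yh zh t rs')) rs)) := rfl
    have ih' := ih (fun c hc => h1 c (List.mem_cons_of_mem _ hc))
      (fun c hc => h2 c (List.mem_cons_of_mem _ hc)) (List.Pairwise.of_cons h3)
    have fin : SS d s V a b → (∀ c ∈ t, SS d s V a c) → ∀ c ∈ b :: t, SS d s V a c :=
      fun k1 k2 c hc => by
        rcases List.mem_cons.1 hc with rfl | hc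
        exacts [k1, k2 c hc]
    rw [e, cnd_ble] at h
    by_cases k : zh ≤ b.zl
    · intro c hc
      refine h1 c hc (Or.inr (Or.inr (Or.inr (Or.inr (Or.inr ?_)))))
      rcases List.mem_cons.1 hc with rfl | hc
      · exact k
      · exact k.trans (List.rel_of_pairwise_cons h3 hc)
    rw [if_neg k, cnd_eq] at h
    split_ifs at h with k'
    · refine fin (h1 b List.mem_cons_self ?_) (ih' rs h)
      simp only [orr_eq, Bool.or_eq_true, ble_iff] at k'
      rcases k' with ((k' | k') | k' | k') | k'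
      · exact Or.inr (Or.inl k')
      · exact Or.inr (Or.inr (Or.inl k'))
      · exact Or.inr (Or.inr (Or.inr (Or.inl k')))
      · exact Or.inr (Or.inr (Or.inr (Or.inr (Or.inl k'))))
      · exact Or.inl k'
    · cases rs with
      | nil => exact absurd h Bool.false_ne_true
      | cons g rs' =>
        have h' : an (grp d a b g) (scan d a T xh yh zh t rs') = true := h
        rw [an_eq, Bool.and_eq_true] at h'
        exact fin (h2 b List.mem_cons_self g h'.1) (ih' rs' h'.2)

theorem pair {d : Dat} {s : ℝ} {V : ℕ → E} (h1 : OwnS) (h3 : GrpS) (h4 : CenS) (hW : Wd d s V) :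
    ∀ l : List Cl, (∀ c ∈ l, ClG d V c) → chkL d l = true → l.Pairwise (SS d s V) := by
  intro l
  induction l with
  | nil => exact fun _ _ => List.Pairwise.nil
  | cons a t ih =>
    intro hG h
    obtain ⟨k1, -, k3, k4⟩ := chk_cons h
    obtain ⟨i1, i2⟩ := sorted k4
    have ha := hG a List.mem_cons_self
    have ht : ∀ c ∈ t, ClG d V c := fun c hc => hG c (List.mem_cons_of_mem _ hc)
    have oa := h1 d s V a hW ha k1
    refine List.Pairwise.cons (scan_ok t (fun b hb k => ?_) (fun b hb g k => ?_) i2 _ k3) (ih ht k4)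
    · have ob := h1 d s V b hW (ht b hb) (i1 b hb)
      exact h4 d s V a b hW ha (ht b hb) oa.2.1 ob.2.1 oa.1 ob.1 k
    · exact h3 d s V a b g hW ha (ht b hb) k

end Scan

theorem scn (h1 : OwnS) (h2 : SelfS) (h3 : GrpS) (h4 : CenS) : ScanS := by
  intro d s V l hW hG h
  have i1 := (Scan.sorted h).1
  refine ⟨i1, fun a ha b hb => ?_⟩
  have hs : Std.Symm (Scan.SS d s V) := ⟨fun _ _ k => k.symm⟩
  refine List.Pairwise.forall_of_forall (R := Scan.SS d s V) (fun c hc => ?_)
    (Scan.pair h1 h3 h4 hW l hG h) ha hb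
  have oc := h1 d s V c hW (hG c hc) (i1 c hc)
  exact h2 d s V c hW (hG c hc) oc.2.2.2.1 oc.2.2.2.2

end Pool.Agent.MP_d23910_co.S7
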