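import Pool.Agent.MP_d23910_co.S7.Spec

/-! Points of a triangle inside the cap cut off by one side. -/

set_option autoImplicit false

namespace Pool.Agent.MP_d23910_co.S7

open scoped RealInnerProductSpace

namespace SegRow

theorem cramer (q a b x : E) :
    det3 q b a • x = det3 q b x • a + det3 q x a • b - det3 x a b • q := by
  ext i
  fin_cases i <;> simp [det3] <;> ring

theorem det_nonneg {m a b x : E} (hm : 0 < det3 m a b) (hx : Cone {m, a, b} x) :
    0 ≤ det3 x a b := by
  obtain ⟨F, α, hF, hα, rfl⟩ := hx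
  refine Finset.sum_induction _ (fun v => 0 ≤ det3 v a b) (fun u v hu hv => ?_) ?_ fun v hv => ?_
  · have e : det3 (u + v) a b = det3 u a b + det3 v a b := by
      simp only [det3, PiLp.add_apply]
      ring
    rw [e]
    exact add_nonneg hu hv
  · simp [det3]
  · have e : det3 (α v • v) a b = α v * det3 v a b := by
      simp only [det3, PiLp.smul_apply, smul_eq_mul]
      ring
    rw [e]
    refine mul_nonneg (hα v) ?_
    rcases hF v hv with h | h | h
    · rw [h]
      exact hm.le
    · rw [h]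
      exact le_of_eq (by simp only [det3]; ring)
    · rw [h]
      exact le_of_eq (by simp only [det3]; ring)

theorem coef {c s γ t u v β : ℝ} (hc : 0 < c) (hc1 : c < 1) (hs : s < 1) (ht : 0 ≤ t)
    (hu : u = β * c + γ * c - t) (hv : v = β + γ * s - t * c) (h1 : c ≤ u) (h2 : v ≤ 1) :
    0 ≤ γ := by
  have e1 : 0 ≤ t * (1 - c ^ 2) := mul_nonneg ht (by nlinarith)
  have e2 : c * v ≤ c * 1 := mul_le_mul_of_nonneg_left h2 hc.le
  have e3 : 0 ≤ γ * (c * (1 - s)) := by
    rw [hv] at e2
    nlinarith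
  exact nonneg_of_mul_nonneg_left e3 (mul_pos hc (sub_pos.2 hs))

end SegRow

open SegRow in
theorem seg : SegS := by
  intro m a b q x c ha hb hq hx hc hc1 haq hbq hm hD cx hxq
  have one : ∀ {v : E}, ‖v‖ = 1 → ⟪v, v⟫ = 1 := fun h => by
    rw [real_inner_self_eq_norm_sq, h, one_pow]
  have le1 : ∀ {u v : E}, ‖u‖ = 1 → ‖v‖ = 1 → ⟪u, v⟫ ≤ 1 := fun {u v} hu hv => by
    have h := real_inner_le_norm u v
    rwa [hu, hv, mul_one] at h
  have hab : a ≠ b := by
    rintro rfl
    exact hD.ne' (by simp only [det3]; ring)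
  have hs : x = (det3 q b x / det3 q b a) • a + (det3 q x a / det3 q b a) • b -
      (det3 x a b / det3 q b a) • q := by
    have h := congrArg (fun v : E => (det3 q b a)⁻¹ • v) (cramer q a b x)
    simp only [smul_sub, smul_add, smul_smul, inv_mul_cancel₀ hD.ne', one_smul] at h
    rw [div_eq_inv_mul, div_eq_inv_mul, div_eq_inv_mul]
    exact h
  have ht : 0 ≤ det3 x a b / det3 q b a := div_nonneg (det_nonneg hm cx) hD.le
  generalize det3 q b x / det3 q b a = β at hs
  generalize det3 q x a / det3 q b a = γ at hs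
  generalize det3 x a b / det3 q b a = t at hs ht
  have e : ∀ z : E, ⟪x, z⟫ = β * ⟪a, z⟫ + γ * ⟪b, z⟫ - t * ⟪q, z⟫ := fun z => by
    rw [hs, inner_sub_left, inner_add_left, real_inner_smul_left, real_inner_smul_left,
      real_inner_smul_left]
  have e1 := e q
  have e2 := e a
  have e3 := e b
  rw [haq, hbq, one hq, mul_one] at e1
  rw [one ha, real_inner_comm a q, haq, mul_one] at e2
  rw [one hb, real_inner_comm b q, hbq, mul_one] at e3
  refine ⟨β, γ, t, ?_, ?_, ht, hs⟩
  · exact coef (β := γ) hc hc1 ((inner_lt_one_iff_real_of_norm_eq_one ha hb).2 hab) ht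
      (by rw [e1]; ring) (by rw [e3]; ring) hxq (le1 hx hb)
  · exact coef (β := β) hc hc1 ((inner_lt_one_iff_real_of_norm_eq_one hb ha).2 hab.symm) ht
      e1 e2 hxq (le1 hx ha)

end Pool.Agent.MP_d23910_co.S7
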