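import Pool.Agent.MP_d23910_co.S7.Spec

/-! Pieces of one cluster are separated. -/

set_option autoImplicit false

namespace Pool.Agent.MP_d23910_co.S7

open scoped RealInnerProductSpace

namespace Self

variable {d : Dat} {s : ℝ} {V : ℕ → E}

theorem nv_ne {p : Pc} (h : p.k ≠ 2) : p.nv = p.L := by
  unfold Pc.nv
  rw [cnd_beq, if_neg h]

theorem nv_two {p : Pc} (h : p.k = 2) {m a b : Vx} (hL : p.L = [m, a, b]) : p.nv = [a, b] := by
  unfold Pc.nv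
  rw [cnd_beq, if_pos h, hL]

theorem nv_sub {p : Pc} (hp : PcG d V p) {a : Vx} (ha : a ∈ p.nv) : a ∈ p.L := by
  by_cases h : p.k = 2
  · obtain ⟨-, m, a', b', hL, -⟩ := hp.2.2.2 (Or.inr h)
    rw [nv_two h hL] at ha
    rw [hL]
    exact List.mem_cons_of_mem _ ha
  · rwa [nv_ne h] at ha

theorem unit (hW : Wd d s V) {v : Vx} (hv : Good d v) : ‖V v.i‖ = 1 := (hW.2.2.2.1 v hv).1

theorem self_one {x : E} (hx : ‖x‖ = 1) : ⟪x, x⟫ = 1 := by
  rw [real_inner_self_eq_norm_sq, hx, one_pow]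

theorem lemA (h1 : N1S) (h2 : N2S) (h3 : SegS) (hW : Wd d s V) (c0 : 0 < d.cc s) (c1 : d.cc s < 1)
    {p : Pc} (hp : PcG d V p) {x y : E} (hx : p.mem d s V x) (hy : ‖y‖ = 1)
    (h : ∀ a ∈ p.nv, d.cc s ≤ ⟪V a.i, y⟫) : d.cc s ≤ ⟪x, y⟫ ∧ (⟪x, y⟫ = d.cc s →
      (p.k ≠ 2 ∧ ∃ a ∈ p.nv, x = V a.i) ∨ (p.k = 2 ∧ p.st = true ∧ p.q.i < d.nZ ∧ y = V p.q.i ∧
        ∀ e ∈ p.nv, ⟪V p.q.i, V e.i⟫ = d.cc s)) := by
  by_cases hk : p.k = 2
  · obtain ⟨hq, m, a, b, hL, ra, rb, d1, d2⟩ := hp.2.2.2 (Or.inr hk)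
    have hnv := nv_two hk hL
    have ua : ‖V a.i‖ = 1 := unit hW (hp.1 a (by simp [hL]))
    have ub : ‖V b.i‖ = 1 := unit hW (hp.1 b (by simp [hL]))
    have uq : ‖V p.q.i‖ = 1 := unit hW hq
    obtain ⟨q1, a1, qa⟩ := hW.2.2.2.2 _ _ ra
    obtain ⟨-, b1, qb⟩ := hW.2.2.2.2 _ _ rb
    have aq : ⟪V a.i, V p.q.i⟫ = d.cc s := by rw [real_inner_comm, qa]
    have bq : ⟪V b.i, V p.q.i⟫ = d.cc s := by rw [real_inner_comm, qb]
    have hpts : p.pts V = {V m.i, V a.i, V b.i} := by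
      ext z
      simp [Pc.pts, hL]
    obtain ⟨hx1, hx2, hx3, -, hx5⟩ := hx
    rw [hpts] at hx2
    obtain ⟨hx6, hx7⟩ := hx5 hk
    obtain ⟨β, γ, t, b0, g0, t0, e⟩ := h3 _ _ _ _ x _ ua ub uq hx1 c0 c1 aq bq d1 d2 hx2 hx6
    obtain ⟨r1, r2⟩ := h2 _ _ _ x y _ β γ t ua ub uq hx1 hy c0 aq bq b0 g0 t0 e hx6
      (h a (by simp [hnv])) (h b (by simp [hnv]))
    refine ⟨r1, fun he => Or.inr ?_⟩
    obtain ⟨r3, r4⟩ := r2 he
    have k3 : p.k ≠ 3 := by omega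
    refine ⟨hk, ?_, q1, ?_, ?_⟩
    · cases hs : p.st
      · exact absurd r3 (hx7 hs).ne'
      · rfl
    · rcases r4 with r4 | r4 | r4
      · exact absurd r4 (hx3 k3 _ a1)
      · exact absurd r4 (hx3 k3 _ b1)
      · exact r4
    · intro e he
      rw [hnv] at he
      rcases List.mem_cons.1 he with rfl | he
      · exact qa
      · rw [List.mem_singleton.1 he]
        exact qb
  · have hnv := nv_ne hk
    rw [hnv] at h ⊢
    obtain ⟨r1, r2⟩ := h1 (p.pts V) x y _ (by rintro _ ⟨v, hv, rfl⟩; exact unit hW (hp.1 v hv)) c0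
      hx.1 hx.2.1 (by rintro _ ⟨v, hv, rfl⟩; exact h v hv)
    exact ⟨r1, fun he => Or.inl ⟨hk, r2 he⟩⟩

theorem hd_eq {p : Pc} (hp : PcG d V p) (hk : p.k = 3) {a : Vx} (ha : a ∈ p.nv) : p.hd = a := by
  obtain ⟨z, hz⟩ := hp.2.2.1 hk
  rw [nv_ne (by omega), hz, List.mem_singleton] at ha
  unfold Pc.hd
  rw [hz, ha]

theorem three {p : Pc} {x : E} (hx : p.mem d s V x) {i : ℕ} (hi : i < d.nZ) (e : x = V i) :
    p.k = 3 := by
  by_contra h
  exact hx.2.2.1 h i hi e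

/-- A point piece at the centre of a closed inner piece. -/
theorem mixed (hW : Wd d s V) (c1 : d.cc s < 1) {p p' : Pc} (hp : PcG d V p) (hp' : PcG d V p')
    (hc : ∀ a ∈ p.nv, ∀ b ∈ p'.nv,
      a.i = b.i ∨ rel d a.i b.i = true ∨ d.cc s < ⟪V a.i, V b.i⟫) (hm : cmp d p p' = true)
    {x : E} (hx : p.mem d s V x) {a : Vx} (ha : a ∈ p.nv) (e : x = V a.i) (k2 : p'.k = 2)
    (st : p'.st = true) (q1 : p'.q.i < d.nZ) (e' : x = V p'.q.i)
    (hq : ∀ e ∈ p'.nv, ⟪V p'.q.i, V e.i⟫ = d.cc s) : False := by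
  have k3 := three hx q1 e'
  have hall : allL (fun e => rel d p.hd.i e.i) p'.nv = true := by
    rw [allL_iff, hd_eq hp k3 ha]
    intro b hb
    have h5 := hq b hb
    rw [← e', e] at h5
    rcases hc a ha b hb with h | h | h
    · rw [h, self_one (unit hW (hp'.1 b (nv_sub hp' hb)))] at h5
      exact absurd h5 c1.ne'
    · exact h
    · exact absurd h5 h.ne'
  unfold cmp at hm
  rw [cnd_beq, if_pos k3, cnd_beq, if_neg (by omega), k2, st, hall] at hm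
  exact absurd hm (by decide)

end Self

open Self in
theorem self (h1 : N1S) (h2 : N2S) (h3 : SegS) (h4 : ParS) : SelfS := by
  intro d s V c hW hG hC hm p hp p' hp' x y hx hy he
  obtain ⟨-, -, -, -, -, -, c0, c1, -⟩ := h4 d s hW.1 hW.2.1 hW.2.2.1
  have gp := hG.1 p hp
  have gp' := hG.1 p' hp'
  have hge : ∀ r ∈ c.ps, ∀ r' ∈ c.ps, ∀ a ∈ r.nv, ∀ b ∈ r'.nv, d.cc s ≤ ⟪V a.i, V b.i⟫ := by
    intro r hr r' hr' a ha b hb
    rcases hC r hr r' hr' a ha b hb with h | h | h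
    · rw [h, self_one (unit hW ((hG.1 r' hr').1 b (nv_sub (hG.1 r' hr') hb)))]
      exact c1.le
    · exact (hW.2.2.2.2 _ _ h).2.2.ge
    · exact h.le
  have hya : ∀ a ∈ p.nv, d.cc s ≤ ⟪V a.i, y⟫ := fun a ha => by
    rw [real_inner_comm]
    exact (lemA h1 h2 h3 hW c0 c1 gp' hy (unit hW (gp.1 a (nv_sub gp ha)))
      fun b hb => hge p' hp' p hp b hb a ha).1
  have hxb : ∀ b ∈ p'.nv, d.cc s ≤ ⟪V b.i, x⟫ := fun b hb => by
    rw [real_inner_comm]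
    exact (lemA h1 h2 h3 hW c0 c1 gp hx (unit hW (gp'.1 b (nv_sub gp' hb)))
      fun a ha => hge p hp p' hp' a ha b hb).1
  have he' : ⟪y, x⟫ = d.cc s := by rw [real_inner_comm, he]
  rcases (lemA h1 h2 h3 hW c0 c1 gp hx hy.1 hya).2 he with
    ⟨-, a, ha, ea⟩ | ⟨k2, st, q1, eq, hq⟩ <;>
  rcases (lemA h1 h2 h3 hW c0 c1 gp' hy hx.1 hxb).2 he' with
    ⟨-, b, hb, eb⟩ | ⟨k2', st', q1', eq', hq'⟩
  · rw [ea, eb] at he
    rcases hC p hp p' hp' a ha b hb with h | h | h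
    · rw [h, self_one (unit hW (gp'.1 b (nv_sub gp' hb)))] at he
      exact absurd he c1.ne'
    · obtain ⟨a1, b1, -⟩ := hW.2.2.2.2 _ _ h
      have k3 := three hx a1 ea
      have k3' := three hy b1 eb
      have h5 := hm p hp p' hp'
      unfold cmp at h5
      rw [cnd_beq, if_pos k3, cnd_beq, if_pos k3', hd_eq gp k3 ha, hd_eq gp' k3' hb, h] at h5
      exact absurd h5 (by decide)
    · exact absurd he h.ne'
  · exact mixed hW c1 gp gp' (hC p hp p' hp') (hm p hp p' hp') hx ha ea k2' st' q1' eq' hq'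
  · exact mixed hW c1 gp' gp (hC p' hp' p hp) (hm p' hp' p hp) hy hb eb k2 st q1 eq hq
  · have := three hy q1 eq
    omega

end Pool.Agent.MP_d23910_co.S7
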