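import Pool.Agent.MP_d23910_co.S7.Spec

/-!
Soundness of the slab rule.
-/

set_option autoImplicit false

namespace Pool.Agent.MP_d23910_co.S7

open scoped RealInnerProductSpace

theorem slabr_lin16 (h2 : LinS) (w p : ℕ) : Lin (lin16 w p) (2 ^ 17) := by
  have a1 := fld_le w p 65535
  have a2 := fld_le w (Nat.add p 16) 65535
  exact h2.2.1 _ _ _ (by rw [BB_eq]; omega) (by omega)

theorem slabr_inner (a b c x y z : ℝ) :
    ⟪(!₂[a, b, c] : E) - !₂[8388608, 8388608, 8388608],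
      (!₂[x, y, z] : E) - !₂[32768, 32768, 32768]⟫ =
      (a - 8388608) * (x - 32768) + (b - 8388608) * (y - 32768) + (c - 8388608) * (z - 32768) := by
  simp [PiLp.inner_apply, Fin.sum_univ_three]
  ring

theorem slabr_err {x u n : E} {e : ℝ} (h : ‖(4194304 : ℝ) • x - u‖ ≤ e) (hn : ‖n‖ ≤ 32768) :
    |4194304 * ⟪x, n⟫ - ⟪u, n⟫| ≤ 32768 * e := by
  have h1 := abs_real_inner_le_norm ((4194304 : ℝ) • x - u) n
  rw [inner_sub_left, real_inner_smul_left] at h1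
  have h2 := mul_le_mul h hn (norm_nonneg _) ((norm_nonneg _).trans h)
  linarith

theorem slabr (h1 : RepS) (h2 : LinS) (h3 : NearS) (h4 : ParS) (h5 : SlabS) : Sound slab := by
  intro d s V A B mA mB w hW hA hB hR i j p p' hi hj hmi hmj x y hx hy
  obtain ⟨hs0, hs1, hPar, hAp, -⟩ := hW
  obtain ⟨hD, hDl, -, -, hdd, -, hc0, -⟩ := h4 d s hs0 hs1 hPar
  obtain ⟨rc, rl, rm, ra, rmul, r1, r2, -, rge⟩ := h1 s hs0 hs1
  simp only [slab, force_eq, an_eq, Bool.and_eq_true] at hR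
  obtain ⟨⟨hn, hsc⟩, hsA, hsB⟩ := hR
  have hgA := fld_le w 96 65535
  have hgB := fld_le w 112 65535
  have lX := slabr_lin16 h2 w 0
  have lY := slabr_lin16 h2 w 32
  have lZ := slabr_lin16 h2 w 64
  generalize fld w 96 65535 = gA at *
  generalize fld w 112 65535 = gB at *
  generalize lin16 w 0 = X at *
  generalize lin16 w 32 = Y at *
  generalize lin16 w 64 = Z at *
  obtain ⟨vh, lh⟩ := h2.2.2.2.2.1 s 32768 (by norm_num [BB])
  have cb : ∀ n M : ℕ, n ≤ M → Rep s 0 n n M := fun n M h => rm _ _ _ _ _ (rc n) h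
  have mono : ∀ {X M M' : ℕ}, Lin X M → M ≤ M' → Lin X M' := fun h h' => le_trans h h'
  have hn' := h3 s _ _ 0 _ hs0 hs1
    (h2.2.2.2.2.2.2.1 _ _ _ _ (mono lX (by norm_num)) (mono lY (by norm_num))
      (mono lZ (by norm_num)))
    (h2.2.2.2.2.2.2.1 _ _ _ _ (mono lh (by norm_num)) (mono lh (by norm_num))
      (mono lh (by norm_num))) (by norm_num) (mono lh (by norm_num)) hn
  have horg := h2.2.2.2.2.2.2.2.2.2.1 s
  have vo : val s org.X = 8388608 := by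
    have := congrArg (fun v : E => v 0) horg
    simpa [P3.v] using this
  have rX := rl _ _ lX
  have rY := rl _ _ lY
  have rZ := rl _ _ lZ
  have rh := rl _ _ lh
  have rD := rl _ _ hDl
  have ro := rl _ _ h2.2.2.2.2.2.2.2.2.1.2.1
  rw [vh] at rh hn'
  rw [vo] at ro
  rw [hD] at rD
  have en : (mk3 X Y Z).v s - (mk3 (Nat.mul 32768 H1) (Nat.mul 32768 H1) (Nat.mul 32768 H1)).v s =
      (!₂[val s X, val s Y, val s Z] : E) - !₂[32768, 32768, 32768] := by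
    simp only [P3.v, mk3, vh, Nat.cast_ofNat]
  rw [en] at hn'
  set n : E := (!₂[val s X, val s Y, val s Z] : E) - !₂[32768, 32768, 32768] with hndef
  have hnn : ‖n‖ ≤ 32768 := by
    simp only [Nat.cast_zero, add_zero, Nat.cast_ofNat] at hn'
    exact hn'.le
  have rK1 := rmul _ _ _ _ _ _ _ _ ro (ra _ _ _ _ _ _ _ (ra _ _ _ _ _ _ _ rX rY) rZ)
  have rK2 := rmul _ _ _ _ _ _ _ _ (rc 824633720832) r2
  have rG : ∀ g : ℕ, g ≤ 65535 → Rep s 2 (Nat.mul (Nat.mul (Nat.mul 2 g) d.D) H1)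
      (((Nat.mul 2 g : ℕ) : ℝ) * (4194304 * d.dd s) * 1) (2 ^ 17 * 2 ^ 24 * 2) := fun g hg =>
    rmul _ _ _ _ _ _ _ _ (rmul _ _ _ _ _ _ _ _
      (cb (Nat.mul 2 g) (2 ^ 17) (by simp only [Nat.mul_eq]; omega)) rD) r1
  have vert : ∀ v : Vx, Good d v →
      Rep s 2 (dt v.p (mk3 X Y Z))
        (val s v.p.X * val s X + val s v.p.Y * val s Y + val s v.p.Z * val s Z)
        (2 ^ 25 * 2 ^ 17 + 2 ^ 25 * 2 ^ 17 + 2 ^ 25 * 2 ^ 17) ∧
      Rep s 1 (sm v.p) (val s v.p.X + val s v.p.Y + val s v.p.Z) (2 ^ 25 + 2 ^ 25 + 2 ^ 25) ∧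
      Rep s 1 (Nat.mul v.e H1) ((v.e : ℝ) * 1) (65535 * 2) ∧
      |4194304 * ⟪V v.i, n⟫ - ((val s v.p.X - 8388608) * (val s X - 32768) +
        (val s v.p.Y - 8388608) * (val s Y - 32768) +
        (val s v.p.Z - 8388608) * (val s Z - 32768))| ≤ 32768 * v.e := by
    intro v hv
    obtain ⟨-, a2, ⟨-, l1, l2, l3⟩, a4⟩ := hAp v hv
    refine ⟨ra _ _ _ _ _ _ _ (ra _ _ _ _ _ _ _ (rmul _ _ _ _ _ _ _ _ (rl _ _ l1) rX)
      (rmul _ _ _ _ _ _ _ _ (rl _ _ l2) rY)) (rmul _ _ _ _ _ _ _ _ (rl _ _ l3) rZ),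
      ra _ _ _ _ _ _ _ (ra _ _ _ _ _ _ _ (rl _ _ l1) (rl _ _ l2)) (rl _ _ l3),
      rmul _ _ _ _ _ _ _ _ (cb _ _ a4) r1, ?_⟩
    have := slabr_err a2 hnn
    rw [horg, P3.v, hndef, slabr_inner] at this
    exact this
  have hdd0 : 0 < d.dd s := by linarith
  have sc := rge 2 _ _ _ _ _ _ (by norm_num)
    (ra _ _ _ _ _ _ _ (rmul _ _ _ _ _ _ _ _
        (cb (Nat.mul (Nat.mul (Nat.add gA gB) (Nat.add gA gB)) 70368744177664)
          (2 ^ 17 * 2 ^ 17 * 70368744177664) (Nat.mul_le_mul_right _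
            (Nat.mul_le_mul (by simp only [Nat.add_eq]; omega) (by simp only [Nat.add_eq]; omega))))
        r2)
      (rmul _ _ _ _ _ _ _ _ (rc 268435456) (rmul _ _ _ _ _ _ _ _ rD rD)))
    (ra _ _ _ _ _ _ _ (rmul _ _ _ _ _ _ _ _ (rc 18889465931478580854785) r2)
      (rmul _ _ _ _ _ _ _ _
        (cb (Nat.mul (Nat.mul 4 gA) gB) (4 * 65535 * 65535)
          (Nat.mul_le_mul (Nat.mul_le_mul_left _ hgA) hgB))
        (rmul _ _ _ _ _ _ _ _ rD rD)))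
    (by norm_num) (by norm_num) hsc
  simp only [Nat.mul_eq, Nat.add_eq] at sc
  push_cast at sc
  refine (h5 (p.pts V) (p'.pts V) n x y 32768 (gA * d.dd s / 16384) (gB * d.dd s / 16384) (d.cc s)
    ?_ ?_ (by norm_num) hnn (by positivity) (by positivity) hc0.le ?_ ?_ ?_ hx.1 hy.1 hx.2.1
    hy.2.1).ne
  · rintro _ ⟨v, hv, rfl⟩
    exact (hAp v ((hA p (List.mem_of_getElem? hi)).1 v hv)).1
  · rintro _ ⟨v, hv, rfl⟩
    exact (hAp v ((hB p' (List.mem_of_getElem? hj)).1 v hv)).1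
  · rintro _ ⟨v, hv, rfl⟩
    obtain ⟨q1, q2, q3, q4⟩ := vert v ((hA p (List.mem_of_getElem? hi)).1 v hv)
    have t := (allL_iff _ _).1 (allSel_spec _ _ _ hsA i p hi hmi) v hv
    have u := rge 2 _ _ _ _ _ _ (by norm_num) (ra _ _ _ _ _ _ _ q1 rK2)
      (ra _ _ _ _ _ _ _ (ra _ _ _ _ _ _ _ rK1 (rG gA hgA))
        (rmul _ _ _ _ _ _ _ _ rh (ra _ _ _ _ _ _ _ q2 q3))) (by norm_num) (by norm_num) t
    simp only [Nat.mul_eq] at u
    push_cast at u
    have := (abs_le.1 q4).1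
    linarith
  · rintro _ ⟨v, hv, rfl⟩
    obtain ⟨q1, q2, q3, q4⟩ := vert v ((hB p' (List.mem_of_getElem? hj)).1 v hv)
    have t := (allL_iff _ _).1 (allSel_spec _ _ _ hsB j p' hj hmj) v hv
    have u := rge 2 _ _ _ _ _ _ (by norm_num)
      (ra _ _ _ _ _ _ _ rK1 (rmul _ _ _ _ _ _ _ _ rh q2))
      (ra _ _ _ _ _ _ _ (ra _ _ _ _ _ _ _ q1 (ra _ _ _ _ _ _ _ rK2 (rG gB hgB)))
        (rmul _ _ _ _ _ _ _ _ rh q3)) (by norm_num) (by norm_num) t
    simp only [Nat.mul_eq] at u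
    push_cast at u
    have := (abs_le.1 q4).2
    linarith
  · have hsq : 0 < d.dd s ^ 2 := by positivity
    have k : 18889465931478580854784 - 4722366482869645213696 * d.dd s ^ 2 <
        70368744177664 * (((gA : ℝ) + gB) ^ 2 - d.dd s ^ 2 * (gA * gB)) := by
      linarith
    have k2 := mul_lt_mul_of_pos_left k hsq
    simp only [Dat.cc]
    linarith

end Pool.Agent.MP_d23910_co.S7
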