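import Pool.Agent.MP_d23910_co.S7.Spec

/-! One step of the construction of the true vertices. -/

set_option autoImplicit false

namespace Pool.Agent.MP_d23910_co.S7

open scoped RealInnerProductSpace

namespace StepA

theorem lin_mono {X M M' : ℕ} (h : Lin X M) (hM : M ≤ M') : Lin X M' := le_trans h hM

theorem ok_mono {a : P3} {M M' : ℕ} (h : a.Ok M) (hM : M ≤ M') : a.Ok M' :=
  ⟨h.1, lin_mono h.2.1 hM, lin_mono h.2.2.1 hM, lin_mono h.2.2.2 hM⟩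

theorem rad (h1 : LinS) (h2 : NearS) (h3 : FarS) {s : ℝ} (s0 : 0 ≤ s) (s1 : s < 1) (i : ℕ) {p : P3}
    {e : ℕ} (hp : p.Ok (2 ^ 25)) (he : e ≤ 65535) (h : radial p e = true) :
    ∃ y, Ap s y ⟨i, p, e⟩ := by
  obtain ⟨ha, hb⟩ := Bool.and_eq_true_iff.1 h
  have ho : org.Ok (2 ^ 27) := ok_mono h1.2.2.2.2.2.2.2.2.1 (by norm_num)
  have hp' : p.Ok (2 ^ 27) := ok_mono hp (by norm_num)
  obtain ⟨a1, a2⟩ := h1.2.2.2.2.1 s (4194304 + e) (by unfold BB; omega)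
  obtain ⟨b1, b2⟩ := h1.2.2.2.2.1 s 4194304 (by unfold BB; omega)
  have a3 := h2 s p org 0 _ s0 s1 hp' ho (by norm_num) (lin_mono a2 (by omega)) ha
  have b3 := h3 s p org e _ s0 s1 hp' ho (by omega) (lin_mono b2 (by norm_num)) hb
  rw [a1] at a3
  rw [b1] at b3
  push_cast at a3 b3
  have he' : (e : ℝ) ≤ 65535 := by exact_mod_cast he
  generalize hx : p.v s - org.v s = x at a3 b3
  have hn : 0 < ‖x‖ := by linarith
  refine ⟨‖x‖⁻¹ • x, ?_, ?_, hp, he⟩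
  · rw [norm_smul, norm_inv, norm_norm, inv_mul_cancel₀ hn.ne']
  · have e1 : (4194304 : ℝ) • ‖x‖⁻¹ • x - x = ((4194304 - ‖x‖) * ‖x‖⁻¹) • x := by
      rw [sub_mul, mul_inv_cancel₀ hn.ne', sub_smul, one_smul, mul_smul]
    change ‖(4194304 : ℝ) • ‖x‖⁻¹ • x - (p.v s - org.v s)‖ ≤ e
    rw [hx, e1, norm_smul, norm_mul, norm_inv, norm_norm, mul_assoc, inv_mul_cancel₀ hn.ne', mul_one,
      Real.norm_eq_abs, abs_le]
    constructor <;> linarith

theorem abt (h1 : LinS) (h2 : NearS) (h3 : FarS) (h5 : ParS) {d : Dat} (hd : d.Par) {s : ℝ}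
    (s0 : 0 ≤ s) (s1 : s < 1) {y z : E} {v p : Vx} {ep mu η : ℕ} (hy : Ap s y ⟨v.i, v.p, ep⟩)
    (hz : Ap s z p) (hm : mu ≤ 65535) (h : about d v p mu = true) (hη : mu + ep + p.e ≤ η) :
    |‖y - z‖ - d.dd s| ≤ (η : ℝ) / 4194304 := by
  obtain ⟨ha, hb⟩ := Bool.and_eq_true_iff.1 h
  obtain ⟨d1, d2, -⟩ := h5 d s s0 s1 hd
  have hv : v.p.Ok (2 ^ 27) := ok_mono hy.2.2.1 (by norm_num)
  have hp : p.p.Ok (2 ^ 27) := ok_mono hz.2.2.1 (by norm_num)
  obtain ⟨a1, a2⟩ := h1.2.2.2.2.1 s mu (by unfold BB; omega)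
  obtain ⟨c1, c2⟩ := h1.2.2.1 s _ _ _ _ d2 a2 (by unfold BB; omega)
  have a3 := h2 s v.p p.p 0 _ s0 s1 hv hp (by norm_num) (lin_mono c2 (by omega)) ha
  have b3 := h3 s v.p p.p mu _ s0 s1 hv hp (by omega) (lin_mono d2 (by norm_num)) hb
  rw [c1, a1, d1] at a3
  rw [d1] at b3
  have e1 : (4194304 : ℝ) • (y - z) - (v.p.v s - p.p.v s) =
      ((4194304 : ℝ) • y - (v.p.v s - org.v s)) - ((4194304 : ℝ) • z - (p.p.v s - org.v s)) := by
    rw [smul_sub]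
    abel
  have e2 := abs_norm_sub_norm_le ((4194304 : ℝ) • (y - z)) (v.p.v s - p.p.v s)
  have e3 := norm_sub_le ((4194304 : ℝ) • y - (v.p.v s - org.v s))
    ((4194304 : ℝ) • z - (p.p.v s - org.v s))
  have e4 : ‖(4194304 : ℝ) • y - (v.p.v s - org.v s)‖ ≤ ep := hy.2.1
  have e5 := hz.2.1
  have e6 : (mu : ℝ) + ep + p.e ≤ η := by exact_mod_cast hη
  rw [e1, norm_smul, Real.norm_of_nonneg (by norm_num), abs_le] at e2
  push_cast at a3
  rw [abs_le]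
  constructor <;> linarith [e2.1, e2.2]

theorem mv {s : ℝ} {y w : E} {v : Vx} {ep : ℕ} (hy : Ap s y ⟨v.i, v.p, ep⟩) (hw : ‖w‖ = 1)
    (he : v.e ≤ 65535) (h : 4194304 * ‖w - y‖ + ep ≤ v.e) : Ap s w v := by
  refine ⟨hw, ?_, hy.2.2.1, he⟩
  have e1 : (4194304 : ℝ) • w - (v.p.v s - org.v s) =
      (4194304 : ℝ) • (w - y) + ((4194304 : ℝ) • y - (v.p.v s - org.v s)) := by
    rw [smul_sub]
    abel
  have e4 : ‖(4194304 : ℝ) • y - (v.p.v s - org.v s)‖ ≤ ep := hy.2.1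
  rw [e1]
  refine (norm_add_le _ _).trans ?_
  rw [norm_smul, Real.norm_of_nonneg (by norm_num)]
  linarith

theorem two (h4 : DetVS) (h5 : ParS) (h7 : Par2S) {d : Dat} (hd : d.Par) {s : ℝ} (s0 : 0 ≤ s)
    (s1 : s < 1) {y x z : E} {a p q : Vx} {η e l : ℕ} (hy : Ap s y a) (hx : Ap s x p) (hz : Ap s z q)
    (hη : η ≤ 196605) (he : e ≤ 65535) (e0 : 0 < e) (hl : l = d.Dm + η)
    (a1 : |‖y - x‖ - d.dd s| ≤ (η : ℝ) / 4194304) (a2 : |‖y - z‖ - d.dd s| ≤ (η : ℝ) / 4194304)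
    (h : detV a p q (2 * l) (4194304 * (2 * η * l + e * e) * l / e + 1) = true) :
    ∃ w : E, ‖w‖ = 1 ∧ ⟪w, x⟫ = d.cc s ∧ ⟪w, z⟫ = d.cc s ∧ 4194304 * ‖w - y‖ ≤ e := by
  obtain ⟨-, -, d3, d4, d5, -⟩ := h5 d s s0 s1 hd
  have l1 : l ≤ 5096605 := by omega
  have l2 : (l : ℝ) = d.Dm + η := by rw [hl]; push_cast; rfl
  have n1 : 4194304 * (2 * η * l + e * e) * l ≤
      4194304 * (2 * 196605 * 5096605 + 65535 * 65535) * 5096605 := by gcongr
  have n2 := Nat.div_le_self (4194304 * (2 * η * l + e * e) * l) e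
  have n3 := Nat.lt_mul_div_succ (4194304 * (2 * η * l + e * e) * l) e0
  have b1 := (abs_le.1 a1).2
  have b2 := (abs_le.1 a2).2
  have b3 : ‖x - z‖ ≤ ‖y - x‖ + ‖y - z‖ := by
    rw [norm_sub_rev y x]
    exact norm_sub_le_norm_sub_add_norm_sub x y z
  have b4 := norm_nonneg (y - x)
  have b5 := norm_nonneg (y - z)
  have ht := h4 s y x z a p q _ _ s0 s1 hy hx hz (by omega) (by omega) (by push_cast; linarith)
    (by push_cast; linarith) (by push_cast; linarith) h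
  generalize 4194304 * (2 * η * l + e * e) * l / e + 1 = t at n3 ht
  have n4 : (4194304 : ℝ) * (2 * η * l + e * e) * l < e * t := by exact_mod_cast n3
  have e1 : (0 : ℝ) < e := by exact_mod_cast e0
  have t0 : (0 : ℝ) ≤ t := Nat.cast_nonneg t
  have n5 := mul_lt_mul_of_pos_left ht e1
  obtain ⟨w, w1, w2, w3, w4⟩ := h7 y x z (d.dd s) (η / 4194304) (l / 4194304) (e / 4194304) hy.1
    hx.1 hz.1 (by positivity) (by linarith) (by linarith) (by positivity) a1 a2 (by linarith)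
    (by linarith)
  exact ⟨w, w1, w2, w3, by linarith⟩

theorem hp_spec {d : Dat} {i j : ℕ} (h : hp d i j = true) : i < d.nZ ∧ j < i ∧
    (fld (ent d.ZT 6 63 64 i) 0 65535 = j ∨ fld (ent d.ZT 6 63 64 i) 16 65535 = j) := by
  simpa only [hp, force_eq, an_eq, orr_eq, Bool.and_eq_true, Bool.or_eq_true, blt_iff, beq_iff,
    and_assoc] using h

end StepA

open StepA in
theorem step (h1 : LinS) (h2 : NearS) (h3 : FarS) (h4 : DetVS) (h5 : ParS) (h6 : Par1S)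
    (h7 : Par2S) : StepS := by
  intro d s V i s0 s1 hd hi h hV
  have vi : (vx d i).i = i := (vx_i d i).trans (Nat.mod_eq_of_lt hi)
  have vo := h1.2.2.2.2.2.2.2.2.2.2 d i
  have ve := vx_e_le d i
  rw [chkV1, getV_eq, cnd_blt, vi] at h
  split_ifs at h with hz
  swap
  · obtain ⟨y, hy⟩ := rad h1 h2 h3 s0 s1 (vx d i).i vo ve h
    exact ⟨y, hy, fun j hj => absurd (hp_spec hj).1 hz⟩
  have hj := fun j => hp_spec (d := d) (i := i) (j := j)
  simp only [chkZ, getV_eq, force_eq, cnd_blt, cnd_ble, an_eq, Bool.and_eq_true, ble_iff] at h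
  rw [← vi] at hj
  have m1 := fld_le (ent d.ZT 6 63 64 (vx d i).i) 32 65535
  have m2 := fld_le (ent d.ZT 6 63 64 (vx d i).i) 48 65535
  generalize fld (ent d.ZT 6 63 64 (vx d i).i) 0 65535 = p1 at h hj
  generalize fld (ent d.ZT 6 63 64 (vx d i).i) 16 65535 = p2 at h hj
  generalize fld (ent d.ZT 6 63 64 (vx d i).i) 32 65535 = ep at h m1
  generalize fld (ent d.ZT 6 63 64 (vx d i).i) 48 65535 = mu at h m2
  rw [vi] at hj
  obtain ⟨⟨hr, he⟩, h⟩ := h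
  obtain ⟨y, hy⟩ := rad h1 h2 h3 s0 s1 (vx d i).i vo m1 hr
  by_cases c1 : p1 < i
  swap
  · rw [if_neg (by rwa [vi]), ble_iff, vi] at h
    refine ⟨y, mv hy hy.1 ve ?_, fun j hh => ?_⟩
    · rw [sub_self, norm_zero, mul_zero, zero_add]
      exact_mod_cast he
    · have := hj j hh
      omega
  rw [if_pos (by rwa [vi]), Bool.and_eq_true] at h
  obtain ⟨a1, h⟩ := h
  have pe := vx_e_le d p1
  by_cases c2 : p2 < i
  swap
  · rw [if_neg (by rwa [vi]), ble_iff] at h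
    have h' : 4 * ep + 5 * (mu + ep + (vx d p1).e) ≤ 4 * (vx d i).e := h
    have b1 := abt h1 h2 h3 h5 hd s0 s1 hy (hV p1 c1) m2 a1 le_rfl
    generalize mu + ep + (vx d p1).e = η at h' b1
    obtain ⟨-, -, -, -, d5, d6, -⟩ := h5 d s s0 s1 hd
    have r1 : (4 : ℝ) * ep + 5 * η ≤ 4 * (vx d i).e := by exact_mod_cast h'
    have r2 : (η : ℝ) ≤ 52428 := by exact_mod_cast (by omega : η ≤ 52428)
    obtain ⟨w, w1, w2, w3⟩ := h6 y (V p1) (d.dd s) _ hy.1 (hV p1 c1).1 (by positivity)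
      (by linarith) (by linarith) b1
    refine ⟨w, mv hy w1 ve (by linarith), fun j hh => ?_⟩
    obtain rfl : p1 = j := by
      have := hj j hh
      omega
    exact w2
  rw [if_pos (by rwa [vi]), Bool.and_eq_true, Bool.and_eq_true, blt_iff] at h
  obtain ⟨a2, e0, h⟩ := h
  have qe := vx_e_le d p2
  generalize hm : (if (vx d p1).e ≤ (vx d p2).e then (vx d p2).e else (vx d p1).e) = m at h
  have m3 : (vx d p1).e ≤ m ∧ (vx d p2).e ≤ m ∧ m ≤ 65535 := by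
    split_ifs at hm <;> omega
  obtain ⟨w, w1, w2, w3, w4⟩ := two (η := mu + ep + m) (e := (vx d i).e - ep) h4 h5 h7 hd s0 s1 hy
    (hV p1 c1) (hV p2 c2) (by omega) (by omega) e0 rfl
    (abt h1 h2 h3 h5 hd s0 s1 hy (hV p1 c1) m2 a1 (by omega))
    (abt h1 h2 h3 h5 hd s0 s1 hy (hV p2 c2) m2 a2 (by omega)) h
  rw [Nat.cast_sub he] at w4
  refine ⟨w, mv hy w1 ve (by linarith), fun j hh => ?_⟩
  rcases (hj j hh).2.2 with rfl | rfl
  exacts [w2, w3]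

end Pool.Agent.MP_d23910_co.S7
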