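import Pool.Agent.MP_d23910_co.S7.Spec

/-!
From the approximations to the true vertices.
-/

set_option autoImplicit false

namespace Pool.Agent.MP_d23910_co.S7

open scoped RealInnerProductSpace

namespace TrueAux

theorem ok_mono {a : P3} {M M' : ℕ} (h : a.Ok M) (hM : M ≤ M') : a.Ok M' :=
  ⟨h.1, h.2.1.trans hM, h.2.2.1.trans hM, h.2.2.2.trans hM⟩

theorem det_le (u v w : E) : |det3 u v w| ≤ ‖u‖ * ‖v‖ * ‖w‖ := by
  refine abs_le_of_sq_le_sq' ?_ (by positivity) |> abs_le.2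
  rw [mul_pow, mul_pow, EuclideanSpace.real_norm_sq_eq, EuclideanSpace.real_norm_sq_eq,
    EuclideanSpace.real_norm_sq_eq]
  simp only [Fin.sum_univ_three, det3]
  generalize u 0 = a, u 1 = b, u 2 = c, v 0 = d, v 1 = e, v 2 = f, w 0 = g, w 1 = h, w 2 = i
  have h1 : (a * (e * i - f * h) + b * (f * g - d * i) + c * (d * h - e * g)) ^ 2 ≤
      (a ^ 2 + b ^ 2 + c ^ 2) * ((e * i - f * h) ^ 2 + (f * g - d * i) ^ 2 + (d * h - e * g) ^ 2) := by
    generalize e * i - f * h = x, f * g - d * i = y, d * h - e * g = z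
    nlinarith [sq_nonneg (a * y - b * x), sq_nonneg (a * z - c * x), sq_nonneg (b * z - c * y)]
  have h2 : (e * i - f * h) ^ 2 + (f * g - d * i) ^ 2 + (d * h - e * g) ^ 2 ≤
      (d ^ 2 + e ^ 2 + f ^ 2) * (g ^ 2 + h ^ 2 + i ^ 2) := by
    nlinarith [sq_nonneg (d * g + e * h + f * i)]
  rw [mul_assoc]
  exact h1.trans (mul_le_mul_of_nonneg_left h2 (by positivity))

theorem det_bd {u v w : E} {p q r : ℝ} (hu : ‖u‖ ≤ p) (hv : ‖v‖ ≤ q) (hw : ‖w‖ ≤ r) :
    |det3 u v w| ≤ p * q * r := by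
  have := (norm_nonneg u).trans hu
  have := (norm_nonneg v).trans hv
  refine (det_le u v w).trans ?_
  gcongr

theorem nrm (x : E) : ‖(4194304 : ℝ) • x‖ = 4194304 * ‖x‖ := by
  rw [norm_smul, Real.norm_of_nonneg (by norm_num)]

theorem diff {s : ℝ} {x y : E} {a b : Vx} (ha : Ap s x a) (hb : Ap s y b) :
    ‖(4194304 : ℝ) • (x - y) - (a.p.v s - b.p.v s)‖ ≤ a.e + b.e := by
  have e : (4194304 : ℝ) • (x - y) - (a.p.v s - b.p.v s) =
      ((4194304 : ℝ) • x - (a.p.v s - org.v s)) - ((4194304 : ℝ) • y - (b.p.v s - org.v s)) := by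
    rw [smul_sub]; abel
  rw [e]
  exact (norm_sub_le _ _).trans (add_le_add ha.2.1 hb.2.1)

theorem tri {A a : E} {p q : ℝ} (h : ‖A‖ ≤ p) (h' : ‖A - a‖ ≤ q) : ‖a‖ ≤ p + q := by
  have e : a = A - (A - a) := by abel
  calc ‖a‖ = ‖A - (A - a)‖ := by rw [← e]
    _ ≤ _ := (norm_sub_le _ _).trans (add_le_add h h')

theorem core {A B C a b c : E} {S l ea eb ec : ℝ} (hA : ‖A‖ ≤ S) (hB : ‖B‖ ≤ S) (hC : ‖C‖ ≤ S)
    (ha : ‖A - a‖ ≤ ea) (hb : ‖B - b‖ ≤ eb) (hc : ‖C - c‖ ≤ ec) (hAB : ‖A - B‖ ≤ l)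
    (hAC : ‖A - C‖ ≤ l) (hBC : ‖B - C‖ ≤ l) :
    det3 a b c ≤ det3 A B C + (S + (ea + eb + ec)) * (ea + eb + ec) * (l + (ea + eb + ec)) := by
  have e : det3 A B C - det3 a b c =
      -det3 (A - a) B (B - C) + det3 (a - C) (B - b) C - det3 a (a - b) (C - c) := by
    simp only [det3, PiLp.sub_apply]; ring
  have n1 : ‖a - C‖ ≤ l + ea := tri hAC (by rw [sub_sub_sub_cancel_right]; exact ha)
  have n2 : ‖a - b‖ ≤ l + (ea + eb) := tri hAB (by
    rw [show A - B - (a - b) = (A - a) - (B - b) by abel]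
    exact (norm_sub_le _ _).trans (add_le_add ha hb))
  have d1 := abs_le.1 (det_bd ha hB hBC)
  have d2 := abs_le.1 (det_bd n1 hb hC)
  have d3 := abs_le.1 (det_bd (tri hA ha) n2 hc)
  have pa := (norm_nonneg _).trans ha
  have pb := (norm_nonneg _).trans hb
  have pc := (norm_nonneg _).trans hc
  have pS := (norm_nonneg _).trans hA
  have pl := (norm_nonneg _).trans hAB
  have k1 : ea * S * l ≤ ea * (S + (ea + eb + ec)) * (l + (ea + eb + ec)) := by
    gcongr <;> linarith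
  have k2 : (l + ea) * eb * S ≤ (l + (ea + eb + ec)) * eb * (S + (ea + eb + ec)) := by
    gcongr <;> linarith
  have k3 : (S + ea) * (l + (ea + eb)) * ec ≤ (S + (ea + eb + ec)) * (l + (ea + eb + ec)) * ec :=
    mul_le_mul_of_nonneg_right
      (mul_le_mul (by linarith) (by linarith) (by positivity) (by positivity)) pc
  linarith [d1.2, d2.1, d3.2]

end TrueAux

open TrueAux

theorem nearv (h : NearS) : NearVS := by
  intro s x y a b T h0 h1 ha hb hT hn
  have hea := ha.2.2.2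
  have heb := hb.2.2.2
  have h2 := h s a.p b.p (a.e + b.e) T h0 h1 (ok_mono ha.2.2.1 (by norm_num))
    (ok_mono hb.2.2.1 (by norm_num)) (by omega) hT hn
  have h3 := diff ha hb
  have h4 := norm_le_norm_add_norm_sub' ((4194304 : ℝ) • (x - y)) (a.p.v s - b.p.v s)
  rw [nrm] at h4
  push_cast at h2
  linarith

theorem dotv (h : DotS) : DotVS := by
  intro s x y z w a p u q l h0 h1 ha hp hu hq hl hxy hzw hd
  have e1 := ha.2.2.2
  have e2 := hp.2.2.2
  have e3 := hu.2.2.2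
  have e4 := hq.2.2.2
  rw [dotV, force_eq] at hd
  have hb : (a.e + p.e + (u.e + q.e)) * (l + (a.e + p.e + (u.e + q.e))) ≤ 2 ^ 60 :=
    (Nat.mul_le_mul (show _ ≤ 2 ^ 18 by omega) (show _ ≤ 2 ^ 27 by omega)).trans (by norm_num)
  have h2 := h s a.p p.p u.p q.p _ h0 h1 (ok_mono ha.2.2.1 (by norm_num))
    (ok_mono hp.2.2.1 (by norm_num)) (ok_mono hu.2.2.1 (by norm_num))
    (ok_mono hq.2.2.1 (by norm_num)) hb hd
  have d1 := diff ha hp
  have d2 := diff hu hq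
  rw [← nrm] at hxy hzw
  have d3 := tri hxy d1
  have e : ⟪(4194304 : ℝ) • (x - y), (4194304 : ℝ) • (z - w)⟫ = 4194304 ^ 2 * ⟪x - y, z - w⟫ := by
    rw [real_inner_smul_left, real_inner_smul_right]; ring
  generalize (4194304 : ℝ) • (x - y) = A at *
  generalize (4194304 : ℝ) • (z - w) = U at *
  generalize a.p.v s - p.p.v s = A' at *
  generalize u.p.v s - q.p.v s = U' at *
  have e5 : ⟪A, U⟫ = ⟪A', U'⟫ + ⟪A - A', U⟫ + ⟪A', U - U'⟫ := by
    rw [inner_sub_left, inner_sub_right]; ring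
  have pa : (0 : ℝ) ≤ a.e + p.e := by positivity
  have pu : (0 : ℝ) ≤ u.e + q.e := by positivity
  have pl : (0 : ℝ) ≤ l := by positivity
  have i1 : ⟪A - A', U⟫ ≤ (a.e + p.e) * l := (real_inner_le_norm _ _).trans (by gcongr)
  have i2 : ⟪A', U - U'⟫ ≤ (l + (a.e + p.e)) * (u.e + q.e) :=
    (real_inner_le_norm _ _).trans (by gcongr)
  push_cast at h2
  nlinarith [mul_nonneg pa pa, mul_nonneg pa pu, mul_nonneg pu pu]

theorem detv (h : DetS) : DetVS := by
  intro s x y z a b c l t h0 h1 ha hb hc hl ht hxy hxz hyz hd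
  have e1 := ha.2.2.2
  have e2 := hb.2.2.2
  have e3 := hc.2.2.2
  rw [detV, force_eq] at hd
  have hb' : (4194304 + (a.e + b.e + c.e)) * (a.e + b.e + c.e) * (l + (a.e + b.e + c.e)) ≤ 2 ^ 90 :=
    (Nat.mul_le_mul (Nat.mul_le_mul (show _ ≤ 2 ^ 23 by omega) (show _ ≤ 2 ^ 18 by omega))
      (show _ ≤ 2 ^ 27 by omega)).trans (by norm_num)
  have h2 := h s a.p b.p c.p
    ((4194304 + (a.e + b.e + c.e)) * (a.e + b.e + c.e) * (l + (a.e + b.e + c.e)) + t) h0 h1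
    ha.2.2.1 hb.2.2.1 hc.2.2.1 (by omega) hd
  rw [← nrm, smul_sub] at hxy hxz hyz
  have h3 := core (S := 4194304) (by rw [nrm, ha.1, mul_one]) (by rw [nrm, hb.1, mul_one])
    (by rw [nrm, hc.1, mul_one]) ha.2.1 hb.2.1 hc.2.1 hxy hxz hyz
  have e : det3 ((4194304 : ℝ) • x) ((4194304 : ℝ) • y) ((4194304 : ℝ) • z) =
      4194304 ^ 3 * det3 x y z := by
    simp only [det3, PiLp.smul_apply, smul_eq_mul]; ring
  push_cast at h2
  linarith

end Pool.Agent.MP_d23910_co.S7
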