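import Pool.Agent.MP_d23910_co.S7.Spec

/-! Soundness of the wedge rule. -/

set_option autoImplicit false

namespace Pool.Agent.MP_d23910_co.S7

open scoped RealInnerProductSpace

theorem wedger_cone {A : Set E} {z y : E} (hA : ∀ a ∈ A, a = z) (hz : ‖z‖ = 1) (hy : ‖y‖ = 1)
    (h : Cone A y) : y = z := by
  obtain ⟨F, α, h1, h2, h3⟩ := h
  have h4 : y = (∑ a ∈ F, α a) • z := by
    rw [h3, Finset.sum_smul]
    exact Finset.sum_congr rfl fun a ha => by rw [hA a (h1 a ha)]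
  have h5 : 0 ≤ ∑ a ∈ F, α a := Finset.sum_nonneg fun a _ => h2 a
  have h6 : ∑ a ∈ F, α a = 1 := by
    rw [h4, norm_smul, hz, mul_one, Real.norm_of_nonneg h5] at hy
    exact hy
  rw [h4, h6, one_smul]

theorem wedger (h1 : LinS) (h2 : NearVS) (h3 : DotVS) (h4 : ParS) (h5 : WedgeS) : Sound wedge := by
  intro d s V A B mA mB w hW hA hB hR i j p p' hi hj bi bj x y hx hy hxy
  obtain ⟨s0, s1, hP, hAp, hrel⟩ := hW
  simp only [wedge, getV_eq, force_eq, an_eq, Bool.and_eq_true] at hR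
  generalize hq : vx d (fld w 16 65535) = q at hR
  generalize hl : Nat.mul (fld w 32 65535) 256 = l at hR
  have gq : Good d q := hq ▸ (h4 d s s0 s1 hP).2.2.2.2.2.2.2.2.1 _
  have ll : l ≤ 65535 * 256 := hl ▸ Nat.mul_le_mul_right 256 (fld_le w 32 65535)
  obtain ⟨vT, lT⟩ := h1.2.2.2.2.1 s l (by rw [BB_eq]; omega)
  have lT' : Lin (Nat.mul l H1) (2 ^ 30) := le_trans lT (by omega)
  have gp := hA p (List.mem_of_getElem? hi)
  have gp' := hB p' (List.mem_of_getElem? hj)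
  have r1 := (allL_iff _ _).1 (allSel_spec _ _ _ hR.1 j p' hj bj)
  have r2 := allSel_spec _ _ _ hR.2 i p hi bi
  simp only [Bool.and_eq_true, beq_iff] at r2
  obtain ⟨⟨⟨k1, qi⟩, r3⟩, r4⟩ := r2
  have r3' := (allL_iff _ _).1 r3
  have r5 := (allL_iff _ _).1 (allSel_spec _ _ _ r4 j p' hj bj)
  have aq := hAp q gq
  have near : ∀ v, Good d v → nearV v q (Nat.mul l H1) = true →
      4194304 * ‖V v.i - V q.i‖ ≤ (l : ℝ) := fun v gv hv =>
    (vT ▸ h2 s _ _ v q _ s0 s1 (hAp v gv) aq lT' hv).le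
  have dot : ∀ u ∈ p'.L, allL (fun a => dotV a q u q l) p.L = true → ∀ a ∈ p.L,
      ⟪V a.i - V q.i, V u.i - V q.i⟫ < 0 := fun u hu hd a ha =>
    h3 s _ _ _ _ a q u q l s0 s1 (hAp a (gp.1 a ha)) aq (hAp u (gp'.1 u hu)) aq (by omega)
      (near a (gp.1 a ha) (r3' a ha)) (near u (gp'.1 u hu) (r1 u hu)) ((allL_iff _ _).1 hd a ha)
  obtain ⟨x1, x2, -, x4, -⟩ := hx
  obtain ⟨y1, y2, y3, -, -⟩ := hy
  obtain ⟨x5, x6⟩ := x4 k1
  rw [qi] at x5 x6
  obtain ⟨e1, e2⟩ := h5 (p.pts V) (p'.pts V) (V q.i) x y (d.cc s)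
    (by rintro _ ⟨v, hv, rfl⟩; exact (hAp v (gp.1 v hv)).1)
    (by rintro _ ⟨v, hv, rfl⟩; exact (hAp v (gp'.1 v hv)).1) aq.1
    (by
      rintro _ ⟨a, ha, rfl⟩ _ ⟨u, hu, rfl⟩
      have := r5 u hu
      simp only [orr_eq, Bool.or_eq_true, Bool.and_eq_true, beq_iff] at this
      rcases this with h | h
      · rw [h.1, sub_self, inner_zero_right]
      · exact (dot u hu h a ha).le) x1 y1 x2 y2 x5 hxy
  obtain ⟨-, m, a, b, hL, ra, -⟩ := gp.2.2.2 (Or.inl k1)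
  rw [qi] at ra
  have k3 : p'.k = 3 := by
    by_contra hk
    exact y3 hk q.i (hrel _ _ ra).1 e1
  obtain ⟨z, hz⟩ := gp'.2.2.1 k3
  have mz : z ∈ p'.L := by rw [hz]; exact List.mem_singleton_self z
  have e3 : y = V z.i := wedger_cone (A := p'.pts V)
    (by rintro _ ⟨v, hv, rfl⟩; rw [hz, List.mem_singleton] at hv; rw [hv])
    (hAp z (gp'.1 z mz)).1 y1 y2
  have := r5 z mz
  simp only [orr_eq, nt_eq, Bool.or_eq_true, Bool.and_eq_true, beq_iff, Bool.not_eq_true',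
    k3] at this
  rcases this with h | h
  · rcases h.2 with h | h
    · exact (x6 h).ne e2
    · exact absurd h (by decide)
  · have h6 := dot z mz h m (by rw [hL]; exact List.mem_cons_self)
    rw [← e3, e1, sub_self, inner_zero_right] at h6
    exact lt_irrefl _ h6

end Pool.Agent.MP_d23910_co.S7
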