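import Pool.Agent.MP_d23910_co.S7.All
import Pool.Agent.MP_d23910_co.S7.BandR
import Pool.Agent.MP_d23910_co.S7.Bit
import Pool.Agent.MP_d23910_co.S7.Cen
import Pool.Agent.MP_d23910_co.S7.Cln
import Pool.Agent.MP_d23910_co.S7.Coc
import Pool.Agent.MP_d23910_co.S7.Comb
import Pool.Agent.MP_d23910_co.S7.CombP
import Pool.Agent.MP_d23910_co.S7.Cover
import Pool.Agent.MP_d23910_co.S7.DblR
import Pool.Agent.MP_d23910_co.S7.DetP
import Pool.Agent.MP_d23910_co.S7.Exa
import Pool.Agent.MP_d23910_co.S7.Geo1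
import Pool.Agent.MP_d23910_co.S7.Geo2
import Pool.Agent.MP_d23910_co.S7.Grp
import Pool.Agent.MP_d23910_co.S7.Lin
import Pool.Agent.MP_d23910_co.S7.Main
import Pool.Agent.MP_d23910_co.S7.NearP
import Pool.Agent.MP_d23910_co.S7.Own
import Pool.Agent.MP_d23910_co.S7.Par1
import Pool.Agent.MP_d23910_co.S7.Par2
import Pool.Agent.MP_d23910_co.S7.Rep
import Pool.Agent.MP_d23910_co.S7.Scan
import Pool.Agent.MP_d23910_co.S7.Seg
import Pool.Agent.MP_d23910_co.S7.Self
import Pool.Agent.MP_d23910_co.S7.SlabR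
import Pool.Agent.MP_d23910_co.S7.Step
import Pool.Agent.MP_d23910_co.S7.TrueV
import Pool.Agent.MP_d23910_co.S7.WedgeR

/-!
Soundness of the checker, and the form in which one certificate extends the range of radii.
-/

set_option autoImplicit false

namespace Pool.Agent.MP_d23910_co.S7

theorem ownS : OwnS := own nvs lins (nearp rep) (nearv (nearp rep)) (detv (detp rep lins)) pars

theorem sound : MainS :=
  mainS (exs (step lins (nearp rep) (farp rep) (detv (detp rep lins)) pars par1 par2))
    (arcs lins (nearv (nearp rep)) (detv (detp rep lins)) pars) (cls lins pars) ownS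
    (scn ownS (self n1 n2 seg pars)
      (grp_ok (slabr rep lins (nearp rep) pars slabg)
        (bandr lins (nearv (nearp rep)) (dotv (dotp rep)) pars bandg)
        (wedger lins (nearv (nearp rep)) (dotv (dotp rep)) pars wedgeg)
        (dblr lins (nearv (nearp rep)) (dotv (dotp rep)) pars dblg))
      (cen lins (farp rep) pars ballg))
    (allc (cover coc) (comb bits (combp bits)) (cls lins pars)) pars

/-- Seven colours suffice whenever `b < 2 ^ 22 / r ≤ a`. -/
def Rng (a b : ℕ) : Prop :=
  ∀ r : ℝ, 0 < r → (b : ℝ) * r < 4194304 → 4194304 ≤ (a : ℝ) * r → (G r).Colorable 7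

theorem Rng.join {a b a' b' : ℕ} (h : Rng a b) (h' : Rng a' b') (hb : b ≤ a') : Rng a b' := by
  intro r hr h1 h2
  by_cases hc : (b : ℝ) * r < 4194304
  · exact h r hr hc h2
  · refine h' r hr h1 (le_trans (not_lt.1 hc) ?_)
    exact mul_le_mul_of_nonneg_right (by exact_mod_cast hb) hr.le

theorem rng (d : Dat) (c0 c1 c2 c3 c4 c5 c6 : List (ℕ × List (List ℕ))) (hv : chkV d = true)
    (h0 : chkC d c0 = true) (h1 : chkC d c1 = true) (h2 : chkC d c2 = true)
    (h3 : chkC d c3 = true) (h4 : chkC d c4 = true) (h5 : chkC d c5 = true)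
    (h6 : chkC d c6 = true) (he : chkE d [c0, c1, c2, c3, c4, c5, c6] = true) :
    Rng d.D0 d.D1 := by
  refine sound d [c0, c1, c2, c3, c4, c5, c6] rfl hv ?_ he
  intro l hl
  simp only [List.mem_cons, List.not_mem_nil, or_false] at hl
  rcases hl with rfl | rfl | rfl | rfl | rfl | rfl | rfl <;> assumption

end Pool.Agent.MP_d23910_co.S7
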