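import Pool.Agent.MP_d23910_co.S7.Base

/-!
Meaning of the checker and the statements that make up its soundness.
-/

set_option autoImplicit false

namespace Pool.Agent.MP_d23910_co.S7

open scoped RealInnerProductSpace

/-- Euclidean space. -/
abbrev E : Type := EuclideanSpace ℝ (Fin 3)

/-- Determinant of three vectors. -/
def det3 (a b c : E) : ℝ :=
  a 0 * (b 1 * c 2 - b 2 * c 1) + a 1 * (b 2 * c 0 - b 0 * c 2) + a 2 * (b 0 * c 1 - b 1 * c 0)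

/-- Nonnegative combinations of points of `A`. -/
def Cone (A : Set E) (x : E) : Prop :=
  ∃ (F : Finset E) (α : E → ℝ), (∀ a ∈ F, a ∈ A) ∧ (∀ a, 0 ≤ α a) ∧ x = ∑ a ∈ F, α a • a

/-! ### Geometry of the unit sphere -/

def BallS : Prop := ∀ (A : Set E) (z x : E) (ρ : ℝ), (∀ a ∈ A, ‖a‖ = 1) →
  (∀ a ∈ A, ‖a - z‖ ≤ ρ) → ρ ≤ 1 → ‖x‖ = 1 → Cone A x → ‖x - z‖ ≤ ρ

def SlabS : Prop := ∀ (A B : Set E) (n x y : E) (N α β c : ℝ), (∀ a ∈ A, ‖a‖ = 1) →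
  (∀ u ∈ B, ‖u‖ = 1) → 0 < N → ‖n‖ ≤ N → 0 ≤ α → 0 ≤ β → 0 ≤ c →
  (∀ a ∈ A, α * N ≤ ⟪a, n⟫) → (∀ u ∈ B, β * N ≤ -⟪u, n⟫) →
  1 - c ^ 2 < α ^ 2 + β ^ 2 + 2 * c * α * β → ‖x‖ = 1 → ‖y‖ = 1 → Cone A x → Cone B y →
  ⟪x, y⟫ < c

def BandS : Prop := ∀ (A B : Set E) (p q x y : E) (c : ℝ), (∀ a ∈ A, ‖a‖ = 1) →
  (∀ u ∈ B, ‖u‖ = 1) → ‖p‖ = 1 → ‖q‖ = 1 → ⟪p, q⟫ = c → c < 1 →
  (∀ a ∈ A, a = p ∨ ⟪a - p, q - p⟫ < 0) → (∀ u ∈ B, u = q ∨ ⟪u - q, p - q⟫ < 0) →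
  ‖x‖ = 1 → ‖y‖ = 1 → Cone A x → Cone B y → ⟪x, y⟫ = c → y = q

def WedgeS : Prop := ∀ (A B : Set E) (q x y : E) (c : ℝ), (∀ a ∈ A, ‖a‖ = 1) →
  (∀ u ∈ B, ‖u‖ = 1) → ‖q‖ = 1 → (∀ a ∈ A, ∀ u ∈ B, ⟪a - q, u - q⟫ ≤ 0) →
  ‖x‖ = 1 → ‖y‖ = 1 → Cone A x → Cone B y → ⟪x, q⟫ ≤ c → ⟪x, y⟫ = c → y = q ∧ ⟪x, q⟫ = c

def DblS : Prop := ∀ (A B : Set E) (p q x y : E) (c : ℝ), (∀ a ∈ A, ‖a‖ = 1) →
  (∀ u ∈ B, ‖u‖ = 1) → ‖p‖ = 1 → ‖q‖ = 1 → ⟪p, q⟫ = c → 0 ≤ c →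
  (∀ a ∈ A, ∀ u ∈ B, a = p ∨ u = q ∨ ⟪a - p, u - q⟫ < 0) →
  ‖x‖ = 1 → ‖y‖ = 1 → Cone A x → Cone B y → ⟪x, q⟫ ≤ c → ⟪y, p⟫ ≤ c → ⟪x, y⟫ = c →
  x = p ∨ y = q

def SegS : Prop := ∀ (m a b q x : E) (c : ℝ), ‖a‖ = 1 → ‖b‖ = 1 → ‖q‖ = 1 → ‖x‖ = 1 →
  0 < c → c < 1 → ⟪a, q⟫ = c → ⟪b, q⟫ = c → 0 < det3 m a b → 0 < det3 q b a →
  Cone {m, a, b} x → c ≤ ⟪x, q⟫ →
  ∃ β γ t : ℝ, 0 ≤ β ∧ 0 ≤ γ ∧ 0 ≤ t ∧ x = β • a + γ • b - t • q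

def N1S : Prop := ∀ (A : Set E) (x y : E) (c : ℝ), (∀ a ∈ A, ‖a‖ = 1) → 0 < c → ‖x‖ = 1 →
  Cone A x → (∀ a ∈ A, c ≤ ⟪a, y⟫) → c ≤ ⟪x, y⟫ ∧ (⟪x, y⟫ = c → x ∈ A)

def N2S : Prop := ∀ (a b q x y : E) (c β γ t : ℝ), ‖a‖ = 1 → ‖b‖ = 1 → ‖q‖ = 1 → ‖x‖ = 1 →
  ‖y‖ = 1 → 0 < c → ⟪a, q⟫ = c → ⟪b, q⟫ = c → 0 ≤ β → 0 ≤ γ → 0 ≤ t →
  x = β • a + γ • b - t • q → c ≤ ⟪x, q⟫ → c ≤ ⟪a, y⟫ → c ≤ ⟪b, y⟫ →
  c ≤ ⟪x, y⟫ ∧ (⟪x, y⟫ = c → ⟪x, q⟫ = c ∧ (x = a ∨ x = b ∨ y = q))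

def Par1S : Prop := ∀ (y p : E) (d η : ℝ), ‖y‖ = 1 → ‖p‖ = 1 → 0 ≤ η → η < d →
  d + η ≤ 6 / 5 → |‖y - p‖ - d| ≤ η →
  ∃ w : E, ‖w‖ = 1 ∧ ⟪w, p⟫ = 1 - d ^ 2 / 2 ∧ ‖w - y‖ ≤ 5 / 4 * η

def Par2S : Prop := ∀ (y p q : E) (d η l e : ℝ), ‖y‖ = 1 → ‖p‖ = 1 → ‖q‖ = 1 → 0 ≤ η →
  0 ≤ d → d + η ≤ l → 0 < e → |‖y - p‖ - d| ≤ η → |‖y - q‖ - d| ≤ η → 0 < det3 y p q →
  (2 * η * l + e ^ 2) * l ≤ e * det3 y p q →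
  ∃ w : E, ‖w‖ = 1 ∧ ⟪w, p⟫ = 1 - d ^ 2 / 2 ∧ ⟪w, q⟫ = 1 - d ^ 2 / 2 ∧ ‖w - y‖ ≤ e

/-- Sum of `φ` along the path `a :: L ++ [f]`. -/
def psum (φ : ℕ → ℕ → ℤ) (f : ℕ) : ℕ → List ℕ → ℤ
  | a, [] => φ a f
  | a, b :: t => φ a b + psum φ f b t

/-- Sum of `φ` along the boundary of a polygon. -/
def esum (φ : ℕ → ℕ → ℤ) : List ℕ → ℤ
  | [] => 0
  | a :: t => psum φ a a t

/-- The triangles `a, b, c`, `a, c, d`, … are positively oriented. -/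
def Fan (V : ℕ → E) (a : ℕ) : ℕ → List ℕ → Prop
  | _, [] => True
  | b, c :: t => 0 < det3 (V a) (V b) (V c) ∧ Fan V a c t

/-- The fan from the first vertex is positively oriented. -/
def FanL (V : ℕ → E) : List ℕ → Prop
  | a :: b :: t => Fan V a b t
  | _ => True

/-- Signs of the five-term identity: triangles seen from two generic points. -/
def CocS : Prop := ∀ (a b c x y : E), 0 < det3 a b c →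
  det3 x a b ≠ 0 → det3 x b c ≠ 0 → det3 x c a ≠ 0 →
  det3 y a b ≠ 0 → det3 y b c ≠ 0 → det3 y c a ≠ 0 →
  det3 x y a ≠ 0 → det3 x y b ≠ 0 → det3 x y c ≠ 0 →
  ∀ φ : E → E → ℤ, (∀ u w, φ u w =
    if 0 < det3 x u w ∧ det3 y u w < 0 ∧ 0 < det3 x y w ∧ det3 x y u < 0 then 1
    else if det3 x u w < 0 ∧ 0 < det3 y u w ∧ det3 x y w < 0 ∧ 0 < det3 x y u then -1 else 0) →
  (if 0 < det3 x a b ∧ 0 < det3 x b c ∧ 0 < det3 x c a then (1 : ℤ) else 0) -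
    (if 0 < det3 y a b ∧ 0 < det3 y b c ∧ 0 < det3 y c a then (1 : ℤ) else 0) =
    φ a b + φ b c + φ c a

def CoverS : Prop := ∀ (V : ℕ → E) (C : List (List ℕ)), (∀ L ∈ C, FanL V L) →
  (∀ φ : ℕ → ℕ → ℤ, (∀ i j, φ j i = -φ i j) → (C.map (esum φ)).sum = 0) →
  (∃ L ∈ C, 3 ≤ L.length) → ∀ x : E, ∃ L ∈ C, Cone {y | ∃ i ∈ L, y = V i} x

/-! ### Numbers as polynomials in the parameter -/

/-- `N` encodes a form of degree `k` in `1 - s` and `s` with value `f` and coefficient sum at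
most `M`. -/
def Rep (s : ℝ) (k N : ℕ) (f : ℝ) (M : ℕ) : Prop :=
  ∃ P : Polynomial ℕ, P.natDegree ≤ k ∧ N = P.eval BB ∧
    f = (1 - s) ^ k * P.eval₂ (Nat.castRingHom ℝ) (s / (1 - s)) ∧ P.eval 1 ≤ M

/-- The value of a number with two digits. -/
noncomputable def val (s : ℝ) (X : ℕ) : ℝ := (1 - s) * (X % BB : ℕ) + s * (X / BB : ℕ)

/-- The sum of the two digits is at most `M`. -/
def Lin (X M : ℕ) : Prop := X % BB + X / BB ≤ M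

/-- The point in offset coordinates. -/
noncomputable def P3.v (s : ℝ) (a : P3) : E := !₂[val s a.X, val s a.Y, val s a.Z]

/-- The record is consistent and bounded. -/
def P3.Ok (a : P3) (M : ℕ) : Prop :=
  a.N = a.X * a.X + a.Y * a.Y + a.Z * a.Z ∧ Lin a.X M ∧ Lin a.Y M ∧ Lin a.Z M

def RepS : Prop := ∀ s : ℝ, 0 ≤ s → s < 1 →
  (∀ n : ℕ, Rep s 0 n n n) ∧ (∀ X M, Lin X M → Rep s 1 X (val s X) M) ∧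
  (∀ k N f M M', Rep s k N f M → M ≤ M' → Rep s k N f M') ∧
  (∀ k N N' f f' M M', Rep s k N f M → Rep s k N' f' M' →
    Rep s k (Nat.add N N') (f + f') (M + M')) ∧
  (∀ k k' N N' f f' M M', Rep s k N f M → Rep s k' N' f' M' →
    Rep s (k + k') (Nat.mul N N') (f * f') (M * M')) ∧
  Rep s 1 H1 1 2 ∧ Rep s 2 H2 1 4 ∧ Rep s 3 H3 1 8 ∧
  (∀ k L R f g M M', k ≤ 3 → Rep s k L f M → Rep s k R g M' → M < 2 ^ 95 → M' < 2 ^ 95 →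
    geK L R = true → g ≤ f)

def LinS : Prop :=
  (∀ (s : ℝ) (x y : ℕ), x < BB → val s (Nat.add x (Nat.mul y BB)) = (1 - s) * x + s * y) ∧
  (∀ x y M : ℕ, x < BB → x + y ≤ M → Lin (Nat.add x (Nat.mul y BB)) M) ∧
  (∀ (s : ℝ) (X Y M M' : ℕ), Lin X M → Lin Y M' → M + M' < BB →
    val s (Nat.add X Y) = val s X + val s Y ∧ Lin (Nat.add X Y) (M + M')) ∧
  (∀ (s : ℝ) (n X M : ℕ), Lin X M → n * M < BB →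
    val s (Nat.mul n X) = n * val s X ∧ Lin (Nat.mul n X) (n * M)) ∧
  (∀ (s : ℝ) (n : ℕ), n < BB → val s (Nat.mul n H1) = n ∧ Lin (Nat.mul n H1) (2 * n)) ∧
  (∀ (s : ℝ) (X : ℕ), 0 ≤ s → s ≤ 1 → (lo2 X : ℝ) ≤ val s X ∧ val s X ≤ hi2 X) ∧
  (∀ X Y Z M, Lin X M → Lin Y M → Lin Z M → (mk3 X Y Z).Ok M) ∧
  (∀ (s : ℝ) (a b : P3) (M : ℕ), a.Ok M → b.Ok M → 2 * M < BB →
    (ad3 a b).Ok (2 * M) ∧ (ad3 a b).v s = a.v s + b.v s) ∧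
  org.Ok (2 ^ 24) ∧ (∀ s : ℝ, org.v s = !₂[8388608, 8388608, 8388608]) ∧
  (∀ (d : Dat) (j : ℕ), (vx d j).p.Ok (2 ^ 25))

def NearS : Prop := ∀ (s : ℝ) (a b : P3) (e T : ℕ), 0 ≤ s → s < 1 → a.Ok (2 ^ 27) →
  b.Ok (2 ^ 27) → e ≤ 2 ^ 20 → Lin T (2 ^ 30) → nearP a b e T = true →
  ‖a.v s - b.v s‖ + e < val s T

def FarS : Prop := ∀ (s : ℝ) (a b : P3) (m T : ℕ), 0 ≤ s → s < 1 → a.Ok (2 ^ 27) →
  b.Ok (2 ^ 27) → m ≤ 2 ^ 20 → Lin T (2 ^ 30) → farP a b m T = true →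
  val s T - m ≤ ‖a.v s - b.v s‖

def DotS : Prop := ∀ (s : ℝ) (a p u q : P3) (t : ℕ), 0 ≤ s → s < 1 → a.Ok (2 ^ 27) →
  p.Ok (2 ^ 27) → u.Ok (2 ^ 27) → q.Ok (2 ^ 27) → t ≤ 2 ^ 60 → dotP a p u q t = true →
  ⟪a.v s - p.v s, u.v s - q.v s⟫ + t < 0

def DetS : Prop := ∀ (s : ℝ) (a b c : P3) (t : ℕ), 0 ≤ s → s < 1 → a.Ok (2 ^ 25) →
  b.Ok (2 ^ 25) → c.Ok (2 ^ 25) → t ≤ 2 ^ 91 → detP a b c t = true →
  (t : ℝ) < det3 (a.v s - org.v s) (b.v s - org.v s) (c.v s - org.v s)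

/-! ### True vertices -/

/-- The unit vector `x` is approximated by the record `v`. -/
def Ap (s : ℝ) (x : E) (v : Vx) : Prop :=
  ‖x‖ = 1 ∧ ‖(4194304 : ℝ) • x - (v.p.v s - org.v s)‖ ≤ v.e ∧ v.p.Ok (2 ^ 25) ∧ v.e ≤ 65535

def NearVS : Prop := ∀ (s : ℝ) (x y : E) (a b : Vx) (T : ℕ), 0 ≤ s → s < 1 → Ap s x a →
  Ap s y b → Lin T (2 ^ 30) → nearV a b T = true → 4194304 * ‖x - y‖ < val s T

def DotVS : Prop := ∀ (s : ℝ) (x y z w : E) (a p u q : Vx) (l : ℕ), 0 ≤ s → s < 1 → Ap s x a →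
  Ap s y p → Ap s z u → Ap s w q → l ≤ 2 ^ 26 → 4194304 * ‖x - y‖ ≤ l →
  4194304 * ‖z - w‖ ≤ l → dotV a p u q l = true → ⟪x - y, z - w⟫ < 0

def DetVS : Prop := ∀ (s : ℝ) (x y z : E) (a b c : Vx) (l t : ℕ), 0 ≤ s → s < 1 → Ap s x a →
  Ap s y b → Ap s z c → l ≤ 2 ^ 26 → t ≤ 2 ^ 90 → 4194304 * ‖x - y‖ ≤ l →
  4194304 * ‖x - z‖ ≤ l → 4194304 * ‖y - z‖ ≤ l → detV a b c l t = true →
  (t : ℝ) < 4194304 ^ 3 * det3 x y z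

/-- The forbidden distance. -/
noncomputable def Dat.dd (d : Dat) (s : ℝ) : ℝ := ((1 - s) * d.D0 + s * d.D1) / 4194304
/-- The forbidden scalar product. -/
noncomputable def Dat.cc (d : Dat) (s : ℝ) : ℝ := 1 - d.dd s ^ 2 / 2

/-- The parameters are in range. -/
def Dat.Par (d : Dat) : Prop := 0 < d.nZ ∧ d.nZ ≤ d.nV ∧ d.nV ≤ 65536 ∧ 0 < d.nA ∧
  262144 ≤ d.D0 ∧ d.D0 ≤ 4900000 ∧ 262144 ≤ d.D1 ∧ d.D1 ≤ 4900000 ∧ d.RM ≤ 4194304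

/-- The record is a vertex of the table. -/
def Good (d : Dat) (v : Vx) : Prop := v.i < d.nV ∧ v = vx d v.i

/-- True positions of the vertices. -/
def Wd (d : Dat) (s : ℝ) (V : ℕ → E) : Prop := 0 ≤ s ∧ s < 1 ∧ d.Par ∧
  (∀ v, Good d v → Ap s (V v.i) v) ∧
  (∀ i j, rel d i j = true → i < d.nZ ∧ j < d.nZ ∧ ⟪V i, V j⟫ = d.cc s)

def ParS : Prop := ∀ (d : Dat) (s : ℝ), 0 ≤ s → s < 1 → d.Par →
  val s d.D = 4194304 * d.dd s ∧ Lin d.D (2 ^ 24) ∧ 4194304 * d.dd s ≤ d.Dm ∧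
  d.Dm ≤ 4900000 ∧ 1 / 16 ≤ d.dd s ∧ d.dd s ≤ 117 / 100 ∧ 0 < d.cc s ∧ d.cc s < 1 ∧
  (∀ j, Good d (vx d j)) ∧
  (∀ x y : E, ‖x‖ = 1 → ‖y‖ = 1 → (‖x - y‖ < d.dd s → d.cc s < ⟪x, y⟫) ∧
    (d.dd s < ‖x - y‖ → ⟪x, y⟫ < d.cc s) ∧ (⟪x, y⟫ = d.cc s ↔ ‖x - y‖ = d.dd s))

/-- One step of the construction of the true vertices. -/
def StepS : Prop := ∀ (d : Dat) (s : ℝ) (V : ℕ → E) (i : ℕ), 0 ≤ s → s < 1 → d.Par →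
  i < d.nV → chkV1 d i = true → (∀ j < i, Ap s (V j) (vx d j)) →
  ∃ w : E, Ap s w (vx d i) ∧ ∀ j, hp d i j = true → ⟪w, V j⟫ = d.cc s

def ExS : Prop := ∀ (d : Dat) (s : ℝ), 0 ≤ s → s < 1 → d.Par → allN (chkV1 d) d.nV = true →
  ∃ V, Wd d s V

/-- What is known about a piece. -/
def PcG (d : Dat) (V : ℕ → E) (p : Pc) : Prop := (∀ v ∈ p.L, Good d v) ∧ p.k ≤ 3 ∧
  (p.k = 3 → ∃ z, p.L = [z]) ∧
  (p.k = 1 ∨ p.k = 2 → Good d p.q ∧ ∃ m a b, p.L = [m, a, b] ∧ rel d p.q.i a.i = true ∧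
    rel d p.q.i b.i = true ∧ 0 < det3 (V m.i) (V a.i) (V b.i) ∧
    0 < det3 (V p.q.i) (V b.i) (V a.i))

/-- What is known about a cluster. -/
def ClG (d : Dat) (V : ℕ → E) (c : Cl) : Prop := (∀ p ∈ c.ps, PcG d V p) ∧
  c.ps.length = c.np ∧ c.c.Ok (2 ^ 26) ∧ c.rho ≤ 2 ^ 24 ∧ c.xl = lo2 c.c.X ∧ c.xh = hi2 c.c.X ∧
  c.yl = lo2 c.c.Y ∧ c.yh = hi2 c.c.Y ∧ c.zl = lo2 c.c.Z ∧ c.zh = hi2 c.c.Z

def ArcS : Prop := ∀ (d : Dat) (s : ℝ) (V : ℕ → E), Wd d s V →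
  allN (chkA1 d) d.nA = true → ∀ k j sl, k = 1 ∨ k = 2 → PcG d V (arc d k j sl)

def ClS : Prop := ∀ (d : Dat) (s : ℝ) (V : ℕ → E), Wd d s V →
  (∀ k j sl, k = 1 ∨ k = 2 → PcG d V (arc d k j sl)) →
  (∀ a, ClG d V (cl d a)) ∧
  (∀ a a', ∀ p ∈ (cl d a).ps, ∀ p' ∈ (cl d a').ps, p.k = 1 → p'.k = 2 → p'.t = p.t →
    p'.L = p.L ∧ p'.q = p.q ∧ p'.st = p.st)

/-- The true vertices of a piece. -/
def Pc.pts (V : ℕ → E) (p : Pc) : Set E := {x | ∃ v ∈ p.L, x = V v.i}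

/-- The points of a piece. -/
def Pc.mem (d : Dat) (s : ℝ) (V : ℕ → E) (p : Pc) (x : E) : Prop :=
  ‖x‖ = 1 ∧ Cone (p.pts V) x ∧ (p.k ≠ 3 → ∀ i < d.nZ, x ≠ V i) ∧
  (p.k = 1 → ⟪x, V p.q.i⟫ ≤ d.cc s ∧ (p.st = true → ⟪x, V p.q.i⟫ < d.cc s)) ∧
  (p.k = 2 → d.cc s ≤ ⟪x, V p.q.i⟫ ∧ (p.st = false → d.cc s < ⟪x, V p.q.i⟫))

/-- No two points of the pieces are at the forbidden distance. -/
def Sep (d : Dat) (s : ℝ) (V : ℕ → E) (p p' : Pc) : Prop :=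
  ∀ x y, p.mem d s V x → p'.mem d s V y → ⟪x, y⟫ ≠ d.cc s

/-- All vertices of the cluster are in its ball. -/
def InB (s : ℝ) (V : ℕ → E) (c : Cl) : Prop := ∀ p ∈ c.ps, ∀ v ∈ p.L,
  ‖(8388608 : ℝ) • V v.i - (c.c.v s - (2 : ℝ) • org.v s)‖ < 2 * c.rho

/-- The bounding vertices of the cluster are pairwise close or related. -/
def Close (d : Dat) (s : ℝ) (V : ℕ → E) (c : Cl) : Prop :=
  ∀ p ∈ c.ps, ∀ p' ∈ c.ps, ∀ a ∈ p.nv, ∀ b ∈ p'.nv,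
    a.i = b.i ∨ rel d a.i b.i = true ∨ d.cc s < ⟪V a.i, V b.i⟫

/-- The list of bounding vertices without repetition. -/
def NvS : Prop := ∀ ps : List Pc, ∃ nv : List Vx,
  (∀ k : List Vx → Bool, getNV ps [] k = k nv) ∧ (∀ w ∈ nv, ∃ p ∈ ps, w ∈ p.nv) ∧
  (∀ p ∈ ps, ∀ v ∈ p.nv, ∃ w ∈ nv, w.i = v.i)

def OwnS : Prop := ∀ (d : Dat) (s : ℝ) (V : ℕ → E) (c : Cl), Wd d s V → ClG d V c →
  chkCl d c = true → c.rho ≤ d.RM ∧ InB s V c ∧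
  (∀ p ∈ c.ps, p.k = 0 → FanL V (p.L.map Vx.i)) ∧ Close d s V c ∧
  (∀ p ∈ c.ps, ∀ p' ∈ c.ps, cmp d p p' = true)

def SelfS : Prop := ∀ (d : Dat) (s : ℝ) (V : ℕ → E) (c : Cl), Wd d s V → ClG d V c →
  Close d s V c → (∀ p ∈ c.ps, ∀ p' ∈ c.ps, cmp d p p' = true) →
  ∀ p ∈ c.ps, ∀ p' ∈ c.ps, Sep d s V p p'

/-- A rule is sound. -/
def Sound (R : Dat → List Pc → List Pc → ℕ → ℕ → ℕ → Bool) : Prop :=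
  ∀ (d : Dat) (s : ℝ) (V : ℕ → E) (A B : List Pc) (mA mB w : ℕ), Wd d s V →
    (∀ p ∈ A, PcG d V p) → (∀ p ∈ B, PcG d V p) → R d A B mA mB w = true →
    ∀ (i j : ℕ) (p p' : Pc), A[i]? = some p → B[j]? = some p' → mA.testBit i = true →
      mB.testBit j = true → Sep d s V p p'

def GrpS : Prop := ∀ (d : Dat) (s : ℝ) (V : ℕ → E) (a b : Cl) (g : List ℕ), Wd d s V →
  ClG d V a → ClG d V b → grp d a b g = true → ∀ p ∈ a.ps, ∀ p' ∈ b.ps, Sep d s V p p'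

/-- Far centres separate two clusters. -/
def CenS : Prop := ∀ (d : Dat) (s : ℝ) (V : ℕ → E) (a b : Cl), Wd d s V → ClG d V a →
  ClG d V b → InB s V a → InB s V b → a.rho ≤ d.RM → b.rho ≤ d.RM →
  ((ball d a b = true ∨
      a.xh + (2 * (a.rho + d.RM + d.Dm) + 1) ≤ b.xl ∨ b.xh + (2 * (a.rho + d.RM + d.Dm) + 1) ≤ a.xl ∨
      a.yh + (2 * (a.rho + d.RM + d.Dm) + 1) ≤ b.yl ∨ b.yh + (2 * (a.rho + d.RM + d.Dm) + 1) ≤ a.yl ∨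
      a.zh + (2 * (a.rho + d.RM + d.Dm) + 1) ≤ b.zl) →
    ∀ p ∈ a.ps, ∀ p' ∈ b.ps, Sep d s V p p')

def ScanS : Prop := ∀ (d : Dat) (s : ℝ) (V : ℕ → E) (l : List Cl), Wd d s V →
  (∀ c ∈ l, ClG d V c) → chkL d l = true →
  (∀ c ∈ l, chkCl d c = true) ∧ ∀ a ∈ l, ∀ b ∈ l, ∀ p ∈ a.ps, ∀ p' ∈ b.ps, Sep d s V p p'

/-- All pieces of a certificate. -/
noncomputable def allPs (d : Dat) (ls : List (List (ℕ × List (List ℕ)))) : List Pc :=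
  ls.flatMap fun l => l.flatMap fun a => (cl d a).ps

/-- The boundary sum of a piece that is a cell. -/
def Pc.es (φ : ℕ → ℕ → ℤ) (p : Pc) : ℤ := if p.k = 3 ∨ p.k = 2 then 0 else esum φ (p.L.map Vx.i)

/-- Sum of `ψ (b + t)` over the elements `t` of the set stored in `x`. -/
def bsum (ψ : ℕ → ℤ) (b x : ℕ) : ℤ := (((x >>> 64).bitIndices).map fun t => ψ (b + t)).sum

def BitS : Prop :=
  (∀ x t r i, r < 2 ^ 64 → ((setb x t r) >>> 64).testBit i = ((x >>> 64).testBit i || decide (i = t))) ∧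
  (∀ ψ b x t r, r < 2 ^ 64 → notb x t = true → bsum ψ b (setb x t r) = bsum ψ b x + ψ (b + t)) ∧
  (∀ ψ g x b, Nat.land g (shb x b) = 0 → bsum ψ 0 (unb g x b) = bsum ψ 0 g + bsum ψ b x) ∧
  (∀ ψ b, bsum ψ b 0 = 0)

/-- The value of `φ` on the edge with number `t`. -/
noncomputable def eval (d : Dat) (φ : ℕ → ℕ → ℤ) (t : ℕ) : ℤ :=
  φ (Nat.land (ent d.ET 7 127 32 t) 4294967295 % 65536)
    (Nat.land (ent d.ET 7 127 32 t) 4294967295 / 65536)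

/-- The pieces of one cluster. -/
def CombPS : Prop := ∀ (d : Dat) (φ : ℕ → ℕ → ℤ) (base : ℕ) (k : ℕ → ℕ → ℕ → ℕ → ℕ → Bool)
  (ps : List Pc) (l0 l1 ao ai pz : ℕ), (∀ i j, φ j i = -φ i j) →
  (∀ p ∈ ps, ∀ v ∈ p.L, v.i < 65536) → combP d base k ps l0 l1 ao ai pz = true →
  ∃ l0' l1' ao' ai' pz', k l0' l1' ao' ai' pz' = true ∧
    bsum (eval d φ) base l0' - bsum (eval d φ) base l1' =
      bsum (eval d φ) base l0 - bsum (eval d φ) base l1 + (ps.map (Pc.es φ)).sum ∧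
    (∀ i, (ao' >>> 64).testBit i = true ↔
      (ao >>> 64).testBit i = true ∨ ∃ p ∈ ps, p.k = 1 ∧ p.t = i) ∧
    (∀ i, (ai' >>> 64).testBit i = true ↔
      (ai >>> 64).testBit i = true ∨ ∃ p ∈ ps, p.k = 2 ∧ p.t = i) ∧
    (∀ i, (pz' >>> 64).testBit i = true ↔
      (pz >>> 64).testBit i = true ∨ ∃ p ∈ ps, p.k = 3 ∧ p.hd.i = i)

def CombS : Prop := ∀ (d : Dat) (ls : List (List (ℕ × List (List ℕ)))),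
  (∀ p ∈ allPs d ls, ∀ v ∈ p.L, v.i < 65536) → chkE d ls = true →
  (∀ φ : ℕ → ℕ → ℤ, (∀ i j, φ j i = -φ i j) → ((allPs d ls).map (Pc.es φ)).sum = 0) ∧
  (∃ p ∈ allPs d ls, p.k = 1) ∧
  (∀ p ∈ allPs d ls, p.k = 1 → ∃ p' ∈ allPs d ls, p'.k = 2 ∧ p'.t = p.t) ∧
  (∀ i < d.nZ, ∃ p ∈ allPs d ls, p.k = 3 ∧ p.hd.i = i)

/-- Every unit vector lies in a piece. -/
def AllS : Prop := ∀ (d : Dat) (s : ℝ) (V : ℕ → E) (ls : List (List (ℕ × List (List ℕ)))),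
  Wd d s V → (∀ k j sl, k = 1 ∨ k = 2 → PcG d V (arc d k j sl)) →
  (∀ p ∈ allPs d ls, p.k = 0 → FanL V (p.L.map Vx.i)) → chkE d ls = true →
  ∀ x : E, ‖x‖ = 1 → ∃ p ∈ allPs d ls, p.mem d s V x

/-- The graph of the problem. -/
def G (r : ℝ) : SimpleGraph (Metric.sphere (0 : E) r) :=
  SimpleGraph.fromRel fun x y : Metric.sphere (0 : E) r => dist (x : E) (y : E) = 1

def MainS : Prop := ∀ (d : Dat) (ls : List (List (ℕ × List (List ℕ)))), ls.length = 7 →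
  chkV d = true → (∀ l ∈ ls, chkC d l = true) → chkE d ls = true →
  ∀ r : ℝ, 0 < r → (d.D1 : ℝ) * r < 4194304 → 4194304 ≤ (d.D0 : ℝ) * r → (G r).Colorable 7

end Pool.Agent.MP_d23910_co.S7
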